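import Pool.Agent.Helper53.CSC.Two2

/-! The solution is transverse. -/

namespace Pool.CSC

open Module

section

variable {K V : Type*} [Field K] [AddCommGroup V] [Module K V] [FiniteDimensional K V]
variable {n k e : ℕ} {lam mu : ℕ → ℕ} {F G : ℕ → Submodule K V} {E : Submodule K V}

lemma exact_F (hN : Num n k e lam mu) (hC : Compl n k e lam mu) (h : Gen n e F G E)
    {H : Submodule K V} (hS : Sol n k lam mu F G E H) {i : ℕ} (hi : i < k - e) :
    finrank K ↥(H ⊓ F (ix n k lam i)) = i + 1 := by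
  have hk := hN.hkn
  have hek := hN.hek
  have h1 := hS.hF i (by omega)
  have hp := ix_pos hN i
  refine le_antisymm ?_ h1
  obtain ⟨t, ht⟩ : ∃ t, t + i + 1 = k - e := ⟨k - e - 1 - i, by omega⟩
  rcases t with _ | t
  · have hs := ix_sum hN hC (i := i) (j := 0) (by omega)
    have h2 := h.le (a := ix n k lam i) (b := 0) (by
      have := ix_pos hN.symm 0
      omega) hS.hE
    rw [hS.dim] at h2
    omega
  · have hs := ix_sum hN hC (i := i) (j := t + 1) (by omega)
    have h3 := ix_lt hN.symm (show t < t + 1 by omega)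
    have h4 := hS.hG t (by omega)
    have h2 := h.le (a := ix n k lam i) (b := ix n k mu t) (by omega) hS.hE
    rw [hS.dim] at h2
    have h5 : ix n k mu t = n - k + (t + 1) - mu t := rfl
    rw [← h5] at h4
    omega

lemma exact_G (hN : Num n k e lam mu) (hC : Compl n k e lam mu) (h : Gen n e F G E)
    {H : Submodule K V} (hS : Sol n k lam mu F G E H) {i : ℕ} (hi : i < k - e) :
    finrank K ↥(H ⊓ G (ix n k mu i)) = i + 1 :=
  exact_F hN.symm hC.symm h.symm hS.symm hi

lemma inter_H (hN : Num n k e lam mu) (hC : Compl n k e lam mu) (h : Gen n e F G E)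
    {H : Submodule K V} (hS : Sol n k lam mu F G E H) {i j : ℕ} (hij : i + j + 1 = k - e) :
    (F (ix n k lam i) ⊔ H) ⊓ (G (ix n k mu j) ⊔ H) = H := by
  have hk := hN.hkn
  have hek := hN.hek
  have h1 := exact_F hN hC h hS (i := i) (by omega)
  have h2 := exact_G hN hC h hS (i := j) (by omega)
  have hs := ix_sum hN hC hij
  have h3 := Submodule.finrank_sup_add_finrank_inf_eq (F (ix n k lam i)) H
  have h4 := Submodule.finrank_sup_add_finrank_inf_eq (G (ix n k mu j)) H
  have h5 := Submodule.finrank_sup_add_finrank_inf_eq (F (ix n k lam i) ⊔ H)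
    (G (ix n k mu j) ⊔ H)
  have h6 : (F (ix n k lam i) ⊔ H) ⊔ (G (ix n k mu j) ⊔ H) = ⊤ := by
    rw [eq_top_iff, ← top_add_one h hs (ix_pos hN i) (ix_le hN (by omega))]
    exact sup_le (le_sup_left.trans le_sup_left)
      (sup_le (le_sup_left.trans le_sup_right) (hS.hE.trans (le_sup_right.trans le_sup_right)))
  rw [inf_comm, h1, h.hF.dim _ (ix_le hN (by omega)), hS.dim] at h3
  rw [inf_comm, h2, h.hG.dim _ (ix_le hN.symm (by omega)), hS.dim] at h4
  rw [h6, finrank_top, h.hV] at h5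
  symm
  apply Submodule.eq_of_le_of_finrank_le (le_inf le_sup_right le_sup_right)
  rw [hS.dim]
  omega

/-- the solution is transverse -/
theorem tan_zero (hN : Num n k e lam mu) (hC : Compl n k e lam mu) (h : Gen n e F G E)
    {H : Submodule K V} (hS : Sol n k lam mu F G E H) (φ : ↥H →ₗ[K] V ⧸ H)
    (hE : ∀ x : ↥H, (x : V) ∈ E → φ x = 0)
    (hF : ∀ i < k, finrank K ↥(H ⊓ F (ix n k lam i)) = i + 1 →
      ∀ x : ↥H, (x : V) ∈ F (ix n k lam i) → φ x ∈ (F (ix n k lam i)).map H.mkQ)
    (hG : ∀ i < k, finrank K ↥(H ⊓ G (ix n k mu i)) = i + 1 →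
      ∀ x : ↥H, (x : V) ∈ G (ix n k mu i) → φ x ∈ (G (ix n k mu i)).map H.mkQ) :
    φ = 0 := by
  have hEH : E ≤ H := hS.hE
  have hlin : ∀ i < k - e, ∀ x : ↥H, (x : V) ∈ ln n k e lam mu F G E i → φ x = 0 := by
    intro i hi x hx
    obtain ⟨hxF, hxG⟩ := hx
    have h1 := hF i (by omega) (exact_F hN hC h hS hi) x hxF
    obtain ⟨g, hg, ε, hε, hgε⟩ := Submodule.mem_sup.1 hxG
    have hεH : ε ∈ H := hEH hε
    have hgH : g ∈ H := by
      have : g = (x : V) - ε := by rw [← hgε]; simp
      rw [this]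
      exact H.sub_mem x.2 hεH
    have h2 := hG (k - e - 1 - i) (by omega) (exact_G hN hC h hS (by omega)) ⟨g, hgH⟩ hg
    have h3 : φ ⟨g, hgH⟩ = φ x := by
      have h4 : x = ⟨g, hgH⟩ + ⟨ε, hεH⟩ := by
        ext
        exact hgε.symm
      rw [h4, map_add, hE ⟨ε, hεH⟩ hε, add_zero]
    rw [h3] at h2
    obtain ⟨u, hu, hu'⟩ := h1
    obtain ⟨w, hw, hw'⟩ := h2
    have h5 : u ∈ (F (ix n k lam i) ⊔ H) ⊓ (G (ix n k mu (k - e - 1 - i)) ⊔ H) := by
      refine ⟨Submodule.mem_sup_left hu, ?_⟩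
      have h6 : u - w ∈ H := by
        rw [← Submodule.ker_mkQ H, LinearMap.mem_ker, map_sub, hu', hw', sub_self]
      have h7 : u = w + (u - w) := by abel
      rw [h7]
      exact Submodule.add_mem_sup hw h6
    rw [inter_H hN hC h hS (by omega)] at h5
    rw [← hu']
    rwa [← LinearMap.mem_ker, Submodule.ker_mkQ]
  -- the kernel, as a subspace of `V`
  have hker : H ≤ (LinearMap.ker φ).map H.subtype := by
    have h1 : hs n k e lam mu F G E ≤ (LinearMap.ker φ).map H.subtype := by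
      refine sup_le ?_ (Finset.sup_le fun i hi => ?_)
      · intro x hx
        exact ⟨⟨x, hEH hx⟩, hE ⟨x, hEH hx⟩ hx, rfl⟩
      · rw [Finset.mem_range] at hi
        intro x hx
        have hxH : x ∈ H := by
          rw [sol_unique hN hC h hS]
          exact (Finset.le_sup (f := ln n k e lam mu F G E)
            (by rw [Finset.mem_range]; omega)).trans le_sup_right hx
        exact ⟨⟨x, hxH⟩, hlin i hi ⟨x, hxH⟩ hx, rfl⟩
    rwa [← sol_unique hN hC h hS] at h1
  ext x
  obtain ⟨y, hy, hyx⟩ := hker x.2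
  have : y = x := Subtype.ext hyx
  rw [← this]
  exact hy

end

end Pool.CSC
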