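import Pool.Agent.Helper53.CSC.Span
import Pool.Agent.Helper53.CSC.Tan

/-! Cosecant flags are complete flags and real. -/

namespace Pool.CSC

open Module Polynomial

noncomputable section

lemma finrank_V (n : ℕ) : finrank ℂ (Fin n → ℂ) = n := by simp

/-- evaluation functional -/
def evf (n : ℕ) (t : ℝ) : (Fin n → ℂ) →ₗ[ℂ] ℂ := (leval (t : ℂ)) ∘ₗ fp n

lemma osc_eq_ker {n : ℕ} (hn : 0 < n) (t : ℝ) : osc n t = LinearMap.ker (evf n t) := by
  ext v
  rw [mem_osc hn, LinearMap.mem_ker]
  rfl

lemma finrank_osc {n : ℕ} (hn : 0 < n) (t : ℝ) : n ≤ finrank ℂ ↥(osc n t) + 1 := by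
  have h1 := LinearMap.finrank_range_add_finrank_ker (evf n t)
  have h2 : finrank ℂ ↥(LinearMap.range (evf n t)) ≤ 1 := by
    have := Submodule.finrank_le (LinearMap.range (evf n t))
    simpa using this
  rw [osc_eq_ker hn]
  rw [finrank_V] at h1
  omega

lemma isFlag_cosecant {n : ℕ} (hn : 0 < n) {I : Set ℝ} {F : ℕ → Submodule ℂ (Fin n → ℂ)}
    (hF : Cosecant n I F) : IsFlag n F := by
  obtain ⟨h0, s, hs, -, hFs⟩ := hF
  have hdim : ∀ j ≤ n - 1, finrank ℂ ↥(F (n - j)) = n - j := by
    intro j
    induction j with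
    | zero =>
      intro _
      have h1 : (⨅ (i : Fin (n - 1)) (_ : (i : ℕ) < 0), osc n (s i)) = ⊤ := by
        simp only [not_lt_zero', iInf_false, iInf_const, iInf_top]
      rw [hFs 0 (by omega), h1, finrank_top, finrank_V, Nat.sub_zero]
    | succ j ih =>
      intro hj
      have h1 := ih (by omega)
      have hj' : j < n - 1 := by omega
      have h2 : F (n - (j + 1)) = F (n - j) ⊓ osc n (s ⟨j, hj'⟩) := by
        rw [hFs _ hj, hFs _ (by omega)]
        ext v
        simp only [Submodule.mem_inf, Submodule.mem_iInf]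
        constructor
        · intro h
          exact ⟨fun i hi => h i (by omega), h ⟨j, hj'⟩ (by simp)⟩
        · rintro ⟨h3, h4⟩ i hi
          rcases Nat.lt_succ_iff_lt_or_eq.1 hi with h5 | h5
          · exact h3 i h5
          · have : i = ⟨j, hj'⟩ := Fin.ext h5
            rw [this]
            exact h4
      have h3 : F (n - (j + 1)) < F (n - j) := by
        rw [h2]
        refine lt_of_le_of_ne inf_le_left ?_
        intro heq
        -- a polynomial vanishing at the first `j` points only
        set p : ℂ[X] := ∏ i ∈ Finset.univ.filter (fun i : Fin (n - 1) => (i : ℕ) < j),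
          (X - C ((s i : ℝ) : ℂ)) with hp
        have hpd : p ∈ degreeLT ℂ n := by
          rw [mem_degreeLT, hp, degree_prod]
          simp only [degree_X_sub_C, Finset.sum_const, nsmul_eq_mul, mul_one]
          have hc : (Finset.univ.filter fun i : Fin (n - 1) => (i : ℕ) < j).card ≤ n - 1 :=
            (Finset.card_le_univ _).trans (by simp)
          exact_mod_cast (by omega :
            (Finset.univ.filter fun i : Fin (n - 1) => (i : ℕ) < j).card < n)
        obtain ⟨v, hv⟩ := fp_surj n hpd
        have h4 : v ∈ F (n - j) := by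
          rw [hFs _ (by omega), mem_flag hn]
          intro i hi
          rw [hv, hp, eval_prod]
          exact Finset.prod_eq_zero (i := i) (by simp [hi]) (by simp)
        rw [← heq] at h4
        have h5 : v ∈ osc n (s ⟨j, hj'⟩) := h4.2
        rw [mem_osc hn, hv, hp, eval_prod, Finset.prod_eq_zero_iff] at h5
        obtain ⟨i, hi, hi'⟩ := h5
        simp only [Finset.mem_filter, Finset.mem_univ, true_and] at hi
        rw [eval_sub, eval_X, eval_C, sub_eq_zero] at hi'
        have h6 : s ⟨j, hj'⟩ = s i := by exact_mod_cast hi'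
        have h7 := congrArg Fin.val (hs h6)
        simp only at h7
        omega
      have h4 := Submodule.finrank_lt_finrank_of_lt h3
      have h5 := finrank_inf_ge (finrank_V n) (F (n - j)) (osc n (s ⟨j, hj'⟩))
      rw [← h2] at h5
      have h6 := finrank_osc hn (s ⟨j, hj'⟩)
      omega
  refine ⟨?_, ?_⟩
  · intro i j hij hjn
    rcases Nat.eq_zero_or_pos i with rfl | hi
    · rw [h0]
      exact bot_le
    · have h1 := hFs (n - i) (by omega)
      have h2 := hFs (n - j) (by omega)
      rw [show n - (n - i) = i by omega] at h1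
      rw [show n - (n - j) = j by omega] at h2
      rw [h1, h2]
      refine le_iInf fun a => le_iInf fun ha => ?_
      exact iInf_le_of_le a (iInf_le_of_le (by omega) le_rfl)
  · intro j hj
    rcases Nat.eq_zero_or_pos j with rfl | hj'
    · rw [h0, finrank_bot]
    · have := hdim (n - j) (by omega)
      rwa [show n - (n - j) = j by omega] at this

lemma isReal_bot (n : ℕ) : IsReal n ⊥ := by
  intro v hv
  rw [Submodule.mem_bot] at hv ⊢
  subst hv
  funext i
  simp

lemma isReal_sup {n : ℕ} {A B : Submodule ℂ (Fin n → ℂ)} (hA : IsReal n A) (hB : IsReal n B) :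
    IsReal n (A ⊔ B) := by
  intro v hv
  obtain ⟨a, ha, b, hb, rfl⟩ := Submodule.mem_sup.1 hv
  have : (fun i => (starRingEnd ℂ) ((a + b) i)) =
      (fun i => (starRingEnd ℂ) (a i)) + fun i => (starRingEnd ℂ) (b i) := by
    funext i
    simp
  rw [this]
  exact Submodule.add_mem_sup (hA a ha) (hB b hb)

lemma isReal_inf {n : ℕ} {A B : Submodule ℂ (Fin n → ℂ)} (hA : IsReal n A) (hB : IsReal n B) :
    IsReal n (A ⊓ B) := fun v hv => ⟨hA v hv.1, hB v hv.2⟩

lemma isReal_osc {n : ℕ} (hn : 0 < n) (t : ℝ) : IsReal n (osc n t) := by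
  intro v hv
  rw [mem_osc hn] at hv ⊢
  rw [fp_eval] at hv ⊢
  have h1 := congrArg (starRingEnd ℂ) hv
  rw [map_sum, map_zero] at h1
  rw [← h1]
  refine Finset.sum_congr rfl fun i _ => ?_
  simp [map_mul, map_pow, Complex.conj_ofReal]

lemma isReal_cosecant {n : ℕ} (hn : 0 < n) {I : Set ℝ} {F : ℕ → Submodule ℂ (Fin n → ℂ)}
    (hF : Cosecant n I F) {j : ℕ} (hj : j ≤ n) : IsReal n (F j) := by
  obtain ⟨h0, s, -, -, hFs⟩ := hF
  rcases Nat.eq_zero_or_pos j with rfl | hj'
  · rw [h0]
    exact isReal_bot n
  · have h1 := hFs (n - j) (by omega)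
    rw [show n - (n - j) = j by omega] at h1
    rw [h1]
    intro v hv
    simp only [Submodule.mem_iInf] at hv ⊢
    exact fun i hi => isReal_osc hn _ v (hv i hi)

lemma isReal_finset_sup {n : ℕ} (T : Finset ℕ) (L : ℕ → Submodule ℂ (Fin n → ℂ))
    (hL : ∀ i ∈ T, IsReal n (L i)) : IsReal n (T.sup L) := by
  induction T using Finset.induction_on with
  | empty =>
    rw [Finset.sup_empty]
    exact isReal_bot n
  | insert a T ha ih =>
    rw [Finset.sup_insert]
    exact isReal_sup (hL a (by simp)) (ih fun i hi => hL i (by simp [hi]))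

end

end Pool.CSC
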