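import Pool.Agent.Helper53.CSC.Asm

/-! General flags. -/

namespace Pool.CSC

open Module

noncomputable section

lemma span_rows {n : ℕ} (M : Matrix (Fin n) (Fin n) ℂ) (hM : M.det ≠ 0)
    (S : Submodule ℂ (Fin n → ℂ)) (hS : ∀ x, M x ∈ S) : S = ⊤ := by
  rw [eq_top_iff]
  intro v _
  have h1 : v = Matrix.vecMul (Matrix.vecMul v M⁻¹) M := by
    rw [Matrix.vecMul_vecMul, Matrix.nonsing_inv_mul _ (isUnit_iff_ne_zero.2 hM),
      Matrix.vecMul_one]
  rw [h1, Matrix.vecMul_eq_sum]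
  exact Submodule.sum_mem _ fun i _ => Submodule.smul_mem _ _ (hS i)

lemma isFlag_flagOf {n : ℕ} (A : Matrix (Fin n) (Fin n) ℂ) (hA : A.det ≠ 0) :
    IsFlag n (flagOf n A) := by
  refine ⟨?_, ?_⟩
  · intro i j hij _
    refine Submodule.span_mono ?_
    rintro v ⟨a, ha, rfl⟩
    exact ⟨a, by omega, rfl⟩
  · intro j hj
    have h1 : LinearIndependent ℂ A := Matrix.linearIndependent_rows_of_det_ne_zero hA
    have h2 : LinearIndependent ℂ (fun i : Fin j => A (Fin.castLE hj i)) :=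
      h1.comp _ (Fin.castLE_injective hj)
    have h3 : flagOf n A j = Submodule.span ℂ (Set.range fun i : Fin j => A (Fin.castLE hj i)) := by
      rw [flagOf]
      congr 1
      ext v
      constructor
      · rintro ⟨a, ha, rfl⟩
        exact ⟨⟨a, ha⟩, rfl⟩
      · rintro ⟨a, rfl⟩
        exact ⟨Fin.castLE hj a, a.2, rfl⟩
    rw [h3, finrank_span_eq_card h2, Fintype.card_fin]

/-- the determinant of a selection of rows -/
lemma exists_poly {n m : ℕ} (r : Fin m → ℕ) (hr : ∑ l, r l = n) :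
    ∃ P : MvPolynomial (Fin m × Fin n × Fin n) ℂ, P ≠ 0 ∧
      ∀ A : Fin m → Matrix (Fin n) (Fin n) ℂ,
        MvPolynomial.eval (fun x => A x.1 x.2.1 x.2.2) P ≠ 0 →
        ⨆ l, flagOf n (A l) (r l) = ⊤ := by
  have hle : ∀ l, r l ≤ n := fun l => by
    rw [← hr]
    exact Finset.single_le_sum (fun _ _ => Nat.zero_le _) (Finset.mem_univ l)
  let e : Fin n ≃ (l : Fin m) × Fin (r l) := (finCongr hr.symm).trans finSigmaFinEquiv.symm
  let B : Matrix (Fin n) (Fin n) (MvPolynomial (Fin m × Fin n × Fin n) ℂ) :=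
    Matrix.of fun x y => MvPolynomial.X ((e x).1, Fin.castLE (hle _) (e x).2, y)
  have hev : ∀ f : Fin m × Fin n × Fin n → ℂ, MvPolynomial.eval f B.det =
      (Matrix.of fun x y => f ((e x).1, Fin.castLE (hle _) (e x).2, y) :
        Matrix (Fin n) (Fin n) ℂ).det := by
    intro f
    rw [RingHom.map_det]
    congr 1
    ext x y
    simp [B]
  refine ⟨B.det, ?_, ?_⟩
  · intro h0
    let f : Fin m × Fin n × Fin n → ℂ := fun p =>
      if h : (p.2.1 : ℕ) < r p.1 then (if e.symm ⟨p.1, ⟨p.2.1, h⟩⟩ = p.2.2 then 1 else 0) else 0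
    have h1 := hev f
    rw [h0, map_zero] at h1
    have h2 : (Matrix.of fun x y => f ((e x).1, Fin.castLE (hle _) (e x).2, y) :
        Matrix (Fin n) (Fin n) ℂ) = 1 := by
      ext x y
      simp only [Matrix.of_apply, f, Matrix.one_apply]
      have h3 : ((Fin.castLE (hle (e x).1) (e x).2 : Fin n) : ℕ) < r (e x).1 := (e x).2.2
      rw [dif_pos h3]
      have h4 : e.symm ⟨(e x).1, ⟨((Fin.castLE (hle (e x).1) (e x).2 : Fin n) : ℕ), h3⟩⟩ = x := by
        rw [Equiv.symm_apply_eq]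
        rfl
      rw [h4]
    rw [h2, Matrix.det_one] at h1
    exact zero_ne_one h1
  · intro A hA
    rw [hev] at hA
    refine span_rows _ hA _ fun x => ?_
    refine Submodule.mem_iSup_of_mem (e x).1 ?_
    exact Submodule.subset_span ⟨Fin.castLE (hle _) (e x).2, (e x).2.2, rfl⟩

lemma sum_update {n m : ℕ} (r : Fin m → ℕ) {l₁ l₂ : Fin m} (hl : l₁ ≠ l₂) {a b : ℕ}
    (hab : a + b + ∑ l ∈ oth l₁ l₂, r l = n) :
    ∑ l, Function.update (Function.update r l₁ a) l₂ b l = n := by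
  rw [sum_split hl, Function.update_self, Function.update_of_ne hl, Function.update_self, ← hab]
  congr 1
  refine Finset.sum_congr rfl fun l hl => ?_
  simp only [oth, Finset.mem_filter, Finset.mem_univ, true_and] at hl
  rw [Function.update_of_ne hl.2, Function.update_of_ne hl.1]

/-- general flags are in general position -/
lemma exists_posn {n m : ℕ} (r : Fin m → ℕ) {l₁ l₂ : Fin m} (hl : l₁ ≠ l₂) :
    ∃ P : MvPolynomial (Fin m × Fin n × Fin n) ℂ, P ≠ 0 ∧
      ∀ A : Fin m → Matrix (Fin n) (Fin n) ℂ, (∀ l, (A l).det ≠ 0) →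
        MvPolynomial.eval (fun x => A x.1 x.2.1 x.2.2) P ≠ 0 →
        Posn n m (fun l => flagOf n (A l)) r l₁ l₂ := by
  classical
  have key : ∀ a : ℕ, ∃ P : MvPolynomial (Fin m × Fin n × Fin n) ℂ, P ≠ 0 ∧
      (a + ∑ l ∈ oth l₁ l₂, r l ≤ n → ∀ A : Fin m → Matrix (Fin n) (Fin n) ℂ,
        MvPolynomial.eval (fun x => A x.1 x.2.1 x.2.2) P ≠ 0 →
        ⨆ l, flagOf n (A l) (Function.update (Function.update r l₁ a) l₂
          (n - a - ∑ l ∈ oth l₁ l₂, r l) l) = ⊤) := by
    intro a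
    by_cases ha : a + ∑ l ∈ oth l₁ l₂, r l ≤ n
    · obtain ⟨P, hP, hP'⟩ := exists_poly (n := n)
        (Function.update (Function.update r l₁ a) l₂ (n - a - ∑ l ∈ oth l₁ l₂, r l))
        (sum_update r hl (by omega))
      exact ⟨P, hP, fun _ => hP'⟩
    · exact ⟨1, one_ne_zero, fun h => absurd h ha⟩
  choose P hP hP' using key
  refine ⟨∏ a ∈ Finset.range (n + 1), P a, Finset.prod_ne_zero_iff.2 fun a _ => hP a, ?_⟩
  intro A hA hev
  rw [map_prod, Finset.prod_ne_zero_iff] at hev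
  refine ⟨fun l => isFlag_flagOf _ (hA l), ?_⟩
  intro a b hab
  have h1 := hP' a (by omega) A (hev a (by rw [Finset.mem_range]; omega))
  have h2 : n - a - ∑ l ∈ oth l₁ l₂, r l = b := by omega
  rw [h2] at h1
  exact h1

/-- the number of points for general flags is unique -/
lemma generic_unique {k n m : ℕ} {lam : Fin m → Fin k → ℕ} {d d' : ℕ}
    (h : IsGenericNumber k n m lam d) (h' : IsGenericNumber k n m lam d') : d = d' := by
  obtain ⟨P, hP, hPA⟩ := h
  obtain ⟨P', hP', hPA'⟩ := h'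
  let B : Fin m → Matrix (Fin n) (Fin n) (MvPolynomial (Fin m × Fin n × Fin n) ℂ) :=
    fun l => Matrix.of fun i j => MvPolynomial.X (l, i, j)
  have hev : ∀ (f : Fin m × Fin n × Fin n → ℂ) (l : Fin m), MvPolynomial.eval f (B l).det =
      (Matrix.of fun i j => f (l, i, j) : Matrix (Fin n) (Fin n) ℂ).det := by
    intro f l
    rw [RingHom.map_det]
    congr 1
    ext x y
    simp [B]
  have hB : ∀ l, (B l).det ≠ 0 := by
    intro l h0
    have h1 := hev (fun p => if p.2.1 = p.2.2 then 1 else 0) l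
    rw [h0, map_zero] at h1
    have h2 : (Matrix.of fun i j => (if i = j then 1 else 0) : Matrix (Fin n) (Fin n) ℂ) = 1 := by
      ext i j
      simp [Matrix.one_apply]
    simp only at h1
    rw [h2, Matrix.det_one] at h1
    exact zero_ne_one h1
  have hQ : P * P' * ∏ l, (B l).det ≠ 0 :=
    mul_ne_zero (mul_ne_zero hP hP') (Finset.prod_ne_zero_iff.2 fun l _ => hB l)
  obtain ⟨f, hf⟩ : ∃ f, MvPolynomial.eval f (P * P' * ∏ l, (B l).det) ≠ 0 := by
    by_contra hc
    push Not at hc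
    apply hQ
    apply MvPolynomial.funext
    intro x
    rw [hc x, map_zero]
  rw [map_mul, map_mul, map_prod] at hf
  have h1 := left_ne_zero_of_mul (left_ne_zero_of_mul hf)
  have h2 := right_ne_zero_of_mul (left_ne_zero_of_mul hf)
  have h3 := Finset.prod_ne_zero_iff.1 (right_ne_zero_of_mul hf)
  have hA : ∀ l, (Matrix.of fun i j => f (l, i, j) : Matrix (Fin n) (Fin n) ℂ).det ≠ 0 := by
    intro l
    rw [← hev]
    exact h3 l (Finset.mem_univ l)
  have e1 := hPA (fun l => Matrix.of fun i j => f (l, i, j)) hA h1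
  have e2 := hPA' (fun l => Matrix.of fun i j => f (l, i, j)) hA h2
  rw [e1] at e2
  exact_mod_cast e2

lemma generic_dnum {k n m : ℕ} {lam : Fin m → Fin k → ℕ} {r : Fin m → ℕ} {l₁ l₂ : Fin m}
    (h : Red k n m lam r l₁ l₂) : IsGenericNumber k n m lam
      (dnum n k (∑ l ∈ oth l₁ l₂, r l) (ex (lam l₁)) (ex (lam l₂))) := by
  obtain ⟨P, hP, hPA⟩ := exists_posn (n := n) r h.ne
  exact ⟨P, hP, fun A hA hev => encard_inter h (hPA A hA hev)⟩

lemma posn_cosecant {n m : ℕ} (hn : 2 ≤ n) (I : Fin m → Set ℝ) (hI : ∀ l, (I l).OrdConnected)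
    (hd : Pairwise (fun l l' => Disjoint (I l) (I l')))
    (F : Fin m → ℕ → Submodule ℂ (Fin n → ℂ)) (hF : ∀ l, Cosecant n (I l) (F l))
    (r : Fin m → ℕ) {l₁ l₂ : Fin m} (hl : l₁ ≠ l₂) : Posn n m F r l₁ l₂ :=
  ⟨fun l => isFlag_cosecant (by omega) (hF l),
    fun a b hab => span_top hn I hI hd F hF _ (sum_update r hl hab)⟩

lemma isReal_inter {k n m : ℕ} {lam : Fin m → Fin k → ℕ} {r : Fin m → ℕ} {l₁ l₂ : Fin m}
    (h : Red k n m lam r l₁ l₂) {F : Fin m → ℕ → Submodule ℂ (Fin n → ℂ)}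
    (hP : Posn n m F r l₁ l₂) (hR : ∀ l j, j ≤ n → IsReal n (F l j))
    {H : Submodule ℂ (Fin n → ℂ)} (hH : H ∈ ⋂ l, schub k n (lam l) (F l)) : IsReal n H := by
  have hkn := h.hkn
  have hN := h.num
  have hG := gen_of_posn h.ne (fun l => (h.rk l).trans hkn.le) (h.ele.trans hkn.le) hP
  rw [mem_inter_iff h hP.flag] at hH
  have hC := compl_of_sol hN hG hH
  rw [sol_unique hN hC hG hH]
  have hE : IsReal n (Esp F r l₁ l₂) := by
    rw [Esp]
    generalize oth l₁ l₂ = S
    induction S using Finset.induction_on with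
    | empty =>
      rw [Finset.sup_empty]
      exact isReal_bot n
    | insert a S ha ih =>
      rw [Finset.sup_insert]
      exact isReal_sup (hR a _ ((h.rk a).trans hkn.le)) ih
  refine isReal_sup hE (isReal_finset_sup _ _ fun i hi => ?_)
  rw [Finset.mem_range] at hi
  have hek := hN.hek
  exact isReal_inf (hR _ _ (ix_le hN (by omega)))
    (isReal_sup (hR _ _ (ix_le hN.symm (by omega))) hE)

end

end Pool.CSC
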