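import Pool.Agent.Helper53.CSC.Flag

/-! Reduction of Schubert problems with at most two non-rectangular partitions. -/

namespace Pool.CSC

open Module

noncomputable section

/-- a partition as a function on the naturals -/
def ex {k : ℕ} (lam : Fin k → ℕ) : ℕ → ℕ := fun i => if h : i < k then lam ⟨i, h⟩ else 0

lemma ex_of_lt {k : ℕ} (lam : Fin k → ℕ) {i : ℕ} (h : i < k) : ex lam i = lam ⟨i, h⟩ := by
  rw [ex, dif_pos h]

lemma ex_anti {k : ℕ} {lam : Fin k → ℕ} (h : Antitone lam) : Antitone (ex lam) := by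
  intro i j hij
  by_cases hj : j < k
  · rw [ex_of_lt _ hj, ex_of_lt _ (by omega)]
    exact h (by simpa using hij)
  · rw [ex, dif_neg hj]
    exact Nat.zero_le _

lemma ex_sum {k : ℕ} (lam : Fin k → ℕ) : ∑ i ∈ Finset.range k, ex lam i = ∑ i, lam i := by
  rw [Finset.sum_range]
  refine Finset.sum_congr rfl fun i _ => ?_
  rw [ex_of_lt _ i.2]

/-- the indices different from the two distinguished ones -/
def oth {m : ℕ} (l₁ l₂ : Fin m) : Finset (Fin m) := Finset.univ.filter fun l => l ≠ l₁ ∧ l ≠ l₂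

lemma univ_eq {m : ℕ} (l₁ l₂ : Fin m) :
    (Finset.univ : Finset (Fin m)) = insert l₁ (insert l₂ (oth l₁ l₂)) := by
  ext l
  simp only [Finset.mem_univ, Finset.mem_insert, oth, Finset.mem_filter, true_and, true_iff]
  tauto

lemma sum_split {m : ℕ} {l₁ l₂ : Fin m} (h : l₁ ≠ l₂) (f : Fin m → ℕ) :
    ∑ l, f l = f l₁ + f l₂ + ∑ l ∈ oth l₁ l₂, f l := by
  rw [univ_eq l₁ l₂, Finset.sum_insert (by simp [h, oth]), Finset.sum_insert (by simp [oth]),
    add_assoc]

/-- the subspace spanned by the rectangular conditions -/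
def Esp {n m : ℕ} (F : Fin m → ℕ → Submodule ℂ (Fin n → ℂ)) (r : Fin m → ℕ) (l₁ l₂ : Fin m) :
    Submodule ℂ (Fin n → ℂ) := (oth l₁ l₂).sup fun l => F l (r l)

/-- flags in general position -/
structure Posn (n m : ℕ) (F : Fin m → ℕ → Submodule ℂ (Fin n → ℂ)) (r : Fin m → ℕ)
    (l₁ l₂ : Fin m) : Prop where
  flag : ∀ l, IsFlag n (F l)
  top : ∀ a b, a + b + ∑ l ∈ oth l₁ l₂, r l = n →
    ⨆ l, F l (Function.update (Function.update r l₁ a) l₂ b l) = ⊤

lemma finrank_sup_le_sum {n m : ℕ} (F : Fin m → Submodule ℂ (Fin n → ℂ)) (S : Finset (Fin m)) :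
    finrank ℂ ↥(S.sup F) ≤ ∑ l ∈ S, finrank ℂ ↥(F l) := by
  induction S using Finset.induction_on with
  | empty => simp
  | insert a S ha ih =>
    rw [Finset.sup_insert, Finset.sum_insert ha]
    exact (Submodule.finrank_add_le_finrank_add_finrank _ _).trans (by omega)

lemma gen_of_posn {n m : ℕ} {F : Fin m → ℕ → Submodule ℂ (Fin n → ℂ)} {r : Fin m → ℕ}
    {l₁ l₂ : Fin m} (hl : l₁ ≠ l₂) (hr : ∀ l, r l ≤ n) (he : ∑ l ∈ oth l₁ l₂, r l ≤ n)
    (h : Posn n m F r l₁ l₂) :
    Gen n (∑ l ∈ oth l₁ l₂, r l) (F l₁) (F l₂) (Esp F r l₁ l₂) := by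
  have htop : ∀ a b, a + b + ∑ l ∈ oth l₁ l₂, r l = n →
      F l₁ a ⊔ F l₂ b ⊔ Esp F r l₁ l₂ = ⊤ := by
    intro a b hab
    rw [eq_top_iff, ← h.top a b hab]
    refine iSup_le fun l => ?_
    by_cases h2 : l = l₂
    · subst h2
      rw [Function.update_self]
      exact le_sup_right.trans le_sup_left
    · rw [Function.update_of_ne h2]
      by_cases h1 : l = l₁
      · subst h1
        rw [Function.update_self]
        exact le_sup_left.trans le_sup_left
      · rw [Function.update_of_ne h1]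
        exact (Finset.le_sup (f := fun l => F l (r l))
          (by simp [oth, h1, h2])).trans le_sup_right
  refine ⟨finrank_V n, ?_, h.flag l₁, h.flag l₂, htop⟩
  refine le_antisymm ?_ ?_
  · refine (finrank_sup_le_sum _ _).trans (le_of_eq ?_)
    exact Finset.sum_congr rfl fun l _ => (h.flag l).dim _ (hr l)
  · set e := ∑ l ∈ oth l₁ l₂, r l with hedef
    have h1 := htop (n - e) 0 (by omega)
    have h2 := Submodule.finrank_add_le_finrank_add_finrank (F l₁ (n - e) ⊔ F l₂ 0)
      (Esp F r l₁ l₂)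
    have h3 := Submodule.finrank_add_le_finrank_add_finrank (F l₁ (n - e)) (F l₂ 0)
    rw [h1, finrank_top, finrank_V] at h2
    rw [(h.flag l₁).dim _ (by omega), (h.flag l₂).dim _ (by omega)] at h3
    omega

/-- the Schubert condition of a rectangle of full width -/
lemma rect_iff {k n : ℕ} (hkn : k < n) {lam : Fin k → ℕ} {r : ℕ} (hrk : r ≤ k)
    (hlam : ∀ i : Fin k, lam i = if (i : ℕ) < r then n - k else 0)
    {F : ℕ → Submodule ℂ (Fin n → ℂ)} (hF : IsFlag n F) {H : Submodule ℂ (Fin n → ℂ)}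
    (hH : finrank ℂ H = k) :
    (∀ i : Fin k, (i : ℕ) + 1 ≤ finrank ℂ ↥(H ⊓ F (sidx k n lam i))) ↔ F r ≤ H := by
  constructor
  · intro h
    rcases Nat.eq_zero_or_pos r with rfl | hr
    · have h0 : F 0 = ⊥ := Submodule.finrank_eq_zero.1 (hF.dim 0 (by omega))
      rw [h0]
      exact bot_le
    · have h1 := h ⟨r - 1, by omega⟩
      have h2 : sidx k n lam ⟨r - 1, by omega⟩ = r := by
        rw [sidx, hlam, if_pos (by simp only; omega)]
        simp only
        omega
      rw [h2] at h1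
      simp only at h1
      have h3 : H ⊓ F r = F r := by
        apply Submodule.eq_of_le_of_finrank_le inf_le_right
        rw [hF.dim r (by omega)]
        omega
      rw [← h3]
      exact inf_le_left
  · intro h i
    by_cases hi : (i : ℕ) < r
    · have h2 : sidx k n lam i = i + 1 := by
        rw [sidx, hlam, if_pos hi]
        omega
      rw [h2, inf_eq_right.2 ((hF.mono _ _ (by omega) (by omega)).trans h),
        hF.dim _ (by have := i.2; omega)]
    · have h2 : sidx k n lam i = n - k + (i + 1) := by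
        rw [sidx, hlam, if_neg hi, Nat.sub_zero]
      have h3 := finrank_inf_ge (finrank_V n) H (F (n - k + (i + 1)))
      have := i.2
      rw [hH, hF.dim _ (by omega)] at h3
      rw [h2]
      omega

/-- data of the reduction -/
structure Red (k n m : ℕ) (lam : Fin m → Fin k → ℕ) (r : Fin m → ℕ) (l₁ l₂ : Fin m) :
    Prop where
  hk : 1 ≤ k
  hkn : k < n
  ne : l₁ ≠ l₂
  prob : IsProblem k n m lam
  rk : ∀ l, r l ≤ k
  rect : ∀ l, l ≠ l₁ → l ≠ l₂ → ∀ i : Fin k, lam l i = if (i : ℕ) < r l then n - k else 0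

lemma rect_sum {k n : ℕ} {lam : Fin k → ℕ} {r : ℕ} (hrk : r ≤ k)
    (hlam : ∀ i : Fin k, lam i = if (i : ℕ) < r then n - k else 0) :
    ∑ i, lam i = r * (n - k) := by
  simp only [hlam]
  rw [← Finset.sum_range (fun i => if i < r then n - k else 0), ← Finset.sum_filter]
  have : (Finset.range k).filter (fun i => i < r) = Finset.range r := by
    ext i
    simp only [Finset.mem_filter, Finset.mem_range]
    omega
  rw [this]
  simp

lemma Red.esum {k n m : ℕ} {lam : Fin m → Fin k → ℕ} {r : Fin m → ℕ} {l₁ l₂ : Fin m}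
    (h : Red k n m lam r l₁ l₂) :
    ∑ i, lam l₁ i + ∑ i, lam l₂ i + (∑ l ∈ oth l₁ l₂, r l) * (n - k) = k * (n - k) := by
  rw [← h.prob.sum, sum_split h.ne (fun l => ∑ i, lam l i), Finset.sum_mul]
  congr 1
  refine Finset.sum_congr rfl fun l hl => ?_
  simp only [oth, Finset.mem_filter, Finset.mem_univ, true_and] at hl
  rw [rect_sum (h.rk l) (h.rect l hl.1 hl.2)]

lemma Red.ele {k n m : ℕ} {lam : Fin m → Fin k → ℕ} {r : Fin m → ℕ} {l₁ l₂ : Fin m}
    (h : Red k n m lam r l₁ l₂) : ∑ l ∈ oth l₁ l₂, r l ≤ k := by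
  have h1 := h.esum
  have h2 := h.hkn
  have h3 : (∑ l ∈ oth l₁ l₂, r l) * (n - k) ≤ k * (n - k) := by omega
  exact Nat.le_of_mul_le_mul_right h3 (by omega)

lemma Red.num {k n m : ℕ} {lam : Fin m → Fin k → ℕ} {r : Fin m → ℕ} {l₁ l₂ : Fin m}
    (h : Red k n m lam r l₁ l₂) :
    Num n k (∑ l ∈ oth l₁ l₂, r l) (ex (lam l₁)) (ex (lam l₂)) where
  hkn := h.hkn
  hek := h.ele
  al := ex_anti (h.prob.anti l₁)
  am := ex_anti (h.prob.anti l₂)
  wl := fun i => by
    rw [ex]
    split_ifs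
    · exact h.prob.le _ _
    · exact Nat.zero_le _
  wm := fun i => by
    rw [ex]
    split_ifs
    · exact h.prob.le _ _
    · exact Nat.zero_le _
  zl := fun i hi => by rw [ex, dif_neg (by omega)]
  zm := fun i hi => by rw [ex, dif_neg (by omega)]
  sum := by
    rw [ex_sum, ex_sum, Nat.sub_mul]
    have := h.esum
    omega

lemma ix_ex {k n : ℕ} (lam : Fin k → ℕ) {i : ℕ} (hi : i < k) :
    n - k + (i + 1) - ex lam i = sidx k n lam ⟨i, hi⟩ := by
  rw [ex_of_lt _ hi, sidx]

lemma mem_inter_iff {k n m : ℕ} {lam : Fin m → Fin k → ℕ} {r : Fin m → ℕ} {l₁ l₂ : Fin m}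
    (h : Red k n m lam r l₁ l₂) {F : Fin m → ℕ → Submodule ℂ (Fin n → ℂ)}
    (hF : ∀ l, IsFlag n (F l)) (H : Submodule ℂ (Fin n → ℂ)) :
    H ∈ ⋂ l, schub k n (lam l) (F l) ↔
      Sol n k (ex (lam l₁)) (ex (lam l₂)) (F l₁) (F l₂) (Esp F r l₁ l₂) H := by
  have hkn := h.hkn
  rw [Set.mem_iInter]
  constructor
  · intro hH
    refine ⟨(hH l₁).1, Finset.sup_le fun l hl => ?_, ?_, ?_⟩
    · simp only [oth, Finset.mem_filter, Finset.mem_univ, true_and] at hl
      exact (rect_iff hkn (h.rk l) (h.rect l hl.1 hl.2) (hF l) (hH l).1).1 (hH l).2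
    · intro i hi
      rw [ix_ex _ hi]
      exact (hH l₁).2 ⟨i, hi⟩
    · intro i hi
      rw [ix_ex _ hi]
      exact (hH l₂).2 ⟨i, hi⟩
  · intro hS l
    refine ⟨hS.dim, ?_⟩
    by_cases h1 : l = l₁
    · subst h1
      intro i
      have := hS.hF i i.2
      rwa [ix_ex _ i.2] at this
    · by_cases h2 : l = l₂
      · subst h2
        intro i
        have := hS.hG i i.2
        rwa [ix_ex _ i.2] at this
      · refine (rect_iff hkn (h.rk l) (h.rect l h1 h2) (hF l) hS.dim).2 ?_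
        exact (Finset.le_sup (f := fun l => F l (r l)) (by simp [oth, h1, h2])).trans hS.hE

open Classical in
/-- the number of solutions -/
def dnum (n k e : ℕ) (lam mu : ℕ → ℕ) : ℕ := if Compl n k e lam mu then 1 else 0

lemma encard_inter {k n m : ℕ} {lam : Fin m → Fin k → ℕ} {r : Fin m → ℕ} {l₁ l₂ : Fin m}
    (h : Red k n m lam r l₁ l₂) {F : Fin m → ℕ → Submodule ℂ (Fin n → ℂ)}
    (hP : Posn n m F r l₁ l₂) :
    (⋂ l, schub k n (lam l) (F l)).encard =
      (dnum n k (∑ l ∈ oth l₁ l₂, r l) (ex (lam l₁)) (ex (lam l₂)) : ℕ) := by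
  have hkn := h.hkn
  have hN := h.num
  have hG := gen_of_posn h.ne (fun l => (h.rk l).trans hkn.le) (h.ele.trans hkn.le) hP
  by_cases hC : Compl n k (∑ l ∈ oth l₁ l₂, r l) (ex (lam l₁)) (ex (lam l₂))
  · rw [dnum, if_pos hC]
    have : (⋂ l, schub k n (lam l) (F l)) =
        {hs n k (∑ l ∈ oth l₁ l₂, r l) (ex (lam l₁)) (ex (lam l₂)) (F l₁) (F l₂)
          (Esp F r l₁ l₂)} := by
      ext H
      rw [mem_inter_iff h hP.flag, Set.mem_singleton_iff]
      constructor
      · exact fun hS => sol_unique hN hC hG hS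
      · rintro rfl
        exact sol_hs hN hC hG
    rw [this, Set.encard_singleton]
    rfl
  · rw [dnum, if_neg hC]
    have : (⋂ l, schub k n (lam l) (F l)) = ∅ := by
      rw [Set.eq_empty_iff_forall_notMem]
      intro H hH
      rw [mem_inter_iff h hP.flag] at hH
      exact hC (compl_of_sol hN hG hH)
    rw [this, Set.encard_empty]
    rfl

lemma transverse_inter {k n m : ℕ} {lam : Fin m → Fin k → ℕ} {r : Fin m → ℕ} {l₁ l₂ : Fin m}
    (h : Red k n m lam r l₁ l₂) {F : Fin m → ℕ → Submodule ℂ (Fin n → ℂ)}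
    (hP : Posn n m F r l₁ l₂) {H : Submodule ℂ (Fin n → ℂ)}
    (hH : H ∈ ⋂ l, schub k n (lam l) (F l)) (φ : ↥H →ₗ[ℂ] (Fin n → ℂ) ⧸ H)
    (hφ : ∀ l, TangentTo k n (lam l) (F l) H φ) : φ = 0 := by
  have hkn := h.hkn
  have hN := h.num
  have hG := gen_of_posn h.ne (fun l => (h.rk l).trans hkn.le) (h.ele.trans hkn.le) hP
  rw [mem_inter_iff h hP.flag] at hH
  have hC := compl_of_sol hN hG hH
  refine tan_zero hN hC hG hH φ ?_ ?_ ?_
  · intro x hx
    -- the kernel contains every member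
    have hker : Esp F r l₁ l₂ ≤ (LinearMap.ker φ).map H.subtype := by
      refine Finset.sup_le fun l hl => ?_
      have hle : F l (r l) ≤ H := (Finset.le_sup (f := fun l => F l (r l)) hl).trans hH.hE
      simp only [oth, Finset.mem_filter, Finset.mem_univ, true_and] at hl
      intro v hv
      rcases Nat.eq_zero_or_pos (r l) with h0 | h0
      · rw [h0] at hv
        have h00 : F l 0 = ⊥ := Submodule.finrank_eq_zero.1 ((hP.flag l).dim 0 (by omega))
        rw [h00, Submodule.mem_bot] at hv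
        rw [hv]
        exact Submodule.zero_mem _
      · have hrk := h.rk l
        have h2 : sidx k n (lam l) ⟨r l - 1, by omega⟩ = r l := by
          rw [sidx, h.rect l hl.1 hl.2, if_pos (by simp only; omega)]
          simp only
          omega
        have h3 := hφ l ⟨r l - 1, by omega⟩ (by
          rw [h2, inf_eq_right.2 hle, (hP.flag l).dim _ (by omega)]
          simp only
          omega) ⟨v, hle hv⟩ (by rw [h2]; exact hv)
        rw [h2] at h3
        obtain ⟨u, hu, hu'⟩ := h3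
        refine ⟨⟨v, hle hv⟩, ?_, rfl⟩
        rw [SetLike.mem_coe, LinearMap.mem_ker, ← hu', ← LinearMap.mem_ker, Submodule.ker_mkQ]
        exact hle hu
    obtain ⟨y, hy, hyx⟩ := hker hx
    have : y = x := Subtype.ext hyx
    rw [← this]
    exact hy
  · intro i hi hfin x hx
    have h1 : ix n k (ex (lam l₁)) i = sidx k n (lam l₁) ⟨i, hi⟩ := ix_ex _ hi
    rw [h1] at hfin hx ⊢
    exact hφ l₁ ⟨i, hi⟩ hfin x hx
  · intro i hi hfin x hx
    have h1 : ix n k (ex (lam l₂)) i = sidx k n (lam l₂) ⟨i, hi⟩ := ix_ex _ hi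
    rw [h1] at hfin hx ⊢
    exact hφ l₂ ⟨i, hi⟩ hfin x hx

end

end Pool.CSC
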