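import Pool.Agent.Helper53.CSC.Vol

/-! Blocks `g, X g, ..., X^(r-1) g` and the recursions of the volume functional. -/

namespace Pool.CSC

open Polynomial ExteriorAlgebra Matrix

noncomputable section

/-- the list `g, X g, ..., X^(r-1) g` -/
def bl (g : ℝ[X]) : ℕ → List ℝ[X]
  | 0 => []
  | r + 1 => g :: bl (X * g) r

/-- the product of the block -/
def blk (g : ℝ[X]) (r : ℕ) : ExteriorAlgebra ℝ ℝ[X] := W (bl g r)

@[simp] lemma bl_length (g : ℝ[X]) (r : ℕ) : (bl g r).length = r := by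
  induction r generalizing g with
  | zero => rfl
  | succ r ih => simp [bl, ih]

@[simp] lemma blk_zero (g : ℝ[X]) : blk g 0 = 1 := rfl
lemma blk_succ (g : ℝ[X]) (r : ℕ) : blk g (r + 1) = ι ℝ g * blk (X * g) r := by
  simp [blk, bl]

/-- the first vector absorbs a shift of the others -/
lemma ι_mul_blk (g : ℝ[X]) (t : ℝ) (r : ℕ) :
    ι ℝ g * blk ((X - C t) * g) r = ι ℝ g * blk (X * g) r := by
  induction r generalizing g with
  | zero => simp
  | succ r ih =>
    have h1 : ι ℝ g * ι ℝ ((X - C t) * g) = ι ℝ g * ι ℝ (X * g) := by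
      have : (X - C t) * g = X * g - t • g := by
        rw [sub_mul, smul_eq_C_mul]
      rw [this, map_sub, map_smul, mul_sub, mul_smul_comm, ι_sq_zero, smul_zero, sub_zero]
    have h2 : X * ((X - C t) * g) = (X - C t) * (X * g) := by ring
    rw [blk_succ, blk_succ, ← mul_assoc, h1, h2, mul_assoc, ih (X * g)]

lemma blk_succ' (g : ℝ[X]) (t : ℝ) (r : ℕ) :
    blk g (r + 1) = ι ℝ g * blk ((X - C t) * g) r := by
  rw [ι_mul_blk, blk_succ]

/-- two different linear factors -/
lemma ι_ι_blk (g : ℝ[X]) (s s' : ℝ) (r : ℕ) :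
    ι ℝ ((X - C s) * g) * (ι ℝ ((X - C s') * g) * blk ((X - C s) * ((X - C s') * g)) r) =
      (s' - s) • blk g (r + 2) := by
  have h1 : ι ℝ ((X - C s) * g) * ι ℝ ((X - C s') * g) =
      (s' - s) • (ι ℝ g * ι ℝ ((X - C s') * g)) := by
    have h2 : (X - C s) * g = (X - C s') * g + (s' - s) • g := by
      rw [smul_eq_C_mul, C_sub]
      ring
    rw [h2, map_add, add_mul, ι_sq_zero, zero_add, map_smul, smul_mul_assoc]
  rw [← mul_assoc, h1, smul_mul_assoc, blk_succ' g s' (r + 1), blk_succ' ((X - C s') * g) s r,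
    mul_assoc]

end

end Pool.CSC
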