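import Pool.Agent.Helper53.CSC.Ident

/-! Configurations of groups and the confluent case. -/

namespace Pool.CSC

open Polynomial ExteriorAlgebra Matrix

noncomputable section

/-- a group: base root, free roots, size of the block -/
structure Grp where
  a : ℝ
  S : List ℝ
  r : ℕ

def fr (S : List ℝ) : ℝ[X] := (S.map fun s => X - C s).prod

@[simp] lemma fr_nil : fr [] = 1 := rfl
@[simp] lemma fr_cons (s : ℝ) (S : List ℝ) : fr (s :: S) = (X - C s) * fr S := by simp [fr]

lemma fr_natDegree (S : List ℝ) : (fr S).natDegree ≤ S.length := by
  induction S with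
  | nil => simp
  | cons s S ih =>
    rw [fr_cons, List.length_cons]
    calc ((X - C s) * fr S).natDegree ≤ (X - C s).natDegree + (fr S).natDegree := natDegree_mul_le
      _ ≤ 1 + (fr S).natDegree := by
        gcongr
        exact natDegree_X_sub_C_le s
      _ ≤ S.length + 1 := by omega

/-- the polynomial of a group, of degree `n - r` -/
def gp (n : ℕ) (G : Grp) : ℝ[X] := (X - C G.a) ^ (n - G.r - G.S.length) * fr G.S

/-- all vectors of a configuration -/
def cat (n : ℕ) (Ls : List Grp) : List ℝ[X] := (Ls.map fun G => bl (gp n G) G.r).flatten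

@[simp] lemma cat_nil (n : ℕ) : cat n [] = [] := rfl
@[simp] lemma cat_cons (n : ℕ) (G : Grp) (Ls : List Grp) :
    cat n (G :: Ls) = bl (gp n G) G.r ++ cat n Ls := by simp [cat]
@[simp] lemma cat_append (n : ℕ) (Ls Ls' : List Grp) :
    cat n (Ls ++ Ls') = cat n Ls ++ cat n Ls' := by simp [cat]

lemma cat_length (n : ℕ) (Ls : List Grp) : (cat n Ls).length = (Ls.map Grp.r).sum := by
  induction Ls with
  | nil => rfl
  | cons G Ls ih => simp [ih]

def D (n : ℕ) (Ls : List Grp) : ℝ := vol n (W (cat n Ls))

lemma natDegree_bl (g : ℝ[X]) (r : ℕ) : ∀ f ∈ bl g r, f.natDegree < g.natDegree + r := by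
  induction r generalizing g with
  | zero => simp [bl]
  | succ r ih =>
    intro f hf
    rw [bl, List.mem_cons] at hf
    rcases hf with rfl | hf
    · omega
    · have h1 := ih _ f hf
      have h2 : (X * g).natDegree ≤ 1 + g.natDegree := by
        calc (X * g).natDegree ≤ (X : ℝ[X]).natDegree + g.natDegree := natDegree_mul_le
          _ ≤ 1 + g.natDegree := by
            gcongr
            exact natDegree_X_le
      omega

lemma gp_natDegree {n : ℕ} {G : Grp} (h : G.r + G.S.length ≤ n) :
    (gp n G).natDegree ≤ n - G.r := by
  rw [gp]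
  calc ((X - C G.a) ^ (n - G.r - G.S.length) * fr G.S).natDegree
      ≤ ((X - C G.a) ^ (n - G.r - G.S.length)).natDegree + (fr G.S).natDegree := natDegree_mul_le
    _ ≤ (n - G.r - G.S.length) + G.S.length := by
        gcongr
        · rw [natDegree_pow, natDegree_X_sub_C, mul_one]
        · exact fr_natDegree _
    _ = n - G.r := by omega

lemma natDegree_cat {n : ℕ} {Ls : List Grp} (h : ∀ G ∈ Ls, G.r + G.S.length ≤ n) :
    ∀ f ∈ cat n Ls, f.natDegree < n := by
  induction Ls with
  | nil => simp
  | cons G Ls ih =>
    intro f hf
    rw [cat_cons, List.mem_append] at hf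
    rcases hf with hf | hf
    · have h1 := natDegree_bl _ _ f hf
      have h2 := gp_natDegree (h G (by simp))
      have h3 := h G (by simp)
      omega
    · exact ih (fun G hG => h G (by simp [hG])) f hf

lemma bl_map_mul (h g : ℝ[X]) (r : ℕ) : (bl g r).map (fun f => h * f) = bl (h * g) r := by
  induction r generalizing g with
  | zero => rfl
  | succ r ih =>
    rw [bl, bl, List.map_cons, ih]
    congr 2
    ring

/-- consecutive powers -/
def pl (a : ℝ) : ℕ → ℕ → List ℝ[X]
  | _, 0 => []
  | N, r + 1 => (X - C a) ^ N :: pl a (N + 1) r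

@[simp] lemma pl_length (a : ℝ) (N r : ℕ) : (pl a N r).length = r := by
  induction r generalizing N with
  | zero => rfl
  | succ r ih => simp [pl, ih]

lemma pl_snoc (a : ℝ) (N r : ℕ) : pl a N (r + 1) = pl a N r ++ [(X - C a) ^ (N + r)] := by
  induction r generalizing N with
  | zero => simp [pl]
  | succ r ih =>
    rw [pl, ih, pl, List.cons_append]
    congr 3
    ring_nf

lemma blk_pow (a : ℝ) (N r : ℕ) : blk ((X - C a) ^ N) r = W (pl a N r) := by
  induction r generalizing N with
  | zero => rfl
  | succ r ih =>
    rw [blk_succ' _ a, pl, W_cons, ← ih, pow_succ']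

lemma natDegree_pl (a : ℝ) (N r : ℕ) : ∀ f ∈ pl a N r, f.natDegree < N + r := by
  induction r generalizing N with
  | zero => simp [pl]
  | succ r ih =>
    intro f hf
    rw [pl, List.mem_cons] at hf
    rcases hf with rfl | hf
    · rw [natDegree_pow, natDegree_X_sub_C]
      omega
    · have := ih _ f hf
      omega

lemma map_W (A : ℝ[X] →ₗ[ℝ] ℝ[X]) (L : List ℝ[X]) :
    ExteriorAlgebra.map A (W L) = W (L.map A) := by
  induction L with
  | nil => simp
  | cons f L ih => rw [W_cons, map_mul, ih, map_apply_ι, List.map_cons, W_cons]

lemma polar_pl {d : ℕ} {a b : ℝ} (hab : b < a) (M r : ℕ) (hd : M + r = d) :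
    ∃ c : ℝ, 0 < c ∧ W ((pl b (M + 1) r).map (polar d a)) = c • W (pl b M r) := by
  induction r generalizing M with
  | zero => exact ⟨1, one_pos, by simp [pl]⟩
  | succ r ih =>
    obtain ⟨c, hc, h⟩ := ih (M + 1) (by omega)
    refine ⟨((M : ℝ) + 1) * (a - b) * c, by
      have : 0 < a - b := sub_pos.2 hab
      positivity, ?_⟩
    rw [pl, List.map_cons, W_cons, h, polar_pow, map_add, map_smul, map_smul, pl, W_cons]
    rw [add_mul, smul_mul_smul_comm, smul_mul_smul_comm]
    have h0 : (((d : ℝ) - (M + 1)) * c) • (ι ℝ ((X - C b) ^ (M + 1)) * W (pl b (M + 1) r)) = 0 := by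
      cases r with
      | zero =>
        have : (d : ℝ) - (M + 1) = 0 := by
          rw [← hd]
          push_cast
          ring
        rw [this, zero_mul, zero_smul]
      | succ r =>
        rw [pl, W_cons, ← mul_assoc, ι_sq_zero, zero_mul, smul_zero]
    rw [h0, add_zero]

lemma polar_self {d : ℕ} {a : ℝ} (N r : ℕ) (hd : N + r ≤ d) :
    ∃ c : ℝ, 0 < c ∧ W ((pl a N r).map (polar d a)) = c • W (pl a N r) := by
  induction r generalizing N with
  | zero => exact ⟨1, one_pos, by simp [pl]⟩
  | succ r ih =>
    obtain ⟨c, hc, h⟩ := ih (N + 1) (by omega)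
    have h1 : (0 : ℝ) < (d : ℝ) - N := by
      have : N < d := by omega
      have : (N : ℝ) < d := by exact_mod_cast this
      linarith
    refine ⟨((d : ℝ) - N) * c, by positivity, ?_⟩
    rw [pl, List.map_cons, W_cons, h, polar_pow_self, map_smul, W_cons, smul_mul_smul_comm]

/-- polar derivative of the blocks of a confluent configuration -/
lemma polar_cat {d : ℕ} {a : ℝ} (P : List Grp) (hS : ∀ G ∈ P, G.S = []) (ha : ∀ G ∈ P, G.a < a)
    (hr : ∀ G ∈ P, G.r ≤ d) :
    ∃ c : ℝ, 0 < c ∧ W ((cat (d + 1) P).map (polar d a)) = c • W (cat d P) := by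
  induction P with
  | nil => exact ⟨1, one_pos, by simp⟩
  | cons G P ih =>
    obtain ⟨c, hc, h⟩ := ih (fun G hG => hS G (by simp [hG])) (fun G hG => ha G (by simp [hG]))
      (fun G hG => hr G (by simp [hG]))
    have hG : G.S = [] := hS G (by simp)
    have hrG := hr G (by simp)
    obtain ⟨c', hc', h'⟩ := polar_pl (d := d) (ha G (by simp)) (d - G.r) G.r (by omega)
    refine ⟨c' * c, by positivity, ?_⟩
    rw [cat_cons, List.map_append, W_append, h, cat_cons, W_append]
    have h1 : W ((bl (gp (d + 1) G) G.r).map (polar d a)) = c' • W (bl (gp d G) G.r) := by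
      have e1 : gp (d + 1) G = (X - C G.a) ^ (d - G.r + 1) := by
        rw [gp, hG, fr_nil, mul_one]
        congr 1
        simp only [List.length_nil]
        omega
      have e2 : gp d G = (X - C G.a) ^ (d - G.r) := by
        rw [gp, hG, fr_nil, mul_one]
        congr 1
      rw [← map_W, e1, e2]
      show ExteriorAlgebra.map _ (blk _ _) = c' • blk _ _
      rw [blk_pow, blk_pow, map_W, h']
    rw [h1, smul_mul_smul_comm]

/-- the confluent case -/
theorem base_conf : ∀ (m n : ℕ) (Ls : List Grp), n + Ls.length = m →
    Ls.Pairwise (fun G H => G.a < H.a) → (∀ G ∈ Ls, G.S = []) → (Ls.map Grp.r).sum = n →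
    0 < D n Ls := by
  intro m
  induction m using Nat.strong_induction_on with
  | _ m ih =>
    intro n Ls hm hp hS hs
    rcases List.eq_nil_or_concat' Ls with rfl | ⟨P, H, rfl⟩
    · simp at hs
      subst hs
      simp [D, vol_zero_one]
    · have hH : H.S = [] := hS H (by simp)
      rw [List.pairwise_append] at hp
      obtain ⟨hp1, -, hp3⟩ := hp
      have hPS : ∀ G ∈ P, G.S = [] := fun G hG => hS G (by simp [hG])
      have hPa : ∀ G ∈ P, G.a < H.a := fun G hG => hp3 G hG H (by simp)
      simp only [List.map_append, List.map_cons, List.map_nil, List.sum_append, List.sum_cons,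
        List.sum_nil, add_zero] at hs
      obtain ⟨a, S, r⟩ := H
      simp only at hH hPa hs
      subst hH
      cases r with
      | zero =>
        have h := ih (n + P.length) (by simp at hm; omega) n P rfl hp1 hPS (by omega)
        rw [D] at h ⊢
        rw [cat_append, cat_cons, cat_nil]
        simpa [bl] using h
      | succ r =>
        obtain ⟨d, rfl⟩ : ∃ d, n = d + 1 := ⟨n - 1, by omega⟩
        have hrP : ∀ G ∈ P, G.r ≤ d := by
          intro G hG
          have : G.r ≤ (P.map Grp.r).sum := List.single_le_sum (by simp) _
            (List.mem_map_of_mem hG)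
          omega
        have hIH : 0 < D d (P ++ [⟨a, [], r⟩]) := by
          refine ih (d + (P.length + 1)) (by simp at hm; omega) d _ (by simp) ?_ ?_ ?_
          · rw [List.pairwise_append]
            exact ⟨hp1, by simp, fun G hG H hH => by
              simp only [List.mem_cons, List.not_mem_nil, or_false] at hH
              rw [hH]
              exact hPa G hG⟩
          · intro G hG
            simp only [List.mem_append, List.mem_cons, List.not_mem_nil, or_false] at hG
            rcases hG with hG | rfl
            · exact hPS G hG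
            · rfl
          · simp only [List.map_append, List.map_cons, List.map_nil, List.sum_append,
              List.sum_cons, List.sum_nil, add_zero]
            omega
        obtain ⟨c1, hc1, h1⟩ := polar_cat (d := d) (a := a) P hPS hPa hrP
        obtain ⟨c2, hc2, h2⟩ := polar_self (d := d) (a := a) (d - r) r (by omega)
        set L := cat (d + 1) P ++ pl a (d - r) r with hL
        have hLl : L.length = d := by
          rw [hL, List.length_append, cat_length, pl_length]
          omega
        have hdeg : ∀ f ∈ L, f.natDegree ≤ L.length := by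
          intro f hf
          rw [hL, List.mem_append] at hf
          rw [hLl]
          rcases hf with hf | hf
          · have := natDegree_cat (n := d + 1) (Ls := P) (fun G hG => by
              have := hrP G hG
              rw [hPS G hG]
              simp
              omega) f hf
            omega
          · have := natDegree_pl _ _ _ f hf
            omega
        have key := vol_polar' L a hdeg
        rw [hLl] at key
        have hDe : D (d + 1) (P ++ [⟨a, [], r + 1⟩]) =
            vol (d + 1) (W L * ι ℝ ((X - C a) ^ d)) := by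
          rw [D, cat_append, cat_cons, cat_nil, List.append_nil, W_append]
          have e1 : gp (d + 1) ⟨a, [], r + 1⟩ = (X - C a) ^ (d - r) := by
            simp [gp]
          rw [e1]
          show vol (d + 1) (_ * blk _ _) = _
          rw [blk_pow, pl_snoc, W_append, hL, W_append, mul_assoc]
          congr 4
          simp only [W_cons, W_nil, mul_one]
          congr 2
          omega
        have hDe' : vol d (W (L.map (polar d a))) = c1 * c2 * D d (P ++ [⟨a, [], r⟩]) := by
          rw [hL, List.map_append, W_append, h1, h2, smul_mul_smul_comm, map_smul, smul_eq_mul]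
          congr 1
          rw [D, cat_append, cat_cons, cat_nil, List.append_nil, W_append]
          have e1 : gp d ⟨a, [], r⟩ = (X - C a) ^ (d - r) := by
            simp [gp]
          rw [e1]
          show _ = vol d (_ * blk _ _)
          rw [blk_pow]
        rw [hDe, ]
        rw [hDe'] at key
        have hk := kap_pos d
        have : 0 < vol (d + 1) (W L * ι ℝ ((X - C a) ^ d)) * kap d := by
          rw [key]
          positivity
        exact pos_of_mul_pos_left this hk.le

/-- two blocks -/
theorem two_block (r p : ℕ) (g : ℝ[X]) (b : ℝ) (hg : g.natDegree ≤ p) (hb : 0 < g.eval b) :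
    0 < vol (r + p) (blk g r * blk ((X - C b) ^ r) p) := by
  induction r with
  | zero =>
    have h := base_conf (p + 1) p [⟨b, [], p⟩] (by simp) (by simp) (by simp) (by simp)
    rw [D, cat_cons, cat_nil, List.append_nil] at h
    have e1 : gp p ⟨b, [], p⟩ = 1 := by simp [gp]
    rw [e1] at h
    rw [zero_add, blk_zero, one_mul, pow_zero]
    exact h
  | succ r ih =>
    set L := bl g r ++ bl ((X - C b) ^ r) p with hL
    have hLl : L.length = r + p := by simp [hL]
    have hdeg : ∀ f ∈ L, f.natDegree < L.length := by
      intro f hf
      rw [hL, List.mem_append] at hf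
      rw [hLl]
      rcases hf with hf | hf
      · have := natDegree_bl _ _ f hf
        omega
      · have := natDegree_bl _ _ f hf
        rw [natDegree_pow, natDegree_X_sub_C] at this
        omega
    have key := vol_eval L g b (by omega) hdeg
    rw [hLl] at key
    have e : blk g (r + 1) * blk ((X - C b) ^ (r + 1)) p =
        ι ℝ g * W (L.map fun f => (X - C b) * f) := by
      rw [hL, List.map_append, bl_map_mul, bl_map_mul, W_append, blk_succ' g b, mul_assoc,
        pow_succ']
      rfl
    have e2 : r + 1 + p = r + p + 1 := by omega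
    rw [e2, e, key]
    have e3 : W L = blk g r * blk ((X - C b) ^ r) p := by
      rw [hL, W_append]
      rfl
    rw [e3]
    exact mul_pos hb ih

end

end Pool.CSC
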