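import Pool.Agent.Helper53.CSC.Defs

/-! The rational normal curve, its osculating hyperplanes and cosecant flags. -/

namespace Pool.CSC

open Polynomial

noncomputable section

lemma iteratedDeriv_gam (n j : ℕ) :
    iteratedDeriv j (gam n) =
      fun t : ℝ => fun i : Fin n => (derivative^[j] (X ^ (i : ℕ) : ℂ[X])).eval (t : ℂ) := by
  induction j with
  | zero =>
    funext t i
    simp [iteratedDeriv_zero, gam]
  | succ j ih =>
    rw [iteratedDeriv_succ, ih]
    funext t
    apply HasDerivAt.deriv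
    rw [hasDerivAt_pi]
    intro i
    rw [Function.iterate_succ_apply']
    exact (Polynomial.hasDerivAt _ _).comp_ofReal

/-- the polynomial of a vector -/
def fp (n : ℕ) : (Fin n → ℂ) →ₗ[ℂ] ℂ[X] :=
  ∑ i : Fin n, ((n - 1).choose i * (-1 : ℂ) ^ (n - 1 - (i : ℕ))) •
    ((Polynomial.monomial (n - 1 - (i : ℕ))) ∘ₗ LinearMap.proj i)

lemma fp_apply (n : ℕ) (v : Fin n → ℂ) :
    fp n v = ∑ i : Fin n, monomial (n - 1 - (i : ℕ))
      (((n - 1).choose i * (-1 : ℂ) ^ (n - 1 - (i : ℕ))) * v i) := by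
  simp [fp, LinearMap.sum_apply, smul_monomial]

lemma fp_eval (n : ℕ) (v : Fin n → ℂ) (x : ℂ) :
    (fp n v).eval x = ∑ i : Fin n, ((n - 1).choose i : ℂ) * (-x) ^ (n - 1 - (i : ℕ)) * v i := by
  rw [fp_apply, eval_finsetSum]
  refine Finset.sum_congr rfl fun i _ => ?_
  rw [eval_monomial, neg_pow x]
  ring

lemma fp_coeff (n : ℕ) (v : Fin n → ℂ) (i : Fin n) :
    (fp n v).coeff (n - 1 - (i : ℕ)) = ((n - 1).choose i * (-1 : ℂ) ^ (n - 1 - (i : ℕ))) * v i := by
  rw [fp_apply, finsetSum_coeff, Finset.sum_eq_single i]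
  · rw [coeff_monomial, if_pos rfl]
  · intro j _ hj
    rw [coeff_monomial, if_neg]
    intro h
    apply hj
    ext
    have h1 := i.2
    have h2 := j.2
    omega
  · simp

lemma fp_coeff_ne (n : ℕ) (i : Fin n) :
    ((n - 1).choose i * (-1 : ℂ) ^ (n - 1 - (i : ℕ))) ≠ 0 := by
  apply mul_ne_zero
  · have : 0 < (n - 1).choose i := Nat.choose_pos (by have := i.2; omega)
    exact_mod_cast this.ne'
  · exact pow_ne_zero _ (by norm_num)

lemma fp_injective (n : ℕ) : Function.Injective (fp n) := by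
  intro v w h
  funext i
  have h1 := congrArg (fun p => p.coeff (n - 1 - (i : ℕ))) h
  simp only [fp_coeff] at h1
  exact mul_left_cancel₀ (fp_coeff_ne n i) h1

lemma fp_degree (n : ℕ) (v : Fin n → ℂ) : fp n v ∈ degreeLT ℂ n := by
  rw [fp_apply]
  refine Submodule.sum_mem _ fun i _ => ?_
  rw [mem_degreeLT]
  refine (degree_monomial_le _ _).trans_lt ?_
  have := i.2
  exact_mod_cast (by omega : n - 1 - (i : ℕ) < n)

lemma fp_surj (n : ℕ) {p : ℂ[X]} (hp : p ∈ degreeLT ℂ n) : ∃ v, fp n v = p := by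
  refine ⟨fun i => p.coeff (n - 1 - (i : ℕ)) /
    ((n - 1).choose i * (-1 : ℂ) ^ (n - 1 - (i : ℕ))), ?_⟩
  ext j
  by_cases hj : j < n
  · have h1 : j = n - 1 - ((⟨n - 1 - j, by omega⟩ : Fin n) : ℕ) := by
      simp only
      omega
    rw [h1, fp_coeff, mul_div_cancel₀ _ (fp_coeff_ne n _)]
  · have h1 := fp_degree n (fun i => p.coeff (n - 1 - (i : ℕ)) /
      ((n - 1).choose i * (-1 : ℂ) ^ (n - 1 - (i : ℕ))))
    rw [mem_degreeLT] at h1 hp
    rw [coeff_eq_zero_of_degree_lt (h1.trans_le (by exact_mod_cast (not_lt.1 hj))),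
      coeff_eq_zero_of_degree_lt (hp.trans_le (by exact_mod_cast (not_lt.1 hj)))]

lemma fp_iter {n : ℕ} (hn : 0 < n) (j : ℕ) (t : ℝ) :
    fp n (iteratedDeriv j (gam n) t) =
      C ((n - 1).descFactorial j : ℂ) * (C (t : ℂ) - X) ^ (n - 1 - j) := by
  apply Polynomial.funext
  intro x
  rw [fp_eval, iteratedDeriv_gam]
  simp only
  have h1 : ∑ i : Fin n, ((n - 1).choose i : ℂ) * (-x) ^ (n - 1 - (i : ℕ)) *
      (derivative^[j] (X ^ (i : ℕ) : ℂ[X])).eval (t : ℂ) =
      (derivative^[j] ((X - C x) ^ (n - 1) : ℂ[X])).eval (t : ℂ) := by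
    have h2 : ((X - C x) ^ (n - 1) : ℂ[X]) =
        ∑ i : Fin n, C (((n - 1).choose i : ℂ) * (-x) ^ (n - 1 - (i : ℕ))) * X ^ (i : ℕ) := by
      rw [sub_eq_add_neg, ← C_neg, add_pow, show n - 1 + 1 = n by omega,
        Finset.sum_range (fun i => (X : ℂ[X]) ^ i * C (-x) ^ (n - 1 - i) *
          (((n - 1).choose i : ℕ) : ℂ[X]))]
      refine Finset.sum_congr rfl fun i _ => ?_
      rw [C_mul, C_pow]
      simp only [map_natCast]
      ring
    rw [h2, iterate_derivative_sum, eval_finsetSum]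
    refine Finset.sum_congr rfl fun i _ => ?_
    rw [iterate_derivative_C_mul, eval_mul, eval_C]
  rw [h1, iterate_derivative_X_sub_pow]
  simp only [eval_mul, eval_pow, eval_sub, eval_X, eval_C, nsmul_eq_mul, eval_natCast]

/-- membership in the osculating hyperplane -/
lemma mem_osc {n : ℕ} (hn : 0 < n) (t : ℝ) (v : Fin n → ℂ) :
    v ∈ osc n t ↔ (fp n v).eval (t : ℂ) = 0 := by
  constructor
  · intro hv
    rw [osc] at hv
    induction hv using Submodule.span_induction with
    | mem x hx =>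
      obtain ⟨j, hj, rfl⟩ := hx
      rw [fp_iter hn, eval_mul, eval_pow, eval_sub, eval_C, eval_X, eval_C, sub_self,
        zero_pow (by omega), mul_zero]
    | zero => simp
    | add x y _ _ hx hy => rw [map_add, eval_add, hx, hy, add_zero]
    | smul a x _ hx => rw [map_smul, eval_smul, hx, smul_zero]
  · intro hv
    have h1 : fp n v ∈ (osc n t).map (fp n) := by
      set f := fp n v with hf
      have hdeg := fp_degree n v
      rw [← hf, mem_degreeLT] at hdeg
      rw [← Polynomial.sum_taylor_eq f (t : ℂ), Polynomial.sum_def]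
      refine Submodule.sum_mem _ fun e he => ?_
      by_cases he0 : e = 0
      · subst he0
        rw [taylor_coeff_zero, hv]
        simp
      · have hen : e < n := by
          by_contra h
          rw [mem_support_iff] at he
          apply he
          apply coeff_eq_zero_of_degree_lt
          rw [degree_taylor]
          exact hdeg.trans_le (by exact_mod_cast (not_lt.1 h))
        refine ⟨((taylor (t : ℂ) f).coeff e * (-1) ^ e / ((n - 1).descFactorial (n - 1 - e) : ℂ)) •
          iteratedDeriv (n - 1 - e) (gam n) t, ?_, ?_⟩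
        · apply Submodule.smul_mem
          exact Submodule.subset_span ⟨n - 1 - e, by omega, rfl⟩
        · rw [map_smul, fp_iter hn, show n - 1 - (n - 1 - e) = e by omega]
          have h2 : ((n - 1).descFactorial (n - 1 - e) : ℂ) ≠ 0 := by
            have : (n - 1).descFactorial (n - 1 - e) ≠ 0 := by
              rw [Ne, Nat.descFactorial_eq_zero_iff_lt]
              omega
            exact_mod_cast this
          have h3 : (C (t : ℂ) - X : ℂ[X]) ^ e = C ((-1) ^ e) * (X - C (t : ℂ)) ^ e := by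
            rw [← neg_sub, neg_pow, C_pow, C_neg, C_1]
          rw [h3, smul_eq_C_mul, ← mul_assoc, ← mul_assoc, ← C_mul, ← C_mul]
          congr 2
          rw [div_mul_cancel₀ _ h2, mul_assoc, ← mul_pow]
          norm_num
    obtain ⟨w, hw, hwv⟩ := h1
    rwa [← fp_injective n hwv]

/-- membership in a member of a cosecant flag -/
lemma mem_flag {n : ℕ} (hn : 0 < n) (s : Fin (n - 1) → ℝ) (j : ℕ) (v : Fin n → ℂ) :
    v ∈ (⨅ (i : Fin (n - 1)) (_ : (i : ℕ) < j), osc n (s i)) ↔
      ∀ i : Fin (n - 1), (i : ℕ) < j → (fp n v).eval (s i : ℂ) = 0 := by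
  simp only [Submodule.mem_iInf, mem_osc hn]

end

end Pool.CSC
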