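import Mathlib

/-! Schubert problems on Grassmannians and flags cosecant to the rational normal curve. -/

namespace Pool.CSC

open Module

noncomputable section

/-- the rational normal curve `γ(t) = (1, t, ..., t^(n-1))` -/
def gam (n : ℕ) (t : ℝ) : Fin n → ℂ := fun i => (t : ℂ) ^ (i : ℕ)

/-- the osculating hyperplane `H(t)`: the span of `γ(t), γ'(t), ..., γ^(n-2)(t)` -/
def osc (n : ℕ) (t : ℝ) : Submodule ℂ (Fin n → ℂ) :=
  Submodule.span ℂ {v | ∃ j : ℕ, j + 2 ≤ n ∧ v = iteratedDeriv j (gam n) t}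

/-- the flag with subspaces `F 0, F 1, ..., F n` is cosecant to `γ` along `I`: there are distinct
points `s` of `I` such that `F (n - j)` is the intersection of the first `j` of the hyperplanes
`H(s i)`, for `j = 0, ..., n - 1` -/
def Cosecant (n : ℕ) (I : Set ℝ) (F : ℕ → Submodule ℂ (Fin n → ℂ)) : Prop :=
  F 0 = ⊥ ∧ ∃ s : Fin (n - 1) → ℝ, Function.Injective s ∧ (∀ i, s i ∈ I) ∧
    ∀ j ≤ n - 1, F (n - j) = ⨅ (i : Fin (n - 1)) (_ : (i : ℕ) < j), osc n (s i)

/-- a Schubert problem on `G(k,n)`: `m` partitions `lam l 0 ≥ lam l 1 ≥ ...` with at most `k`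
parts, all parts at most `n - k`, of total size `k (n - k)` -/
structure IsProblem (k n m : ℕ) (lam : Fin m → Fin k → ℕ) : Prop where
  anti : ∀ l, Antitone (lam l)
  le : ∀ l i, lam l i ≤ n - k
  sum : ∑ l, ∑ i, lam l i = k * (n - k)

/-- the index `n - k + i - λ_i` (for `i` counted from `1`) -/
def sidx (k n : ℕ) (lam : Fin k → ℕ) (i : Fin k) : ℕ := n - k + ((i : ℕ) + 1) - lam i

/-- the Schubert variety `X_λ F` in `G(k,n)` -/
def schub (k n : ℕ) (lam : Fin k → ℕ) (F : ℕ → Submodule ℂ (Fin n → ℂ)) :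
    Set (Submodule ℂ (Fin n → ℂ)) :=
  {H | finrank ℂ H = k ∧ ∀ i : Fin k, (i : ℕ) + 1 ≤ finrank ℂ ↥(H ⊓ F (sidx k n lam i))}

/-- `φ`, an element of `Hom(H, V/H)`, the tangent space of the Grassmannian at `H`, lies in the
Zariski tangent space at `H` of the Schubert variety `X_λ F` -/
def TangentTo (k n : ℕ) (lam : Fin k → ℕ) (F : ℕ → Submodule ℂ (Fin n → ℂ))
    (H : Submodule ℂ (Fin n → ℂ)) (φ : ↥H →ₗ[ℂ] (Fin n → ℂ) ⧸ H) : Prop :=
  ∀ i : Fin k, finrank ℂ ↥(H ⊓ F (sidx k n lam i)) = (i : ℕ) + 1 →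
    ∀ x : ↥H, (x : Fin n → ℂ) ∈ F (sidx k n lam i) →
      φ x ∈ (F (sidx k n lam i)).map H.mkQ

/-- `H` is real, that is, invariant under complex conjugation -/
def IsReal (n : ℕ) (H : Submodule ℂ (Fin n → ℂ)) : Prop :=
  ∀ v ∈ H, (fun i => (starRingEnd ℂ) (v i)) ∈ H

/-- the flag of a matrix: its `j`th subspace is spanned by the first `j` rows -/
def flagOf (n : ℕ) (A : Matrix (Fin n) (Fin n) ℂ) (j : ℕ) : Submodule ℂ (Fin n → ℂ) :=
  Submodule.span ℂ {v | ∃ i : Fin n, (i : ℕ) < j ∧ v = A i}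

/-- `d` is the number of points of the intersection of the Schubert varieties for general flags:
for all complete flags outside the zero set of some nonzero polynomial -/
def IsGenericNumber (k n m : ℕ) (lam : Fin m → Fin k → ℕ) (d : ℕ) : Prop :=
  ∃ P : MvPolynomial (Fin m × Fin n × Fin n) ℂ, P ≠ 0 ∧
    ∀ A : Fin m → Matrix (Fin n) (Fin n) ℂ, (∀ l, (A l).det ≠ 0) →
      MvPolynomial.eval (fun x => A x.1 x.2.1 x.2.2) P ≠ 0 →
      (⋂ l, schub k n (lam l) (flagOf n (A l))).encard = d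

end

end Pool.CSC
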