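import Pool.Agent.Helper53.CSC.Gener

/-! The final theorem. -/

namespace Pool.CSC

open Module

noncomputable section

lemma exists_width {k n : ℕ} (hkn : k < n) {mu : Fin k → ℕ} (ha : Antitone mu)
    (h : ∀ i, mu i = 0 ∨ mu i = n - k) :
    ∃ r ≤ k, ∀ i : Fin k, mu i = if (i : ℕ) < r then n - k else 0 := by
  classical
  by_cases h0 : ∃ i, ∃ hi : i < k, mu ⟨i, hi⟩ = 0
  · refine ⟨Nat.find h0, ?_, ?_⟩
    · exact (Nat.find_spec h0).1.le
    · intro i
      split_ifs with hi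
      · rcases h i with h1 | h1
        · exact absurd ⟨i.2, h1⟩ (Nat.find_min h0 hi)
        · exact h1
      · obtain ⟨h2, h3⟩ := Nat.find_spec h0
        have h4 : mu i ≤ mu ⟨Nat.find h0, h2⟩ := ha (by
          rw [Fin.le_def]
          simp only
          omega)
        omega
  · push Not at h0
    refine ⟨k, le_rfl, fun i => ?_⟩
    rw [if_pos i.2]
    exact (h i).resolve_left (h0 i i.2)

/-- one partition only -/
lemma single_case {k n : ℕ} (hk : 1 ≤ k) (hkn : k < n) {mu : Fin k → ℕ}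
    (hmu : ∀ i, mu i = n - k) {F : ℕ → Submodule ℂ (Fin n → ℂ)} (hF : IsFlag n F) :
    schub k n mu F = {F k} ∧ ∀ φ : ↥(F k) →ₗ[ℂ] (Fin n → ℂ) ⧸ F k,
      TangentTo k n mu F (F k) φ → φ = 0 := by
  have hmu' : ∀ i : Fin k, mu i = if (i : ℕ) < k then n - k else 0 := fun i => by
    rw [if_pos i.2, hmu]
  constructor
  · ext H
    rw [Set.mem_singleton_iff]
    constructor
    · rintro ⟨h1, h2⟩
      rw [rect_iff hkn le_rfl hmu' hF h1] at h2
      symm
      apply Submodule.eq_of_le_of_finrank_le h2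
      rw [h1, hF.dim k hkn.le]
    · rintro rfl
      have h1 := hF.dim k hkn.le
      exact ⟨h1, (rect_iff hkn le_rfl hmu' hF h1).2 le_rfl⟩
  · intro φ hφ
    have h2 : sidx k n mu ⟨k - 1, by omega⟩ = k := by
      rw [sidx, hmu]
      simp only
      omega
    ext x
    have h3 := hφ ⟨k - 1, by omega⟩ (by
      rw [h2, inf_idem, hF.dim k hkn.le]
      simp only
      omega) x (by rw [h2]; exact x.2)
    rw [h2] at h3
    obtain ⟨u, hu, hu'⟩ := h3
    rw [LinearMap.zero_apply, ← hu', ← LinearMap.mem_ker, Submodule.ker_mkQ]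
    exact hu

theorem main_two (k n m : ℕ) (hk : 1 ≤ k) (hkn : k < n) (lam : Fin m → Fin k → ℕ)
    (hlam : IsProblem k n m lam) (l₁ l₂ : Fin m)
    (hrect : ∀ l, l ≠ l₁ → l ≠ l₂ → ∀ i, lam l i = 0 ∨ lam l i = n - k) (hne : l₁ ≠ l₂) :
    ∃ d ≤ 1, (∀ d', IsGenericNumber k n m lam d' ↔ d' = d) ∧
      ∀ (I : Fin m → Set ℝ) (F : Fin m → ℕ → Submodule ℂ (Fin n → ℂ)),
        (∀ l, (I l).OrdConnected) → Pairwise (fun l l' => Disjoint (I l) (I l')) →
        (∀ l, Cosecant n (I l) (F l)) →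
        (⋂ l, schub k n (lam l) (F l)).encard = d ∧
          ∀ H ∈ ⋂ l, schub k n (lam l) (F l), IsReal n H ∧
            ∀ φ : ↥H →ₗ[ℂ] (Fin n → ℂ) ⧸ H,
              (∀ l, TangentTo k n (lam l) (F l) H φ) → φ = 0 := by
  have hr : ∀ l, ∃ r ≤ k, l ≠ l₁ → l ≠ l₂ →
      ∀ i : Fin k, lam l i = if (i : ℕ) < r then n - k else 0 := by
    intro l
    by_cases h : l ≠ l₁ ∧ l ≠ l₂
    · obtain ⟨r, h1, h2⟩ := exists_width hkn (hlam.anti l) (hrect l h.1 h.2)
      exact ⟨r, h1, fun _ _ => h2⟩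
    · exact ⟨0, Nat.zero_le _, fun h1 h2 => absurd ⟨h1, h2⟩ h⟩
  choose r hrk hr using hr
  have hR : Red k n m lam r l₁ l₂ := ⟨hk, hkn, hne, hlam, hrk, hr⟩
  refine ⟨dnum n k (∑ l ∈ oth l₁ l₂, r l) (ex (lam l₁)) (ex (lam l₂)), ?_, ?_, ?_⟩
  · rw [dnum]
    split_ifs <;> omega
  · intro d'
    constructor
    · intro h
      exact generic_unique h (generic_dnum hR)
    · rintro rfl
      exact generic_dnum hR
  · intro I F hI hd hF
    have hP : Posn n m F r l₁ l₂ := posn_cosecant (by omega) I hI hd F hF r hne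
    refine ⟨encard_inter hR hP, fun H hH => ⟨?_, fun φ hφ => transverse_inter hR hP hH φ hφ⟩⟩
    exact isReal_inter hR hP (fun l j hj => isReal_cosecant (by omega) (hF l) hj) hH

end

end Pool.CSC
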