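import Pool.Agent.Helper53.CSC.RecP

/-! The three term identity for blocks. -/

namespace Pool.CSC

open Polynomial ExteriorAlgebra Matrix

noncomputable section

/-- two vectors pulled to the front -/
lemma pull2 (Z1 Z2 : List ℝ[X]) (u v : ℝ[X]) (T : ExteriorAlgebra ℝ ℝ[X]) :
    W Z1 * (ι ℝ u * (W Z2 * (ι ℝ v * T))) =
      ((-1 : ℝ) ^ Z1.length * (-1) ^ (Z1.length + Z2.length)) •
        (ι ℝ u * (ι ℝ v * (W (Z1 ++ Z2) * T))) := by
  have h1 : W Z1 * (ι ℝ u * (W Z2 * (ι ℝ v * T))) =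
      ((-1 : ℝ) ^ Z1.length) • (ι ℝ u * (W (Z1 ++ Z2) * (ι ℝ v * T))) := by
    rw [W_mul_ι, W_append, mul_assoc]
  rw [h1, W_mul_ι, List.length_append, mul_smul_comm, smul_smul]

/-- A configuration of blocks: `i` before `k`, `h` right after `k`. -/
theorem ident_before {n : ℕ} (P1 P2 P3 : List ℝ[X]) (ρ κ η : ℕ) (gi gk gh : ℝ[X])
    (t s s' b : ℝ)
    (hn : n = P1.length + ρ + P2.length + κ + η + P3.length + 2) :
    vol n (W P1 * (blk ((X - C t) * gi) ρ * (W P2 * (blk ((X - C s) * gk) (κ + 1) *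
        (blk gh (η + 1) * W P3))))) *
      vol n (W P1 * (blk gi (ρ + 1) * (W P2 * (blk ((X - C s') * gk) (κ + 1) *
        (blk ((X - C b) * gh) η * W P3))))) =
    vol n (W P1 * (blk ((X - C t) * gi) ρ * (W P2 * (blk ((X - C s') * gk) (κ + 1) *
        (blk gh (η + 1) * W P3))))) *
      vol n (W P1 * (blk gi (ρ + 1) * (W P2 * (blk ((X - C s) * gk) (κ + 1) *
        (blk ((X - C b) * gh) η * W P3))))) +
    (s' - s) *
      (vol n (W P1 * (blk ((X - C t) * gi) ρ * (W P2 * (blk gk (κ + 2) *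
        (blk ((X - C b) * gh) η * W P3))))) *
      vol n (W P1 * (blk gi (ρ + 1) * (W P2 * (blk ((X - C s) * ((X - C s') * gk)) κ *
        (blk gh (η + 1) * W P3)))))) := by
  set I' := bl ((X - C t) * gi) ρ with hI
  set K' := bl ((X - C s) * ((X - C s') * gk)) κ with hK
  set J' := bl ((X - C b) * gh) η with hJ
  set A := P1 ++ I' ++ P2 ++ K' ++ J' ++ P3 with hA
  have hAl : n = A.length + 2 := by
    simp only [hA, hI, hK, hJ, hn, List.length_append, bl_length]
  set a := (X - C s) * gk with ha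
  set a' := (X - C s') * gk with ha'
  have hbi : blk gi (ρ + 1) = ι ℝ gi * W I' := blk_succ' gi t ρ
  have hbi' : blk ((X - C t) * gi) ρ = W I' := rfl
  have hba : blk a (κ + 1) = ι ℝ a * W K' := by
    rw [ha, blk_succ' _ s' κ]
    congr 1
    show blk _ κ = blk _ κ
    congr 1
    ring
  have hba' : blk a' (κ + 1) = ι ℝ a' * W K' := by
    rw [ha', blk_succ' _ s κ]
    rfl
  have hbk : blk ((X - C s) * ((X - C s') * gk)) κ = W K' := rfl
  have hbh : blk gh (η + 1) = ι ℝ gh * W J' := blk_succ' gh b η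
  have hbh' : blk ((X - C b) * gh) η = W J' := rfl
  have hbk2 : (s' - s) • blk gk (κ + 2) = ι ℝ a * (ι ℝ a' * W K') := by
    rw [← ι_ι_blk]
    rfl
  -- brackets
  let br : ℝ[X] → ℝ[X] → ℝ := fun u v => vol n (ι ℝ u * (ι ℝ v * W A))
  have key : br a a' * br gi gh = br a gi * br a' gh - br a gh * br a' gi :=
    three_term A hAl _ _ _ _
  have hswap : ∀ u v, br u v = - br v u := by
    intro u v
    show vol n (ι ℝ u * (ι ℝ v * W A)) = - vol n (ι ℝ v * (ι ℝ u * W A))
    rw [← mul_assoc, ι_anti u v, neg_mul, map_neg, mul_assoc]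
  have hAW : W A = W P1 * (W I' * (W P2 * (W K' * (W J' * W P3)))) := by
    simp [hA, W_append]
  set e1 : ℝ := (-1) ^ P1.length with he1
  set e2 : ℝ := (-1) ^ (P1.length + ρ + P2.length) with he2
  set e3 : ℝ := (-1) ^ κ with he3
  have e1s : e1 * e1 = 1 := by rw [he1, ← pow_add, Even.neg_one_pow ⟨_, rfl⟩]
  have e2s : e2 * e2 = 1 := by rw [he2, ← pow_add, Even.neg_one_pow ⟨_, rfl⟩]
  have e3s : e3 * e3 = 1 := by rw [he3, ← pow_add, Even.neg_one_pow ⟨_, rfl⟩]
  -- D
  have hD : ∀ u, vol n (W P1 * ((ι ℝ gi * W I') * (W P2 * ((ι ℝ u * W K') * (W J' * W P3))))) =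
      e1 * e2 * br gi u := by
    intro u
    have h := pull2 P1 (I' ++ P2) gi u (W K' * (W J' * W P3))
    have h' : W P1 * ((ι ℝ gi * W I') * (W P2 * ((ι ℝ u * W K') * (W J' * W P3)))) =
        W P1 * (ι ℝ gi * (W (I' ++ P2) * (ι ℝ u * (W K' * (W J' * W P3))))) := by
      simp only [W_append, mul_assoc]
    rw [h', h, map_smul, smul_eq_mul]
    have hl : P1.length + (I' ++ P2).length = P1.length + ρ + P2.length := by
      simp [hI, add_assoc]
    rw [hl]
    congr 1
    show _ = vol n (ι ℝ gi * (ι ℝ u * W A))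
    rw [hAW]
    simp only [W_append, mul_assoc]
  have hE : ∀ u, vol n (W P1 * (W I' * (W P2 * ((ι ℝ u * W K') * ((ι ℝ gh * W J') * W P3))))) =
      e3 * br u gh := by
    intro u
    have h := pull2 (P1 ++ I' ++ P2) K' u gh (W J' * W P3)
    have h' : W P1 * (W I' * (W P2 * ((ι ℝ u * W K') * ((ι ℝ gh * W J') * W P3)))) =
        W (P1 ++ I' ++ P2) * (ι ℝ u * (W K' * (ι ℝ gh * (W J' * W P3)))) := by
      simp only [W_append, mul_assoc]
    rw [h', h, map_smul, smul_eq_mul]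
    have hl : (P1 ++ I' ++ P2).length = P1.length + ρ + P2.length := by
      simp [hI, add_assoc]
    have hl2 : K'.length = κ := by simp [hK]
    rw [hl, hl2, pow_add (-1 : ℝ) (P1.length + ρ + P2.length) κ, ← he2, ← he3, ← mul_assoc, e2s,
      one_mul]
    congr 1
    show _ = vol n (ι ℝ u * (ι ℝ gh * W A))
    rw [hAW]
    simp only [W_append, mul_assoc]
  have hX : (s' - s) * vol n (W P1 * (W I' * (W P2 * (blk gk (κ + 2) * (W J' * W P3))))) =
      br a a' := by
    have h0 : (s' - s) • (W P1 * (W I' * (W P2 * (blk gk (κ + 2) * (W J' * W P3))))) =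
        W P1 * (W I' * (W P2 * (((s' - s) • blk gk (κ + 2)) * (W J' * W P3)))) := by
      simp only [mul_smul_comm, smul_mul_assoc]
    rw [← smul_eq_mul, ← map_smul, h0, hbk2]
    have h := pull2 (P1 ++ I' ++ P2) [] a a' (W K' * (W J' * W P3))
    have h' : W P1 * (W I' * (W P2 * ((ι ℝ a * (ι ℝ a' * W K')) * (W J' * W P3)))) =
        W (P1 ++ I' ++ P2) * (ι ℝ a * (W [] * (ι ℝ a' * (W K' * (W J' * W P3))))) := by
      simp only [W_append, W_nil, one_mul, mul_assoc]
    rw [h', h, map_smul, smul_eq_mul, List.length_nil, add_zero, ← pow_add,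
      Even.neg_one_pow ⟨_, rfl⟩, one_mul]
    show _ = vol n (ι ℝ a * (ι ℝ a' * W A))
    rw [hAW]
    simp only [W_append, W_nil, mul_one, mul_assoc]
  have hY : vol n (W P1 * ((ι ℝ gi * W I') * (W P2 * (W K' * ((ι ℝ gh * W J') * W P3))))) =
      e1 * (e2 * e3) * br gi gh := by
    have h := pull2 P1 (I' ++ P2 ++ K') gi gh (W J' * W P3)
    have h' : W P1 * ((ι ℝ gi * W I') * (W P2 * (W K' * ((ι ℝ gh * W J') * W P3)))) =
        W P1 * (ι ℝ gi * (W (I' ++ P2 ++ K') * (ι ℝ gh * (W J' * W P3)))) := by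
      simp only [W_append, mul_assoc]
    rw [h', h, map_smul, smul_eq_mul]
    have hl : P1.length + (I' ++ P2 ++ K').length = P1.length + ρ + P2.length + κ := by
      simp [hI, hK, add_assoc]
    rw [hl, pow_add (-1 : ℝ) (P1.length + ρ + P2.length) κ]
    congr 1
    show _ = vol n (ι ℝ gi * (ι ℝ gh * W A))
    rw [hAW]
    simp only [W_append, mul_assoc]
  rw [hbi, hbi', hba, hba', hbk, hbh, hbh', hD, hD, hE, hE, hY]
  have hX' := hX
  rw [hswap a gi, hswap a' gi] at key
  have hfin : (s' - s) * (vol n (W P1 * (W I' * (W P2 * (blk gk (κ + 2) * (W J' * W P3))))) *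
      (e1 * (e2 * e3) * br gi gh)) = br a a' * (e1 * (e2 * e3) * br gi gh) := by
    rw [← hX]
    ring
  rw [hfin]
  linear_combination (-(e1 * e2 * e3)) * key

/-- A configuration of blocks: `h` right after `k`, `i` later. -/
theorem ident_after {n : ℕ} (P1 P2 P3 : List ℝ[X]) (ρ κ η : ℕ) (gi gk gh : ℝ[X])
    (t s s' b : ℝ)
    (hn : n = P1.length + κ + η + P2.length + ρ + P3.length + 2) :
    vol n (W P1 * (blk ((X - C s) * gk) (κ + 1) * (blk gh (η + 1) * (W P2 *
        (blk ((X - C t) * gi) ρ * W P3))))) *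
      vol n (W P1 * (blk ((X - C s') * gk) (κ + 1) * (blk ((X - C b) * gh) η * (W P2 *
        (blk gi (ρ + 1) * W P3))))) =
    vol n (W P1 * (blk ((X - C s') * gk) (κ + 1) * (blk gh (η + 1) * (W P2 *
        (blk ((X - C t) * gi) ρ * W P3))))) *
      vol n (W P1 * (blk ((X - C s) * gk) (κ + 1) * (blk ((X - C b) * gh) η * (W P2 *
        (blk gi (ρ + 1) * W P3))))) +
    (s' - s) *
      (vol n (W P1 * (blk gk (κ + 2) * (blk ((X - C b) * gh) η * (W P2 *
        (blk ((X - C t) * gi) ρ * W P3))))) *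
      vol n (W P1 * (blk ((X - C s) * ((X - C s') * gk)) κ * (blk gh (η + 1) * (W P2 *
        (blk gi (ρ + 1) * W P3)))))) := by
  set I' := bl ((X - C t) * gi) ρ with hI
  set K' := bl ((X - C s) * ((X - C s') * gk)) κ with hK
  set J' := bl ((X - C b) * gh) η with hJ
  set A := P1 ++ K' ++ J' ++ P2 ++ I' ++ P3 with hA
  have hAl : n = A.length + 2 := by
    simp only [hA, hI, hK, hJ, hn, List.length_append, bl_length]
  set a := (X - C s) * gk with ha
  set a' := (X - C s') * gk with ha'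
  have hbi : blk gi (ρ + 1) = ι ℝ gi * W I' := blk_succ' gi t ρ
  have hbi' : blk ((X - C t) * gi) ρ = W I' := rfl
  have hba : blk a (κ + 1) = ι ℝ a * W K' := by
    rw [ha, blk_succ' _ s' κ]
    congr 1
    show blk _ κ = blk _ κ
    congr 1
    ring
  have hba' : blk a' (κ + 1) = ι ℝ a' * W K' := by
    rw [ha', blk_succ' _ s κ]
    rfl
  have hbk : blk ((X - C s) * ((X - C s') * gk)) κ = W K' := rfl
  have hbh : blk gh (η + 1) = ι ℝ gh * W J' := blk_succ' gh b η
  have hbh' : blk ((X - C b) * gh) η = W J' := rfl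
  have hbk2 : (s' - s) • blk gk (κ + 2) = ι ℝ a * (ι ℝ a' * W K') := by
    rw [← ι_ι_blk]
    rfl
  let br : ℝ[X] → ℝ[X] → ℝ := fun u v => vol n (ι ℝ u * (ι ℝ v * W A))
  have key : br a a' * br gi gh = br a gi * br a' gh - br a gh * br a' gi :=
    three_term A hAl _ _ _ _
  have hswap : ∀ u v, br u v = - br v u := by
    intro u v
    show vol n (ι ℝ u * (ι ℝ v * W A)) = - vol n (ι ℝ v * (ι ℝ u * W A))
    rw [← mul_assoc, ι_anti u v, neg_mul, map_neg, mul_assoc]
  have hAW : W A = W P1 * (W K' * (W J' * (W P2 * (W I' * W P3)))) := by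
    simp [hA, W_append]
  set e1 : ℝ := (-1) ^ P1.length with he1
  set e2 : ℝ := (-1) ^ (P1.length + κ + η + P2.length) with he2
  set e3 : ℝ := (-1) ^ κ with he3
  have e1s : e1 * e1 = 1 := by rw [he1, ← pow_add, Even.neg_one_pow ⟨_, rfl⟩]
  have e2s : e2 * e2 = 1 := by rw [he2, ← pow_add, Even.neg_one_pow ⟨_, rfl⟩]
  have e3s : e3 * e3 = 1 := by rw [he3, ← pow_add, Even.neg_one_pow ⟨_, rfl⟩]
  have hD : ∀ u, vol n (W P1 * ((ι ℝ u * W K') * (W J' * (W P2 * ((ι ℝ gi * W I') * W P3))))) =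
      e1 * e2 * br u gi := by
    intro u
    have h := pull2 P1 (K' ++ J' ++ P2) u gi (W I' * W P3)
    have h' : W P1 * ((ι ℝ u * W K') * (W J' * (W P2 * ((ι ℝ gi * W I') * W P3)))) =
        W P1 * (ι ℝ u * (W (K' ++ J' ++ P2) * (ι ℝ gi * (W I' * W P3)))) := by
      simp only [W_append, mul_assoc]
    rw [h', h, map_smul, smul_eq_mul]
    have hl : P1.length + (K' ++ J' ++ P2).length = P1.length + κ + η + P2.length := by
      simp [hK, hJ, add_assoc]
    rw [hl]
    congr 1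
    show _ = vol n (ι ℝ u * (ι ℝ gi * W A))
    rw [hAW]
    simp only [W_append, mul_assoc]
  have hE : ∀ u, vol n (W P1 * ((ι ℝ u * W K') * ((ι ℝ gh * W J') * (W P2 * (W I' * W P3))))) =
      e3 * br u gh := by
    intro u
    have h := pull2 P1 K' u gh (W J' * (W P2 * (W I' * W P3)))
    have h' : W P1 * ((ι ℝ u * W K') * ((ι ℝ gh * W J') * (W P2 * (W I' * W P3)))) =
        W P1 * (ι ℝ u * (W K' * (ι ℝ gh * (W J' * (W P2 * (W I' * W P3)))))) := by
      simp only [mul_assoc]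
    rw [h', h, map_smul, smul_eq_mul]
    have hl2 : K'.length = κ := by simp [hK]
    rw [hl2, pow_add (-1 : ℝ) P1.length κ, ← he1, ← he3, ← mul_assoc, e1s, one_mul]
    congr 1
    show _ = vol n (ι ℝ u * (ι ℝ gh * W A))
    rw [hAW]
    simp only [W_append, mul_assoc]
  have hX : (s' - s) * vol n (W P1 * (blk gk (κ + 2) * (W J' * (W P2 * (W I' * W P3))))) =
      br a a' := by
    have h0 : (s' - s) • (W P1 * (blk gk (κ + 2) * (W J' * (W P2 * (W I' * W P3))))) =
        W P1 * (((s' - s) • blk gk (κ + 2)) * (W J' * (W P2 * (W I' * W P3)))) := by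
      simp only [mul_smul_comm, smul_mul_assoc]
    rw [← smul_eq_mul, ← map_smul, h0, hbk2]
    have h := pull2 P1 [] a a' (W K' * (W J' * (W P2 * (W I' * W P3))))
    have h' : W P1 * ((ι ℝ a * (ι ℝ a' * W K')) * (W J' * (W P2 * (W I' * W P3)))) =
        W P1 * (ι ℝ a * (W [] * (ι ℝ a' * (W K' * (W J' * (W P2 * (W I' * W P3))))))) := by
      simp only [W_nil, one_mul, mul_assoc]
    rw [h', h, map_smul, smul_eq_mul, List.length_nil, add_zero, ← pow_add,
      Even.neg_one_pow ⟨_, rfl⟩, one_mul]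
    show _ = vol n (ι ℝ a * (ι ℝ a' * W A))
    rw [hAW]
    simp only [W_append, W_nil, mul_one]
  have hY : vol n (W P1 * (W K' * ((ι ℝ gh * W J') * (W P2 * ((ι ℝ gi * W I') * W P3))))) =
      e1 * e3 * e2 * br gh gi := by
    have h := pull2 (P1 ++ K') (J' ++ P2) gh gi (W I' * W P3)
    have h' : W P1 * (W K' * ((ι ℝ gh * W J') * (W P2 * ((ι ℝ gi * W I') * W P3)))) =
        W (P1 ++ K') * (ι ℝ gh * (W (J' ++ P2) * (ι ℝ gi * (W I' * W P3)))) := by
      simp only [W_append, mul_assoc]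
    rw [h', h, map_smul, smul_eq_mul]
    have hl : (P1 ++ K').length + (J' ++ P2).length = P1.length + κ + η + P2.length := by
      simp [hK, hJ]
      ring
    have hl2 : (P1 ++ K').length = P1.length + κ := by simp [hK]
    rw [hl, hl2, pow_add (-1 : ℝ) P1.length κ]
    congr 1
    show _ = vol n (ι ℝ gh * (ι ℝ gi * W A))
    rw [hAW]
    simp only [W_append, mul_assoc]
  rw [hbi, hbi', hba, hba', hbk, hbh, hbh', hD, hD, hE, hE, hY]
  rw [hswap gi gh] at key
  have hfin : (s' - s) * (vol n (W P1 * (blk gk (κ + 2) * (W J' * (W P2 * (W I' * W P3))))) *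
      (e1 * e3 * e2 * br gh gi)) = br a a' * (e1 * e3 * e2 * br gh gi) := by
    rw [← hX]
    ring
  rw [hfin]
  linear_combination (e1 * e2 * e3) * key

end

end Pool.CSC
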