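import Pool.Agent.Helper53.CSC.Conf

/-! Positivity of the volume of every separated configuration. -/

namespace Pool.CSC

open Polynomial ExteriorAlgebra Matrix

noncomputable section

/-- separated configurations -/
structure Good (n : ℕ) (Ls : List Grp) : Prop where
  pw : Ls.Pairwise (fun G H => G.a < H.a ∧ ∀ s ∈ G.S, s < H.a)
  fr : ∀ G ∈ Ls, ∀ s ∈ G.S, G.a < s
  sm : (Ls.map Grp.r).sum = n
  le : ∀ G ∈ Ls, G.r + G.S.length ≤ n
  lf : ∀ P K, Ls = P ++ [K] → K.S = []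

/-- number of free roots -/
def tot (Ls : List Grp) : ℕ := (Ls.map fun G => G.S.length).sum

def rel (G G' : Grp) : Prop := G.a = G'.a ∧ ∀ s ∈ G.S, s ∈ G'.S

lemma rel_refl (G : Grp) : rel G G := ⟨rfl, fun _ h => h⟩

lemma relL_refl (Ls : List Grp) : List.Forall₂ rel Ls Ls := by
  induction Ls with
  | nil => exact List.Forall₂.nil
  | cons G Ls ih => exact List.Forall₂.cons (rel_refl G) ih

lemma relL_mem {Ls' Ls : List Grp} (h : List.Forall₂ rel Ls' Ls) :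
    ∀ G ∈ Ls', ∃ G' ∈ Ls, rel G G' := by
  induction h with
  | nil => simp
  | @cons G G' l l' h1 h2 ih =>
    intro K hK
    rw [List.mem_cons] at hK
    rcases hK with rfl | hK
    · exact ⟨G', by simp, h1⟩
    · obtain ⟨K', hK', h⟩ := ih K hK
      exact ⟨K', by simp [hK'], h⟩

lemma relL_pw {Ls' Ls : List Grp} (h : List.Forall₂ rel Ls' Ls)
    (hp : Ls.Pairwise (fun G H => G.a < H.a ∧ ∀ s ∈ G.S, s < H.a)) :
    Ls'.Pairwise (fun G H => G.a < H.a ∧ ∀ s ∈ G.S, s < H.a) := by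
  induction h with
  | nil => exact List.Pairwise.nil
  | @cons G G' l l' h1 h2 ih =>
    rw [List.pairwise_cons] at hp ⊢
    refine ⟨fun H hH => ?_, ih hp.2⟩
    obtain ⟨H', hH', hr⟩ := relL_mem h2 H hH
    obtain ⟨h3, h4⟩ := hp.1 H' hH'
    rw [h1.1, hr.1]
    exact ⟨h3, fun s hs => h4 s (h1.2 s hs)⟩

lemma relL_lf {Ls' Ls : List Grp} (h : List.Forall₂ rel Ls' Ls)
    (hl : ∀ P K, Ls = P ++ [K] → K.S = []) : ∀ P K, Ls' = P ++ [K] → K.S = [] := by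
  intro P K hP
  rcases List.eq_nil_or_concat' Ls with rfl | ⟨P', K', rfl⟩
  · rw [List.forall₂_nil_right_iff] at h
    rw [h] at hP
    simp at hP
  · have hK' := hl P' K' rfl
    have hlen := h.length_eq
    subst hP
    have h2 := List.forall₂_reverse_iff.2 h
    rw [List.reverse_append, List.reverse_append] at h2
    simp only [List.reverse_cons, List.reverse_nil, List.nil_append, List.cons_append,
      List.forall₂_cons] at h2
    rw [List.eq_nil_iff_forall_not_mem]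
    intro s hs
    have := h2.1.2 s hs
    rw [hK'] at this
    simp at this

lemma good_of_rel {n n' : ℕ} {Ls' Ls : List Grp} (hG : Good n Ls) (h : List.Forall₂ rel Ls' Ls)
    (hs : (Ls'.map Grp.r).sum = n') (hle : ∀ G ∈ Ls', G.r + G.S.length ≤ n') :
    Good n' Ls' where
  pw := relL_pw h hG.pw
  fr := fun G hG' s hs => by
    obtain ⟨G', hG'', hr⟩ := relL_mem h G hG'
    rw [hr.1]
    exact hG.fr G' hG'' s (hr.2 s hs)
  sm := hs
  le := hle
  lf := relL_lf h hG.lf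

/-- the last group with free roots -/
lemma exists_last (Ls : List Grp) (hl : ∀ P K, Ls = P ++ [K] → K.S = [])
    (h : ∃ G ∈ Ls, G.S ≠ []) :
    ∃ P K H Q, Ls = P ++ K :: H :: Q ∧ K.S ≠ [] ∧ ∀ G ∈ H :: Q, G.S = [] := by
  induction Ls with
  | nil => simp at h
  | cons G t ih =>
    by_cases ht : ∃ G ∈ t, G.S ≠ []
    · have hlt : ∀ P K, t = P ++ [K] → K.S = [] := by
        intro P K hP
        exact hl (G :: P) K (by simp [hP])
      obtain ⟨P, K, H, Q, h1, h2, h3⟩ := ih hlt ht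
      exact ⟨G :: P, K, H, Q, by simp [h1], h2, h3⟩
    · push Not at ht
      obtain ⟨K, hK, hKS⟩ := h
      rw [List.mem_cons] at hK
      rcases hK with rfl | hK
      · cases t with
        | nil => exact absurd (hl [] K rfl) hKS
        | cons H Q => exact ⟨[], K, H, Q, rfl, hKS, ht⟩
      · exact absurd (ht K hK) hKS

lemma gp_free {n : ℕ} (ak s' : ℝ) (S' : List ℝ) (r : ℕ) :
    gp n ⟨ak, s' :: S', r⟩ = (X - C s') * ((X - C ak) ^ (n - r - (S'.length + 1)) * fr S') := by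
  simp only [gp, fr_cons, List.length_cons]
  ring

lemma gp_base {n : ℕ} (ak : ℝ) (S' : List ℝ) (r : ℕ) (h : r + S'.length + 1 ≤ n) :
    gp n ⟨ak, S', r⟩ = (X - C ak) * ((X - C ak) ^ (n - r - (S'.length + 1)) * fr S') := by
  simp only [gp]
  have : n - r - S'.length = (n - r - (S'.length + 1)) + 1 := by omega
  rw [this, pow_succ]
  ring

theorem step_before {n : ℕ} (P1 P2 P3 : List Grp) (ai ak ah s' : ℝ) (Si S' : List ℝ)
    (ρ κ η : ℕ)
    (hs : (P1.map Grp.r).sum + ρ + (P2.map Grp.r).sum + κ + η + (P3.map Grp.r).sum + 2 = n)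
    (hi : ρ + 1 + Si.length ≤ n) (hk : κ + 1 + (S'.length + 1) ≤ n) :
    D n (P1 ++ ⟨ai, Si, ρ⟩ :: (P2 ++ ⟨ak, S', κ + 1⟩ :: ⟨ah, [], η + 1⟩ :: P3)) *
      D n (P1 ++ ⟨ai, Si, ρ + 1⟩ :: (P2 ++ ⟨ak, s' :: S', κ + 1⟩ :: ⟨ah, [], η⟩ :: P3)) =
    D n (P1 ++ ⟨ai, Si, ρ⟩ :: (P2 ++ ⟨ak, s' :: S', κ + 1⟩ :: ⟨ah, [], η + 1⟩ :: P3)) *
      D n (P1 ++ ⟨ai, Si, ρ + 1⟩ :: (P2 ++ ⟨ak, S', κ + 1⟩ :: ⟨ah, [], η⟩ :: P3)) +
    (s' - ak) *
      (D n (P1 ++ ⟨ai, Si, ρ⟩ :: (P2 ++ ⟨ak, S', κ + 2⟩ :: ⟨ah, [], η⟩ :: P3)) *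
      D n (P1 ++ ⟨ai, Si, ρ + 1⟩ :: (P2 ++ ⟨ak, s' :: S', κ⟩ :: ⟨ah, [], η + 1⟩ :: P3))) := by
  have hD : ∀ I K H : Grp, D n (P1 ++ I :: (P2 ++ K :: H :: P3)) =
      vol n (W (cat n P1) * (blk (gp n I) I.r * (W (cat n P2) * (blk (gp n K) K.r *
        (blk (gp n H) H.r * W (cat n P3)))))) := by
    intro I K H
    rw [D]
    simp only [cat_append, cat_cons, W_append]
    rfl
  set gi := gp n ⟨ai, Si, ρ + 1⟩ with hgi
  set gk : ℝ[X] := (X - C ak) ^ (n - (κ + 2) - S'.length) * fr S' with hgk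
  set gh := gp n ⟨ah, [], η + 1⟩ with hgh
  have e1 : gp n ⟨ai, Si, ρ⟩ = (X - C ai) * gi := by
    have h1 : n - ρ - (Si.length + 1) = n - (ρ + 1) - Si.length := by omega
    rw [gp_base _ _ _ (by omega), hgi, gp, h1]
  have e2 : gp n ⟨ak, S', κ + 1⟩ = (X - C ak) * gk := by
    have h1 : n - (κ + 1) - (S'.length + 1) = n - (κ + 2) - S'.length := by omega
    rw [gp_base _ _ _ (by omega), hgk, h1]
  have e3 : gp n ⟨ak, s' :: S', κ + 1⟩ = (X - C s') * gk := by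
    have h1 : n - (κ + 1) - (S'.length + 1) = n - (κ + 2) - S'.length := by omega
    rw [gp_free, hgk, h1]
  have e4 : gp n ⟨ak, S', κ + 2⟩ = gk := by
    rw [gp, hgk]
  have e5 : gp n ⟨ak, s' :: S', κ⟩ = (X - C ak) * ((X - C s') * gk) := by
    have h5 : n - κ - (S'.length + 1) = (n - (κ + 2) - S'.length) + 1 := by omega
    rw [gp_free, hgk, h5, pow_succ]
    ring
  have e6 : gp n ⟨ah, [], η⟩ = (X - C ah) * gh := by
    have h1 : n - η - (0 + 1) = n - (η + 1) - 0 := by omega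
    rw [gp_base _ _ _ (by simp only [List.length_nil]; omega), hgh, gp]
    simp only [List.length_nil, h1]
  have key := ident_before (n := n) (cat n P1) (cat n P2) (cat n P3) ρ κ η gi gk gh ai ak s' ah
    (by rw [cat_length, cat_length, cat_length]; omega)
  rw [hD, hD, hD, hD, hD, hD]
  simp only
  rw [e1, e2, e3, e4, e5, e6]
  exact key

theorem step_after {n : ℕ} (P1 P2 P3 : List Grp) (ai ak ah s' : ℝ) (Si S' : List ℝ)
    (ρ κ η : ℕ)
    (hs : (P1.map Grp.r).sum + κ + η + (P2.map Grp.r).sum + ρ + (P3.map Grp.r).sum + 2 = n)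
    (hi : ρ + 1 + Si.length ≤ n) (hk : κ + 1 + (S'.length + 1) ≤ n) :
    D n (P1 ++ ⟨ak, S', κ + 1⟩ :: ⟨ah, [], η + 1⟩ :: (P2 ++ ⟨ai, Si, ρ⟩ :: P3)) *
      D n (P1 ++ ⟨ak, s' :: S', κ + 1⟩ :: ⟨ah, [], η⟩ :: (P2 ++ ⟨ai, Si, ρ + 1⟩ :: P3)) =
    D n (P1 ++ ⟨ak, s' :: S', κ + 1⟩ :: ⟨ah, [], η + 1⟩ :: (P2 ++ ⟨ai, Si, ρ⟩ :: P3)) *
      D n (P1 ++ ⟨ak, S', κ + 1⟩ :: ⟨ah, [], η⟩ :: (P2 ++ ⟨ai, Si, ρ + 1⟩ :: P3)) +
    (s' - ak) *
      (D n (P1 ++ ⟨ak, S', κ + 2⟩ :: ⟨ah, [], η⟩ :: (P2 ++ ⟨ai, Si, ρ⟩ :: P3)) *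
      D n (P1 ++ ⟨ak, s' :: S', κ⟩ :: ⟨ah, [], η + 1⟩ :: (P2 ++ ⟨ai, Si, ρ + 1⟩ :: P3))) := by
  have hD : ∀ I K H : Grp, D n (P1 ++ K :: H :: (P2 ++ I :: P3)) =
      vol n (W (cat n P1) * (blk (gp n K) K.r * (blk (gp n H) H.r * (W (cat n P2) *
        (blk (gp n I) I.r * W (cat n P3)))))) := by
    intro I K H
    rw [D]
    simp only [cat_append, cat_cons, W_append]
    rfl
  set gi := gp n ⟨ai, Si, ρ + 1⟩ with hgi
  set gk : ℝ[X] := (X - C ak) ^ (n - (κ + 2) - S'.length) * fr S' with hgk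
  set gh := gp n ⟨ah, [], η + 1⟩ with hgh
  have e1 : gp n ⟨ai, Si, ρ⟩ = (X - C ai) * gi := by
    have h1 : n - ρ - (Si.length + 1) = n - (ρ + 1) - Si.length := by omega
    rw [gp_base _ _ _ (by omega), hgi, gp, h1]
  have e2 : gp n ⟨ak, S', κ + 1⟩ = (X - C ak) * gk := by
    have h1 : n - (κ + 1) - (S'.length + 1) = n - (κ + 2) - S'.length := by omega
    rw [gp_base _ _ _ (by omega), hgk, h1]
  have e3 : gp n ⟨ak, s' :: S', κ + 1⟩ = (X - C s') * gk := by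
    have h1 : n - (κ + 1) - (S'.length + 1) = n - (κ + 2) - S'.length := by omega
    rw [gp_free, hgk, h1]
  have e4 : gp n ⟨ak, S', κ + 2⟩ = gk := by
    rw [gp, hgk]
  have e5 : gp n ⟨ak, s' :: S', κ⟩ = (X - C ak) * ((X - C s') * gk) := by
    have h5 : n - κ - (S'.length + 1) = (n - (κ + 2) - S'.length) + 1 := by omega
    rw [gp_free, hgk, h5, pow_succ]
    ring
  have e6 : gp n ⟨ah, [], η⟩ = (X - C ah) * gh := by
    have h1 : n - η - (0 + 1) = n - (η + 1) - 0 := by omega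
    rw [gp_base _ _ _ (by simp only [List.length_nil]; omega), hgh, gp]
    simp only [List.length_nil, h1]
  have key := ident_after (n := n) (cat n P1) (cat n P2) (cat n P3) ρ κ η gi gk gh ai ak s' ah
    (by rw [cat_length, cat_length, cat_length]; omega)
  rw [hD, hD, hD, hD, hD, hD]
  simp only
  rw [e1, e2, e3, e4, e5, e6]
  exact key

/-- the last algebraic step -/
lemma pos_step {E D' E' D0 δ Xx Y : ℝ} (h : E * D' = E' * D0 + δ * (Xx * Y)) (hE : 0 < E)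
    (hE' : 0 < E') (hD : 0 < D0) (hδ : 0 < δ) (hX : 0 < Xx) (hY : 0 < Y) : 0 < D' := by
  have : 0 < E * D' := by
    rw [h]
    positivity
  exact pos_of_mul_pos_right this hE.le

end

end Pool.CSC
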