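import Pool.Agent.Helper53.CSC.Main

/-! The positivity theorem. -/

namespace Pool.CSC

open Polynomial ExteriorAlgebra Matrix

noncomputable section

lemma cat_zero (n : ℕ) (P : List Grp) (h : ∀ G ∈ P, G.r = 0) : cat n P = [] := by
  induction P with
  | nil => rfl
  | cons G P ih =>
    rw [cat_cons, ih fun G hG => h G (by simp [hG]), h G (by simp)]
    rfl

lemma sum_zero (P : List Grp) (h : ∀ G ∈ P, G.r = 0) : (P.map Grp.r).sum = 0 := by
  induction P with
  | nil => rfl
  | cons G P ih =>
    rw [List.map_cons, List.sum_cons, ih fun G hG => h G (by simp [hG]), h G (by simp)]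

lemma tot_append (P Q : List Grp) : tot (P ++ Q) = tot P + tot Q := by simp [tot]
lemma tot_cons (G : Grp) (Q : List Grp) : tot (G :: Q) = G.S.length + tot Q := by simp [tot]

lemma fr_eval_pos (S : List ℝ) (b : ℝ) (h : ∀ s ∈ S, s < b) : 0 < (fr S).eval b := by
  induction S with
  | nil => simp
  | cons s S ih =>
    rw [fr_cons, eval_mul]
    refine mul_pos ?_ (ih fun s hs => h s (by simp [hs]))
    simpa using h s (by simp)

lemma inner_step (n v : ℕ)
    (ih : ∀ m < v, ∀ (Ls : List Grp), tot Ls = m → Good n Ls → 0 < D n Ls) :
    ∀ (μ : ℕ) (P : List Grp) (K H : Grp) (Q : List Grp), n - H.r = μ →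
      tot (P ++ K :: H :: Q) = v → Good n (P ++ K :: H :: Q) → K.S ≠ [] →
      (∀ G ∈ H :: Q, G.S = []) → 0 < D n (P ++ K :: H :: Q) := by
  intro μ
  induction μ using Nat.strong_induction_on with
  | _ μ ih2 =>
    rintro P ⟨ak, SK, rk⟩ ⟨ah, SH, η⟩ Q hμ hv hG hKS hHQ
    simp only at hμ hKS
    have hSH : SH = [] := hHQ ⟨ah, SH, η⟩ (by simp)
    subst hSH
    obtain ⟨s', S', rfl⟩ : ∃ s' S', SK = s' :: S' := List.exists_cons_of_ne_nil hKS
    have hfr : ak < s' := hG.fr ⟨ak, s' :: S', rk⟩ (by simp) s' (by simp)
    have hsub : ∀ s ∈ S', s ∈ s' :: S' := fun s hs => by simp [hs]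
    have hleK := hG.le ⟨ak, s' :: S', rk⟩ (by simp)
    simp only [List.length_cons] at hleK
    have hleH := hG.le ⟨ah, [], η⟩ (by simp)
    simp only [List.length_nil, add_zero] at hleH
    have hsum := hG.sm
    simp only [List.map_append, List.map_cons, List.sum_append, List.sum_cons] at hsum
    rcases rk with _ | κ
    · -- the group has no block
      have hD : D n (P ++ ⟨ak, s' :: S', 0⟩ :: ⟨ah, [], η⟩ :: Q) =
          D n (P ++ ⟨ak, S', 0⟩ :: ⟨ah, [], η⟩ :: Q) := by
        rw [D, D]
        simp [bl]
      rw [hD]
      refine ih (v - 1) (by rw [tot_append, tot_cons, List.length_cons] at hv; omega) _ ?_ ?_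
      · rw [tot_append, tot_cons] at hv ⊢
        simp only [List.length_cons] at hv ⊢
        omega
      · refine good_of_rel hG (List.rel_append (relL_refl P)
          (List.Forall₂.cons ⟨rfl, hsub⟩ (relL_refl _))) ?_ ?_
        · simp only [List.map_append, List.map_cons, List.sum_append, List.sum_cons]
          omega
        · intro G hG'
          rw [List.mem_append, List.mem_cons] at hG'
          rcases hG' with h | rfl | h
          · exact hG.le G (by simp [h])
          · simp only
            omega
          · exact hG.le G (by
              rw [List.mem_append, List.mem_cons]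
              exact Or.inr (Or.inr h))
    · by_cases hP : ∃ I ∈ P, I.r ≠ 0
      · obtain ⟨⟨ai, Si, ri⟩, hI, hIr⟩ := hP
        simp only at hIr
        obtain ⟨ρ, rfl⟩ := Nat.exists_eq_succ_of_ne_zero hIr
        obtain ⟨P1, P2, rfl⟩ := List.append_of_mem hI
        have hleI := hG.le ⟨ai, Si, ρ + 1⟩ (by simp)
        simp only at hleI
        have hre : ∀ (I K H : Grp), (P1 ++ I :: P2) ++ K :: H :: Q =
            P1 ++ I :: (P2 ++ K :: H :: Q) := by
          intro I K H
          simp
        simp only [List.map_append, List.map_cons, List.sum_append, List.sum_cons] at hsum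
        have hgood : ∀ (ρ' : ℕ) (SK' : List ℝ) (κ' η' : ℕ), (∀ s ∈ SK', s ∈ s' :: S') →
            ρ' + κ' + η' = ρ + 1 + (κ + 1) + η → ρ' + Si.length ≤ n → κ' + SK'.length ≤ n →
            η' ≤ n →
            Good n (P1 ++ ⟨ai, Si, ρ'⟩ :: (P2 ++ ⟨ak, SK', κ'⟩ :: ⟨ah, [], η'⟩ :: Q)) := by
          intro ρ' SK' κ' η' h1 h2 h3 h4 h5
          rw [hre] at hG
          refine good_of_rel hG (List.rel_append (relL_refl P1)
            (List.Forall₂.cons ⟨rfl, fun _ h => h⟩ (List.rel_append (relL_refl P2)
              (List.Forall₂.cons ⟨rfl, h1⟩ (List.Forall₂.cons ⟨rfl, fun _ h => h⟩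
                (relL_refl _)))))) ?_ ?_
          · simp only [List.map_append, List.map_cons, List.sum_append, List.sum_cons]
            omega
          · intro G hG'
            simp only [List.mem_append, List.mem_cons] at hG'
            rcases hG' with h | rfl | h | rfl | rfl | h
            · exact hG.le G (by simp [h])
            · exact h3
            · exact hG.le G (by simp [h])
            · exact h4
            · simpa using h5
            · exact hG.le G (by simp [h])
        have htot : ∀ (ρ' : ℕ) (SK' : List ℝ) (κ' η' : ℕ),
            tot (P1 ++ ⟨ai, Si, ρ'⟩ :: (P2 ++ ⟨ak, SK', κ'⟩ :: ⟨ah, [], η'⟩ :: Q)) + S'.length + 1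
              = v + SK'.length := by
          intro ρ' SK' κ' η'
          rw [hre] at hv
          simp only [tot_append, tot_cons, List.length_cons, List.length_nil] at hv ⊢
          omega
        rw [hre]
        refine pos_step (step_before P1 P2 Q ai ak ah s' Si S' ρ κ η (by omega) (by omega)
          (by omega)) ?_ ?_ ?_ (sub_pos.2 hfr) ?_ ?_
        · refine ih _ ?_ _ rfl (hgood _ _ _ _ hsub (by omega) (by omega) (by omega) (by omega))
          have := htot ρ S' (κ + 1) (η + 1)
          omega
        · have h := ih2 (n - (η + 1)) (by omega) (P1 ++ ⟨ai, Si, ρ⟩ :: P2)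
            ⟨ak, s' :: S', κ + 1⟩ ⟨ah, [], η + 1⟩ Q rfl ?_ ?_ (by simp) ?_
          · rwa [hre] at h
          · rw [hre]
            have := htot ρ (s' :: S') (κ + 1) (η + 1)
            simp only [List.length_cons] at this
            omega
          · rw [hre]
            exact hgood _ _ _ _ (fun _ h => h) (by omega) (by omega) (by simp; omega) (by omega)
          · intro G hG'
            rw [List.mem_cons] at hG'
            rcases hG' with rfl | h
            · rfl
            · exact hHQ G (by simp [h])
        · refine ih _ ?_ _ rfl (hgood _ _ _ _ hsub (by omega) (by omega) (by omega) (by omega))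
          have := htot (ρ + 1) S' (κ + 1) η
          omega
        · refine ih _ ?_ _ rfl (hgood _ _ _ _ hsub (by omega) (by omega) (by omega) (by omega))
          have := htot ρ S' (κ + 2) η
          omega
        · have h := ih2 (n - (η + 1)) (by omega) (P1 ++ ⟨ai, Si, ρ + 1⟩ :: P2)
            ⟨ak, s' :: S', κ⟩ ⟨ah, [], η + 1⟩ Q rfl ?_ ?_ (by simp) ?_
          · rwa [hre] at h
          · rw [hre]
            have := htot (ρ + 1) (s' :: S') κ (η + 1)
            simp only [List.length_cons] at this
            omega
          · rw [hre]
            exact hgood _ _ _ _ (fun _ h => h) (by omega) (by omega) (by simp; omega) (by omega)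
          · intro G hG'
            rw [List.mem_cons] at hG'
            rcases hG' with rfl | h
            · rfl
            · exact hHQ G (by simp [h])
      · push Not at hP
        by_cases hQ : ∃ I ∈ Q, I.r ≠ 0
        · obtain ⟨⟨ai, Si, ri⟩, hI, hIr⟩ := hQ
          simp only at hIr
          obtain ⟨ρ, rfl⟩ := Nat.exists_eq_succ_of_ne_zero hIr
          obtain ⟨P2, P3, rfl⟩ := List.append_of_mem hI
          have hleI := hG.le ⟨ai, Si, ρ + 1⟩ (by simp)
          simp only at hleI
          simp only [List.map_append, List.map_cons, List.sum_append, List.sum_cons] at hsum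
          have hgood : ∀ (ρ' : ℕ) (SK' : List ℝ) (κ' η' : ℕ), (∀ s ∈ SK', s ∈ s' :: S') →
              ρ' + κ' + η' = ρ + 1 + (κ + 1) + η → ρ' + Si.length ≤ n → κ' + SK'.length ≤ n →
              η' ≤ n →
              Good n (P ++ ⟨ak, SK', κ'⟩ :: ⟨ah, [], η'⟩ :: (P2 ++ ⟨ai, Si, ρ'⟩ :: P3)) := by
            intro ρ' SK' κ' η' h1 h2 h3 h4 h5
            refine good_of_rel hG (List.rel_append (relL_refl P)
              (List.Forall₂.cons ⟨rfl, h1⟩ (List.Forall₂.cons ⟨rfl, fun _ h => h⟩
                (List.rel_append (relL_refl P2) (List.Forall₂.cons ⟨rfl, fun _ h => h⟩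
                  (relL_refl _)))))) ?_ ?_
            · simp only [List.map_append, List.map_cons, List.sum_append, List.sum_cons]
              omega
            · intro G hG'
              simp only [List.mem_append, List.mem_cons] at hG'
              rcases hG' with h | rfl | rfl | h | rfl | h
              · exact hG.le G (by simp [h])
              · exact h4
              · simpa using h5
              · exact hG.le G (by simp [h])
              · exact h3
              · exact hG.le G (by simp [h])
          have htot : ∀ (ρ' : ℕ) (SK' : List ℝ) (κ' η' : ℕ),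
              tot (P ++ ⟨ak, SK', κ'⟩ :: ⟨ah, [], η'⟩ :: (P2 ++ ⟨ai, Si, ρ'⟩ :: P3)) +
                S'.length + 1 = v + SK'.length := by
            intro ρ' SK' κ' η'
            simp only [tot_append, tot_cons, List.length_cons, List.length_nil] at hv ⊢
            omega
          have hno : ∀ (ρ' η' : ℕ), ∀ G ∈ (⟨ah, [], η'⟩ : Grp) :: (P2 ++ ⟨ai, Si, ρ'⟩ :: P3),
              G.S = [] := by
            intro ρ' η' G hG'
            simp only [List.mem_append, List.mem_cons] at hG'
            rcases hG' with rfl | h | rfl | h
            · rfl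
            · exact hHQ G (by simp [h])
            · exact hHQ ⟨ai, Si, ρ + 1⟩ (by simp)
            · exact hHQ G (by simp [h])
          refine pos_step (step_after P P2 P3 ai ak ah s' Si S' ρ κ η (by omega) (by omega)
            (by omega)) ?_ ?_ ?_ (sub_pos.2 hfr) ?_ ?_
          · refine ih _ ?_ _ rfl (hgood _ _ _ _ hsub (by omega) (by omega) (by omega) (by omega))
            have := htot ρ S' (κ + 1) (η + 1)
            omega
          · refine ih2 (n - (η + 1)) (by omega) P ⟨ak, s' :: S', κ + 1⟩ ⟨ah, [], η + 1⟩ _ rfl ?_
              (hgood _ _ _ _ (fun _ h => h) (by omega) (by omega) (by simp; omega) (by omega))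
              (by simp) (hno _ _)
            have := htot ρ (s' :: S') (κ + 1) (η + 1)
            simp only [List.length_cons] at this
            omega
          · refine ih _ ?_ _ rfl (hgood _ _ _ _ hsub (by omega) (by omega) (by omega) (by omega))
            have := htot (ρ + 1) S' (κ + 1) η
            omega
          · refine ih _ ?_ _ rfl (hgood _ _ _ _ hsub (by omega) (by omega) (by omega) (by omega))
            have := htot ρ S' (κ + 2) η
            omega
          · refine ih2 (n - (η + 1)) (by omega) P ⟨ak, s' :: S', κ⟩ ⟨ah, [], η + 1⟩ _ rfl ?_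
              (hgood _ _ _ _ (fun _ h => h) (by omega) (by omega) (by simp; omega) (by omega))
              (by simp) (hno _ _)
            have := htot (ρ + 1) (s' :: S') κ (η + 1)
            simp only [List.length_cons] at this
            omega
        · -- only two blocks
          push Not at hQ
          have hsP := sum_zero P hP
          have hsQ := sum_zero Q hQ
          have hn : n = (κ + 1) + η := by omega
          rw [D, cat_append, cat_cons, cat_cons, cat_zero n P hP, cat_zero n Q hQ,
            List.nil_append, List.append_nil, W_append]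
          simp only
          have hpw := hG.pw
          rw [List.pairwise_append] at hpw
          have hpw2 := (List.pairwise_cons.1 hpw.2.1).1 ⟨ah, [], η⟩ (by simp)
          simp only at hpw2
          have e1 : gp n ⟨ah, [], η⟩ = (X - C ah) ^ (κ + 1) := by
            rw [gp]
            simp only [fr_nil, mul_one, List.length_nil]
            congr 1
            omega
          have h := two_block (κ + 1) η (gp n ⟨ak, s' :: S', κ + 1⟩) ah (by
            have := gp_natDegree (n := n) (G := ⟨ak, s' :: S', κ + 1⟩) (by simp; omega)
            simp only at this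
            omega) (by
            rw [gp, eval_mul, eval_pow]
            refine mul_pos (pow_pos ?_ _) (fr_eval_pos _ _ hpw2.2)
            simpa using hpw2.1)
          rw [e1, hn]
          rw [hn] at h
          exact h

/-- the volume of every separated configuration is positive -/
theorem main_pos (n : ℕ) : ∀ (v : ℕ) (Ls : List Grp), tot Ls = v → Good n Ls → 0 < D n Ls := by
  intro v
  induction v using Nat.strong_induction_on with
  | _ v ih =>
    intro Ls hv hG
    by_cases hfree : ∃ G ∈ Ls, G.S ≠ []
    · obtain ⟨P, K, H, Q, rfl, hK, hQ⟩ := exists_last Ls hG.lf hfree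
      exact inner_step n v ih _ P K H Q rfl hv hG hK hQ
    · push Not at hfree
      refine base_conf _ n Ls rfl ?_ hfree hG.sm
      exact hG.pw.imp fun h => h.1

end

end Pool.CSC
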