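import Pool.Agent.Helper53.CSC.Blk

/-! Two recursions of the volume functional: polar derivative and evaluation. -/

namespace Pool.CSC

open Polynomial ExteriorAlgebra Matrix

noncomputable section

/-- polar derivative with pole `a` at level `d` -/
def polar (d : ℕ) (a : ℝ) : ℝ[X] →ₗ[ℝ] ℝ[X] :=
  (d : ℝ) • LinearMap.id + (LinearMap.mulLeft ℝ (C a - X)) ∘ₗ (derivative : ℝ[X] →ₗ[ℝ] ℝ[X])

lemma polar_apply (d : ℕ) (a : ℝ) (f : ℝ[X]) :
    polar d a f = (d : ℝ) • f + (C a - X) * derivative f := rfl

lemma vol_first (L : List ℝ[X]) (u : ℝ[X]) :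
    vol (L.length + 1) (ι ℝ u * W L) =
      Matrix.det (Matrix.of (vecCons (cf (L.length + 1) u)
        (fun i => cf (L.length + 1) (L.get i)))) := by
  have : ι ℝ u * W L = W (u :: L) := by simp
  rw [this]
  have h := vol_W (u :: L)
  simp only [List.length_cons] at h
  rw [h]
  congr 1
  ext i j
  refine Fin.cases ?_ (fun i => ?_) i
  · simp
  · simp

/-- a linear functional of a polynomial of small degree, as a finite sum -/
lemma lin_sum {n : ℕ} (φ : ℝ[X] →ₗ[ℝ] ℝ) (f : ℝ[X]) (hf : f.natDegree < n) :
    φ f = ∑ i : Fin n, f.coeff i * φ (X ^ (i : ℕ)) := by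
  conv_lhs => rw [f.as_sum_range' n hf]
  rw [map_sum, Finset.sum_range]
  refine Finset.sum_congr rfl fun i _ => ?_
  rw [← C_mul_X_pow_eq_monomial, ← smul_eq_C_mul, map_smul, smul_eq_mul]

/-- evaluation recursion -/
theorem vol_eval (L : List ℝ[X]) (g : ℝ[X]) (a : ℝ) (hg : g.natDegree ≤ L.length)
    (hL : ∀ f ∈ L, f.natDegree < L.length) :
    vol (L.length + 1) (ι ℝ g * W (L.map fun f => (X - C a) * f)) =
      g.eval a * vol L.length (W L) := by
  set m := L.length with hm
  set L' := L.map fun f => (X - C a) * f with hL'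
  have hlen : L'.length = m := by simp [hL', hm]
  -- general form of the first determinant
  have hvol : vol (m + 1) (ι ℝ g * W L') = Matrix.det (Matrix.of (vecCons (cf (m + 1) g)
        (fun i : Fin m => cf (m + 1) ((X - C a) * L.get i)))) := by
    have h1 : ι ℝ g * W L' = ιMulti ℝ (m + 1)
        (vecCons g (fun i : Fin m => (X - C a) * L.get i)) := by
      rw [ιMulti_succ_apply]
      simp only [Matrix.cons_val_zero, Matrix.tail_cons]
      congr 1
      rw [ιMulti_apply, W]
      congr 1
      apply List.ext_getElem <;> simp [hL', hm]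
    rw [h1, vol_ιMulti]
    congr 1
    ext i j
    refine Fin.cases ?_ (fun i => ?_) i
    · simp
    · simp
  rw [hvol]
  set M : Matrix (Fin (m + 1)) (Fin (m + 1)) ℝ := Matrix.of (vecCons (cf (m + 1) g)
        (fun i : Fin m => cf (m + 1) ((X - C a) * L.get i))) with hM
  let P : Matrix (Fin (m + 1)) (Fin (m + 1)) ℝ := Matrix.of fun i j =>
    if j = 0 then a ^ (i : ℕ) else if i = j then 1 else 0
  have hP : P.det = 1 := by
    rw [Matrix.det_of_isLowerTriangular]
    · apply Finset.prod_eq_one
      intro i _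
      by_cases h : i = 0
      · simp [P, h]
      · simp [P, h]
    · intro i j hij
      have hij' : i < j := hij
      have h0 : j ≠ 0 := by
        rintro rfl
        exact absurd hij' (by simp)
      simp [P, h0, hij'.ne]
  have hMP : M.det = (M * P).det := by rw [Matrix.det_mul, hP, mul_one]
  rw [hMP, Matrix.det_succ_column_zero]
  have hcol : ∀ f : ℝ[X], f.natDegree < m + 1 →
      ∑ k : Fin (m + 1), f.coeff k * P k 0 = f.eval a := by
    intro f hf
    rw [Polynomial.eval_eq_sum_range' hf, Finset.sum_range]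
    refine Finset.sum_congr rfl fun i _ => ?_
    simp [P]
  have hdeg : ∀ i : Fin m, ((X - C a) * L.get i).natDegree < m + 1 := by
    intro i
    have h1 : (L.get i).natDegree < m := hL _ (List.get_mem L i)
    calc ((X - C a) * L.get i).natDegree ≤ (X - C a).natDegree + (L.get i).natDegree :=
          natDegree_mul_le
      _ ≤ 1 + (L.get i).natDegree := by
          gcongr
          exact natDegree_X_sub_C_le a
      _ < m + 1 := by omega
  have hentry0 : ∀ i : Fin m, (M * P) i.succ 0 = 0 := by
    intro i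
    rw [Matrix.mul_apply]
    have : ∀ k, M i.succ k * P k 0 = ((X - C a) * L.get i).coeff k * P k 0 := by
      intro k
      simp [hM]
    rw [Finset.sum_congr rfl fun k _ => this k, hcol _ (hdeg i)]
    simp
  have hentry1 : (M * P) 0 0 = g.eval a := by
    rw [Matrix.mul_apply]
    have : ∀ k, M 0 k * P k 0 = g.coeff k * P k 0 := by
      intro k
      simp [hM]
    rw [Finset.sum_congr rfl fun k _ => this k, hcol _ (by omega)]
  rw [Fin.sum_univ_succ]
  have hz : ∑ i : Fin m, (-1 : ℝ) ^ ((i.succ : Fin (m + 1)) : ℕ) * (M * P) i.succ 0 *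
      ((M * P).submatrix (Fin.succAbove i.succ) Fin.succ).det = 0 :=
    Finset.sum_eq_zero fun i _ => by rw [hentry0, mul_zero, zero_mul]
  rw [hz, add_zero, hentry1]
  simp only [Fin.val_zero, pow_zero, one_mul, Fin.succAbove_zero]
  congr 1
  rw [vol_W]
  -- the remaining minor
  set F : Matrix (Fin m) (Fin m) ℝ := Matrix.of fun i j : Fin m => (L.get i).coeff j with hF
  let U : Matrix (Fin m) (Fin m) ℝ := Matrix.of fun k j =>
    ((X - C a) * X ^ (k : ℕ)).coeff ((j : ℕ) + 1)
  have hU' : ∀ k j : Fin m, U k j = (if (j : ℕ) = k then 1 else 0) -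
      a * (if (j : ℕ) + 1 = k then 1 else 0) := by
    intro k j
    simp only [U, Matrix.of_apply, sub_mul, coeff_sub, coeff_X_mul, coeff_C_mul, coeff_X_pow]
  have hU : U.det = 1 := by
    rw [Matrix.det_of_isLowerTriangular]
    · apply Finset.prod_eq_one
      intro i _
      rw [hU']
      simp
    · intro i j hij
      have hij' : (i : ℕ) < j := hij
      rw [hU', if_neg (by omega), if_neg (by omega)]
      simp
  have hS : (M * P).submatrix Fin.succ Fin.succ = F * U := by
    ext i j
    rw [Matrix.submatrix_apply, Matrix.mul_apply, Matrix.mul_apply]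
    have h1 : ∑ k, M i.succ k * P k j.succ = ((X - C a) * L.get i).coeff ((j : ℕ) + 1) := by
      rw [Finset.sum_eq_single j.succ]
      · simp [hM, P]
      · intro k _ hk
        simp [P, hk, Fin.succ_ne_zero]
      · simp
    rw [h1]
    have h2 := lin_sum (n := m)
      ((Polynomial.lcoeff ℝ ((j : ℕ) + 1)) ∘ₗ (LinearMap.mulLeft ℝ (X - C a)))
      (L.get i) (hL _ (List.get_mem L i))
    simp only [LinearMap.comp_apply, LinearMap.mulLeft_apply, lcoeff_apply] at h2
    rw [h2]
    rfl
  rw [hS, Matrix.det_mul, hU, mul_one]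

end

end Pool.CSC
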