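import Pool.Agent.Helper53.CSC.Rec

/-! The polar derivative recursion. -/

namespace Pool.CSC

open Polynomial ExteriorAlgebra Matrix

noncomputable section

lemma polar_pow (d : ℕ) (a b : ℝ) (j : ℕ) :
    polar d a ((X - C b) ^ (j + 1)) =
      (((j : ℝ) + 1) * (a - b)) • (X - C b) ^ j + ((d : ℝ) - (j + 1)) • (X - C b) ^ (j + 1) := by
  rw [polar_apply, derivative_X_sub_C_pow]
  simp only [smul_eq_C_mul, Nat.add_sub_cancel, map_mul, map_sub, map_add, map_natCast,
    Nat.cast_add, Nat.cast_one, map_one]
  ring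

lemma polar_pow_self (d : ℕ) (a : ℝ) (j : ℕ) :
    polar d a ((X - C a) ^ j) = ((d : ℝ) - j) • (X - C a) ^ j := by
  cases j with
  | zero => simp [polar_apply]
  | succ j =>
    rw [polar_pow]
    simp

lemma polar_coeff (d : ℕ) (a : ℝ) (f : ℝ[X]) (j : ℕ) :
    (polar d a f).coeff j = ((d : ℝ) - j) * f.coeff j + a * ((j + 1) * f.coeff (j + 1)) := by
  rw [polar_apply, sub_mul, coeff_add, coeff_sub, coeff_C_mul, coeff_smul, coeff_derivative]
  cases j with
  | zero => simp
  | succ j =>
    rw [coeff_X_mul, coeff_derivative]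
    push_cast
    simp only [smul_eq_mul]
    ring

/-- the constant of the polar recursion -/
def kap (d : ℕ) : ℝ := ∏ j : Fin d, ((d : ℝ) - j)

lemma kap_pos (d : ℕ) : 0 < kap d := by
  apply Finset.prod_pos
  intro j _
  have : (j : ℝ) < d := by exact_mod_cast j.2
  linarith

theorem vol_polar (L : List ℝ[X]) (a : ℝ) (hL : ∀ f ∈ L, f.natDegree ≤ L.length) :
    vol (L.length + 1) (ι ℝ ((X - C a) ^ L.length) * W L) * kap L.length =
      (-1) ^ L.length * vol L.length (W (L.map (polar L.length a))) := by
  rw [vol_first]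
  set d := L.length with hd
  set v : ℝ[X] := (X - C a) ^ d with hv
  set M : Matrix (Fin (d + 1)) (Fin (d + 1)) ℝ := Matrix.of (vecCons (cf (d + 1) v)
        (fun i => cf (d + 1) (L.get i))) with hM
  let P : Matrix (Fin (d + 1)) (Fin (d + 1)) ℝ := Matrix.of fun i =>
    Fin.snoc (α := fun _ => ℝ) (fun j : Fin d => (polar d a (X ^ (i : ℕ))).coeff j)
      (if (i : ℕ) = d then 1 else 0)
  have hPc : ∀ (i : Fin (d + 1)) (j : Fin d), P i j.castSucc =
      ((d : ℝ) - j) * (if (j : ℕ) = i then 1 else 0) +
        a * ((j + 1) * (if (j : ℕ) + 1 = i then 1 else 0)) := by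
    intro i j
    simp only [P, Matrix.of_apply, Fin.snoc_castSucc, polar_coeff, coeff_X_pow]
  have hPl : ∀ (i : Fin (d + 1)), P i (Fin.last d) = if (i : ℕ) = d then 1 else 0 := by
    intro i
    simp only [P, Matrix.of_apply, Fin.snoc_last]
  have hP : P.det = kap d := by
    rw [Matrix.det_of_isLowerTriangular]
    · rw [Fin.prod_univ_castSucc, hPl, kap]
      simp only [Fin.val_last, if_true, mul_one]
      refine Finset.prod_congr rfl fun j _ => ?_
      rw [hPc]
      simp
    · intro i j hij
      have hij' : i < j := hij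
      refine Fin.lastCases ?_ (fun j hij' => ?_) j hij'
      · intro h
        rw [hPl, if_neg]
        have : (i : ℕ) < d := h
        omega
      · have : (i : ℕ) < j := hij'
        rw [hPc, if_neg (by omega), if_neg (by omega)]
        simp
  rw [← hP, ← Matrix.det_mul, Matrix.det_succ_row_zero]
  have hrow : ∀ (f : ℝ[X]), f.natDegree ≤ d → ∀ j : Fin d,
      ∑ k : Fin (d + 1), f.coeff k * P k j.castSucc = (polar d a f).coeff j := by
    intro f hf j
    have h2 := lin_sum (n := d + 1) ((Polynomial.lcoeff ℝ (j : ℕ)) ∘ₗ (polar d a)) f (by omega)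
    simp only [LinearMap.comp_apply, lcoeff_apply] at h2
    rw [h2]
    refine Finset.sum_congr rfl fun k _ => ?_
    simp only [P, Matrix.of_apply, Fin.snoc_castSucc]
  have hvdeg : v.natDegree = d := by
    rw [hv, natDegree_pow, natDegree_X_sub_C, mul_one]
  have h0 : ∀ j : Fin d, (M * P) 0 j.castSucc = 0 := by
    intro j
    rw [Matrix.mul_apply]
    have : ∀ k, M 0 k * P k j.castSucc = v.coeff k * P k j.castSucc := by
      intro k
      simp [hM]
    rw [Finset.sum_congr rfl fun k _ => this k, hrow v hvdeg.le, hv, polar_pow_self]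
    simp
  have h0l : (M * P) 0 (Fin.last d) = 1 := by
    rw [Matrix.mul_apply, Finset.sum_eq_single (Fin.last d)]
    · rw [hPl]
      have hmon : v.Monic := (monic_X_sub_C a).pow d
      have : v.coeff d = 1 := by
        have := hmon.coeff_natDegree
        rwa [hvdeg] at this
      simp [hM, this]
    · intro k _ hk
      rw [hPl, if_neg, mul_zero]
      intro h
      exact hk (Fin.ext h)
    · simp
  rw [Fin.sum_univ_castSucc]
  have hz : ∑ j : Fin d, (-1 : ℝ) ^ ((j.castSucc : Fin (d + 1)) : ℕ) * (M * P) 0 j.castSucc *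
      ((M * P).submatrix Fin.succ (Fin.succAbove j.castSucc)).det = 0 :=
    Finset.sum_eq_zero fun i _ => by rw [h0, mul_zero, zero_mul]
  rw [hz, zero_add, h0l]
  simp only [Fin.val_last, mul_one, Fin.succAbove_last]
  congr 1
  have hlen : (L.map (polar d a)).length = d := by simp [hd]
  have hvol : vol d (W (L.map (polar d a))) =
      Matrix.det (Matrix.of fun i j : Fin d => (polar d a (L.get i)).coeff j) := by
    have h1 : W (L.map (polar d a)) = ιMulti ℝ d (fun i : Fin d => polar d a (L.get i)) := by
      rw [ιMulti_apply, W]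
      congr 1
      apply List.ext_getElem <;> simp [hd]
    rw [h1, vol_ιMulti]
  rw [hvol]
  congr 1
  ext i j
  rw [Matrix.submatrix_apply, Matrix.mul_apply]
  have : ∀ k, M i.succ k * P k j.castSucc = (L.get i).coeff k * P k j.castSucc := by
    intro k
    simp [hM]
  rw [Finset.sum_congr rfl fun k _ => this k, hrow _ (hL _ (List.get_mem L i))]
  rfl

/-- the same with the power at the end -/
theorem vol_polar' (L : List ℝ[X]) (a : ℝ) (hL : ∀ f ∈ L, f.natDegree ≤ L.length) :
    vol (L.length + 1) (W L * ι ℝ ((X - C a) ^ L.length)) * kap L.length =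
      vol L.length (W (L.map (polar L.length a))) := by
  have h := W_mul_ι L ((X - C a) ^ L.length) 1
  rw [mul_one, mul_one] at h
  rw [h, map_smul, smul_eq_mul, mul_assoc, vol_polar L a hL, ← mul_assoc, ← pow_add,
    Even.neg_one_pow ⟨_, rfl⟩, one_mul]

end

end Pool.CSC
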