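import Pool.Agent.Helper53.CSC.Pos
import Pool.Agent.Helper53.CSC.Curve

/-! Members of cosecant flags along disjoint intervals span. -/

namespace Pool.CSC

open Polynomial

noncomputable section

/-- the real polynomial as a complex one -/
def cx (p : ℝ[X]) : ℂ[X] := p.map (algebraMap ℝ ℂ)

lemma span_of_vol {n : ℕ} (L : List ℝ[X]) (hn : L.length = n) (hv : vol n (W L) ≠ 0)
    (hdeg : ∀ f ∈ L, f.natDegree < n) (M : Submodule ℂ ℂ[X]) (hM : ∀ f ∈ L, cx f ∈ M) :
    degreeLT ℂ n ≤ M := by
  subst hn
  rw [vol_W] at hv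
  set A : Matrix (Fin L.length) (Fin L.length) ℝ :=
    Matrix.of fun i j : Fin L.length => (L.get i).coeff j with hA
  -- every power is in `M`
  have key : ∀ e < L.length, (X ^ e : ℂ[X]) ∈ M := by
    intro e he
    have h1 : (X ^ e : ℂ[X]) =
        ∑ i : Fin L.length, ((A⁻¹ ⟨e, he⟩ i : ℝ) : ℂ) • cx (L.get i) := by
      have h2 : (X ^ e : ℝ[X]) = ∑ i : Fin L.length, (A⁻¹ ⟨e, he⟩ i) • L.get i := by
        ext j
        rw [finsetSum_coeff]
        simp only [coeff_smul, smul_eq_mul]
        by_cases hj : j < L.length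
        · have h3 : (A⁻¹ * A) (⟨e, he⟩ : Fin L.length) (⟨j, hj⟩ : Fin L.length) =
              (1 : Matrix (Fin L.length) (Fin L.length) ℝ) (⟨e, he⟩ : Fin L.length)
                (⟨j, hj⟩ : Fin L.length) := by
            rw [Matrix.nonsing_inv_mul _ (isUnit_iff_ne_zero.2 hv)]
          rw [Matrix.mul_apply, Matrix.one_apply] at h3
          simp only [hA, Matrix.of_apply, Fin.mk.injEq] at h3
          rw [h3, coeff_X_pow]
          congr 1
          exact propext eq_comm
        · rw [coeff_X_pow, if_neg (by omega)]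
          symm
          apply Finset.sum_eq_zero
          intro i _
          rw [coeff_eq_zero_of_natDegree_lt, mul_zero]
          exact (hdeg _ (List.get_mem _ _)).trans_le (not_lt.1 hj)
      have h4 := congrArg cx h2
      simp only [cx, Polynomial.map_pow, map_X, Polynomial.map_sum, Polynomial.map_smul] at h4
      exact h4
    rw [h1]
    exact Submodule.sum_mem _ fun i _ => Submodule.smul_mem _ _ (hM _ (List.get_mem _ _))
  intro f hf
  rcases eq_or_ne f 0 with rfl | h0
  · exact Submodule.zero_mem _
  rw [f.as_sum_range' L.length (by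
    rw [mem_degreeLT, degree_eq_natDegree h0] at hf
    exact_mod_cast hf)]
  refine Submodule.sum_mem _ fun e he => ?_
  rw [← C_mul_X_pow_eq_monomial, ← smul_eq_C_mul]
  exact Submodule.smul_mem _ _ (key e (Finset.mem_range.1 he))

lemma mem_bl (g : ℝ[X]) (r : ℕ) : ∀ f ∈ bl g r, ∃ a < r, f = X ^ a * g := by
  induction r generalizing g with
  | zero => simp [bl]
  | succ r ih =>
    intro f hf
    rw [bl, List.mem_cons] at hf
    rcases hf with rfl | hf
    · exact ⟨0, by omega, by simp⟩
    · obtain ⟨a, ha, rfl⟩ := ih _ f hf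
      exact ⟨a + 1, by omega, by ring⟩

lemma mem_cat (n : ℕ) (Ls : List Grp) :
    ∀ f ∈ cat n Ls, ∃ G ∈ Ls, ∃ a < G.r, f = X ^ a * gp n G := by
  intro f hf
  rw [cat, List.mem_flatten] at hf
  obtain ⟨l, hl, hf⟩ := hf
  rw [List.mem_map] at hl
  obtain ⟨G, hG, rfl⟩ := hl
  obtain ⟨a, ha, rfl⟩ := mem_bl _ _ f hf
  exact ⟨G, hG, a, ha, rfl⟩

lemma fr_root (S : List ℝ) (s : ℝ) (hs : s ∈ S) : (fr S).eval s = 0 := by
  induction S with
  | nil => simp at hs
  | cons a S ih =>
    rw [fr_cons, eval_mul]
    rw [List.mem_cons] at hs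
    rcases hs with rfl | hs
    · simp
    · rw [ih hs, mul_zero]

lemma sep {I J : Set ℝ} (hI : I.OrdConnected) (hJ : J.OrdConnected) (hd : Disjoint I J)
    {x0 y0 : ℝ} (hx0 : x0 ∈ I) (hy0 : y0 ∈ J) (h0 : x0 < y0) :
    ∀ x ∈ I, ∀ y ∈ J, x < y := by
  intro x hx y hy
  by_contra h
  rw [not_lt] at h
  rcases le_total y x0 with h1 | h1
  · exact Set.disjoint_left.1 hd hx0 (hJ.out hy hy0 ⟨h1, h0.le⟩)
  · exact Set.disjoint_left.1 hd (hI.out hx0 hx ⟨h1, h⟩) hy

/-- **Key lemma**: members of flags with roots in disjoint intervals, of total dimension `n`,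
span the whole space -/
theorem span_top {n m : ℕ} (hn : 2 ≤ n) (I : Fin m → Set ℝ) (hI : ∀ l, (I l).OrdConnected)
    (hd : Pairwise (fun l l' => Disjoint (I l) (I l')))
    (F : Fin m → ℕ → Submodule ℂ (Fin n → ℂ)) (hF : ∀ l, Cosecant n (I l) (F l))
    (r : Fin m → ℕ) (hr : ∑ l, r l = n) : ⨆ l, F l (r l) = ⊤ := by
  choose hF0 s hsi hsI hFs using hF
  have hle : ∀ l, r l ≤ n := by
    intro l
    rw [← hr]
    exact Finset.single_le_sum (fun _ _ => Nat.zero_le _) (Finset.mem_univ l)
  -- a root of every flag
  let z : Fin (n - 1) := ⟨0, by omega⟩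
  let key : Fin m → ℝ := fun l => s l z
  have hkey : Function.Injective key := by
    intro l l' h
    by_contra hne
    exact Set.disjoint_left.1 (hd hne) (hsI l z) (by
      have : s l z = s l' z := h
      rw [this]
      exact hsI l' z)
  have hsep : ∀ l l', key l < key l' → ∀ i i', s l i < s l' i' := by
    intro l l' h i i'
    have hne : l ≠ l' := by
      rintro rfl
      exact lt_irrefl _ h
    exact sep (hI l) (hI l') (hd hne) (hsI l z) (hsI l' z) h _ (hsI l i) _ (hsI l' i')
  -- base points
  have hbase : ∀ l, ∃ a : ℝ, (∀ l', key l' < key l → ∀ i, s l' i < a) ∧ ∀ i, a < s l i := by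
    intro l
    obtain ⟨a, h1, h2⟩ := Order.exists_between_finsets
      ((Finset.univ.filter fun l' => key l' < key l).biUnion
        fun l' => Finset.univ.image (s l')) (Finset.univ.image (s l)) (by
      intro x hx y hy
      simp only [Finset.mem_biUnion, Finset.mem_filter, Finset.mem_univ, true_and,
        Finset.mem_image] at hx hy
      obtain ⟨l', hl', i, rfl⟩ := hx
      obtain ⟨i', rfl⟩ := hy
      exact hsep _ _ hl' _ _)
    refine ⟨a, fun l' hl' i => h1 _ ?_, fun i => h2 _ (by simp)⟩
    simp only [Finset.mem_biUnion, Finset.mem_filter, Finset.mem_univ, true_and,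
      Finset.mem_image]
    exact ⟨l', hl', i, rfl⟩
  choose a ha1 ha2 using hbase
  obtain ⟨b, hb1, -⟩ := Order.exists_between_finsets
      ((Finset.univ.biUnion fun l' => insert (a l') (Finset.univ.image (s l'))) : Finset ℝ) ∅
      (by simp)
  have hb2 : ∀ l i, s l i < b := fun l i => hb1 _ (by
    simp only [Finset.mem_biUnion, Finset.mem_univ, true_and, Finset.mem_insert,
      Finset.mem_image]
    exact ⟨l, Or.inr ⟨i, rfl⟩⟩)
  have hb3 : ∀ l, a l < b := fun l => hb1 _ (by
    simp only [Finset.mem_biUnion, Finset.mem_univ, true_and, Finset.mem_insert,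
      Finset.mem_image]
    exact ⟨l, Or.inl rfl⟩)
  -- the ordered list
  let σ := Tuple.sort key
  have hσ : StrictMono (key ∘ σ) :=
    (Tuple.monotone_sort key).strictMono_of_injective (hkey.comp σ.injective)
  let grp : Fin m → Grp := fun l => ⟨a l, (List.ofFn (s l)).take (n - r l), r l⟩
  let Ls : List Grp := List.ofFn (fun i => grp (σ i)) ++ [⟨b, [], 0⟩]
  have hmemS : ∀ l, ∀ x ∈ (List.ofFn (s l)).take (n - r l), ∃ i, x = s l i := by
    intro l x hx
    have := List.mem_of_mem_take hx
    rw [List.mem_ofFn] at this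
    obtain ⟨i, hi⟩ := this
    exact ⟨i, hi.symm⟩
  have hgood : Good n Ls := by
    refine ⟨?_, ?_, ?_, ?_, ?_⟩
    · rw [List.pairwise_append]
      refine ⟨?_, by simp, ?_⟩
      · rw [List.pairwise_ofFn]
        intro i j hij
        have h1 : key (σ i) < key (σ j) := hσ hij
        refine ⟨(ha2 _ z).trans (ha1 _ _ h1 z), ?_⟩
        intro x hx
        obtain ⟨i', rfl⟩ := hmemS _ x hx
        exact ha1 _ _ h1 i'
      · intro G hG H hH
        rw [List.mem_ofFn] at hG
        obtain ⟨i, rfl⟩ := hG
        simp only [List.mem_cons, List.not_mem_nil, or_false] at hH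
        subst hH
        refine ⟨hb3 _, ?_⟩
        intro x hx
        obtain ⟨i', rfl⟩ := hmemS _ x hx
        exact hb2 _ i'
    · intro G hG x hx
      rw [List.mem_append, List.mem_ofFn] at hG
      rcases hG with ⟨i, rfl⟩ | hG
      · obtain ⟨i', rfl⟩ := hmemS _ x hx
        exact ha2 _ i'
      · simp only [List.mem_cons, List.not_mem_nil, or_false] at hG
        subst hG
        simp at hx
    · simp only [Ls, List.map_append, List.map_ofFn, List.sum_append, List.sum_ofFn,
        List.map_cons, List.map_nil, List.sum_cons, List.sum_nil, add_zero]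
      have : ∑ i, (Grp.r ∘ fun i => grp (σ i)) i = ∑ i, r (σ i) := rfl
      rw [this, Equiv.sum_comp σ r, hr]
    · intro G hG
      rw [List.mem_append, List.mem_ofFn] at hG
      rcases hG with ⟨i, rfl⟩ | hG
      · simp only [grp, List.length_take, List.length_ofFn]
        have := hle (σ i)
        omega
      · simp only [List.mem_cons, List.not_mem_nil, or_false] at hG
        subst hG
        simp
    · intro P K hPK
      have := (List.append_inj' hPK rfl).2
      simp only [List.cons.injEq, and_true] at this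
      rw [← this]
  have hpos := main_pos n _ Ls rfl hgood
  have hlen : (cat n Ls).length = n := by rw [cat_length, hgood.sm]
  rw [eq_top_iff]
  intro v _
  have hspan := span_of_vol (cat n Ls) hlen hpos.ne' (natDegree_cat hgood.le)
    ((⨆ l, F l (r l)).map (fp n)) (by
    intro f hf
    obtain ⟨G, hG, e, he, rfl⟩ := mem_cat n Ls f hf
    have hG' := hG
    simp only [Ls] at hG
    rw [List.mem_append, List.mem_ofFn] at hG
    rcases hG with ⟨i, rfl⟩ | hG
    · set l := σ i with hl
      have he' : e < r l := he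
      -- the polynomial
      have hgp : gp n (grp l) = fr ((List.ofFn (s l)).take (n - r l)) := by
        rw [gp]
        simp only [grp, List.length_take, List.length_ofFn]
        rw [show n - r l - min (n - r l) (n - 1) = 0 by omega, pow_zero, one_mul]
      have hdeg : cx (X ^ e * gp n (grp l)) ∈ degreeLT ℂ n := by
        rw [mem_degreeLT]
        have h1 : (X ^ e * gp n (grp l)).natDegree < n :=
          natDegree_cat hgood.le _ hf
        refine (degree_map_le).trans_lt ?_
        exact (degree_le_natDegree).trans_lt (by exact_mod_cast h1)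
      obtain ⟨w, hw⟩ := fp_surj n hdeg
      rw [← hw]
      refine Submodule.mem_map_of_mem ?_
      refine Submodule.mem_iSup_of_mem l ?_
      have h2 := hFs l (n - r l) (by omega)
      rw [show n - (n - r l) = r l by have := hle l; omega] at h2
      rw [h2, mem_flag (by omega)]
      intro i' hi'
      rw [hw, hgp]
      have h3 : ((X : ℝ[X]) ^ e * fr ((List.ofFn (s l)).take (n - r l))).eval (s l i') = 0 := by
        rw [eval_mul, fr_root _ (s l i'), mul_zero]
        rw [List.mem_take_iff_getElem]
        exact ⟨i', by simp; omega, by simp⟩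
      rw [cx, show ((s l i' : ℝ) : ℂ) = algebraMap ℝ ℂ (s l i') from rfl, eval_map_algebraMap,
        aeval_algebraMap_apply_eq_algebraMap_eval, h3, map_zero]
    · simp only [List.mem_cons, List.not_mem_nil, or_false] at hG
      subst hG
      simp at he)
  obtain ⟨w, hw, hwv⟩ := hspan (fp_degree n v)
  rwa [← fp_injective n hwv]

end

end Pool.CSC
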