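import Mathlib

/-! Two flags and a subspace in general position. -/

namespace Pool.CSC

open Module

section

variable {K V : Type*} [Field K] [AddCommGroup V] [Module K V] [FiniteDimensional K V]

/-- removing dimensions from one summand -/
lemma finrank_shrink {A' A : Submodule K V} (h : A' ≤ A) (X : Submodule K V) :
    finrank K ↥(A ⊔ X) + finrank K A' ≤ finrank K ↥(A' ⊔ X) + finrank K A := by
  have h1 : A ⊔ X = A ⊔ (A' ⊔ X) := by
    rw [← sup_assoc, sup_eq_left.2 h]
  have h2 := Submodule.finrank_sup_add_finrank_inf_eq A (A' ⊔ X)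
  have h3 : finrank K A' ≤ finrank K ↥(A ⊓ (A' ⊔ X)) :=
    Submodule.finrank_mono (le_inf h le_sup_left)
  rw [h1]
  omega

lemma finrank_inf_ge {n : ℕ} (hn : finrank K V = n) (A B : Submodule K V) :
    finrank K A + finrank K B ≤ finrank K ↥(A ⊓ B) + n := by
  have h2 := Submodule.finrank_sup_add_finrank_inf_eq A B
  have h3 : finrank K ↥(A ⊔ B) ≤ n := hn ▸ Submodule.finrank_le _
  omega

lemma finrank_inf_ge' (A B H : Submodule K V) (hA : A ≤ H) (hB : B ≤ H) :
    finrank K A + finrank K B ≤ finrank K ↥(A ⊓ B) + finrank K H := by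
  have h2 := Submodule.finrank_sup_add_finrank_inf_eq A B
  have h3 : finrank K ↥(A ⊔ B) ≤ finrank K H := Submodule.finrank_mono (sup_le hA hB)
  omega

/-- a complete flag -/
structure IsFlag (n : ℕ) (F : ℕ → Submodule K V) : Prop where
  mono : ∀ i j, i ≤ j → j ≤ n → F i ≤ F j
  dim : ∀ j ≤ n, finrank K (F j) = j

/-- two flags and a subspace of dimension `e` in general position -/
structure Gen (n e : ℕ) (F G : ℕ → Submodule K V) (E : Submodule K V) : Prop where
  hV : finrank K V = n
  hE : finrank K E = e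
  hF : IsFlag n F
  hG : IsFlag n G
  top : ∀ a b, a + b + e = n → F a ⊔ G b ⊔ E = ⊤

lemma Gen.symm {n e : ℕ} {F G : ℕ → Submodule K V} {E : Submodule K V} (h : Gen n e F G E) :
    Gen n e G F E where
  hV := h.hV
  hE := h.hE
  hF := h.hG
  hG := h.hF
  top := fun a b hab => by
    rw [sup_comm (G a)]
    exact h.top b a (by omega)

lemma Gen.ind {n e : ℕ} {F G : ℕ → Submodule K V} {E : Submodule K V} (h : Gen n e F G E)
    {a b : ℕ} (hab : a + b + e ≤ n) {A B : Submodule K V} (hA : A ≤ F a) (hB : B ≤ G b) :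
    finrank K A + finrank K B + e ≤ finrank K ↥(A ⊔ B ⊔ E) := by
  set a' := n - b - e with ha'
  have h1 : F a ≤ F a' := h.hF.mono _ _ (by omega) (by omega)
  have h2 := h.top a' b (by omega)
  have h3 := finrank_shrink (hA.trans h1) (G b ⊔ E)
  rw [← sup_assoc, h2, finrank_top, h.hV, h.hF.dim a' (by omega)] at h3
  have h4 := finrank_shrink hB (A ⊔ E)
  have h5 : G b ⊔ (A ⊔ E) = A ⊔ (G b ⊔ E) := by
    rw [sup_left_comm]
  have h6 : B ⊔ (A ⊔ E) = A ⊔ B ⊔ E := by
    rw [sup_left_comm, sup_assoc]
  rw [h5, h6, h.hG.dim b (by omega)] at h4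
  omega

/-- dimensions inside a subspace containing `E` -/
lemma Gen.le {n e : ℕ} {F G : ℕ → Submodule K V} {E : Submodule K V} (h : Gen n e F G E)
    {a b : ℕ} (hab : a + b + e ≤ n) {H : Submodule K V} (hH : E ≤ H) :
    finrank K ↥(H ⊓ F a) + finrank K ↥(H ⊓ G b) + e ≤ finrank K H :=
  (h.ind hab inf_le_right inf_le_right).trans
    (Submodule.finrank_mono (sup_le (sup_le inf_le_left inf_le_left) hH))

/-- the two Schubert conditions and the condition `E ≤ H` -/
structure Sol (n k : ℕ) (lam mu : ℕ → ℕ) (F G : ℕ → Submodule K V) (E H : Submodule K V) :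
    Prop where
  dim : finrank K H = k
  hE : E ≤ H
  hF : ∀ i < k, i + 1 ≤ finrank K ↥(H ⊓ F (n - k + (i + 1) - lam i))
  hG : ∀ i < k, i + 1 ≤ finrank K ↥(H ⊓ G (n - k + (i + 1) - mu i))

/-- the numerical data -/
structure Num (n k e : ℕ) (lam mu : ℕ → ℕ) : Prop where
  hkn : k < n
  hek : e ≤ k
  al : Antitone lam
  am : Antitone mu
  wl : ∀ i, lam i ≤ n - k
  wm : ∀ i, mu i ≤ n - k
  zl : ∀ i, k ≤ i → lam i = 0
  zm : ∀ i, k ≤ i → mu i = 0
  sum : ∑ i ∈ Finset.range k, lam i + ∑ i ∈ Finset.range k, mu i = (k - e) * (n - k)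

/-- complementary partitions -/
structure Compl (n k e : ℕ) (lam mu : ℕ → ℕ) : Prop where
  eq : ∀ i j, i + j + 1 = k - e → lam i + mu j = n - k
  zl : ∀ i, k - e ≤ i → lam i = 0
  zm : ∀ i, k - e ≤ i → mu i = 0

lemma Num.symm {n k e : ℕ} {lam mu : ℕ → ℕ} (h : Num n k e lam mu) : Num n k e mu lam where
  hkn := h.hkn
  hek := h.hek
  al := h.am
  am := h.al
  wl := h.wm
  wm := h.wl
  zl := h.zm
  zm := h.zl
  sum := by rw [add_comm]; exact h.sum

lemma Compl.symm {n k e : ℕ} {lam mu : ℕ → ℕ} (h : Compl n k e lam mu) :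
    Compl n k e mu lam where
  eq := fun i j hij => by
    rw [add_comm]
    exact h.eq j i (by omega)
  zl := h.zm
  zm := h.zl

lemma Sol.symm {n k : ℕ} {lam mu : ℕ → ℕ} {F G : ℕ → Submodule K V} {E H : Submodule K V}
    (h : Sol n k lam mu F G E H) : Sol n k mu lam G F E H where
  dim := h.dim
  hE := h.hE
  hF := h.hG
  hG := h.hF

lemma compl_zero {n k e : ℕ} {lam mu : ℕ → ℕ} {F G : ℕ → Submodule K V} {E H : Submodule K V}
    (hN : Num n k e lam mu) (h : Gen n e F G E) (hS : Sol n k lam mu F G E H) :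
    ∀ i, k - e ≤ i → lam i = 0 := by
  intro i hi
  have hk := hN.hkn
  have hek := hN.hek
  rcases le_or_gt k i with h1 | h1
  · exact hN.zl i h1
  · have h2 : lam (k - e) = 0 := by
      by_contra h3
      have h4 := hS.hF (k - e) (by omega)
      have h5 := h.le (a := n - k + (k - e + 1) - lam (k - e)) (b := 0) (by omega) hS.hE
      rw [hS.dim] at h5
      omega
    have := hN.al hi
    omega

/-- a solution exists only for complementary partitions -/
theorem compl_of_sol {n k e : ℕ} {lam mu : ℕ → ℕ} {F G : ℕ → Submodule K V}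
    {E H : Submodule K V} (hN : Num n k e lam mu) (h : Gen n e F G E)
    (hS : Sol n k lam mu F G E H) : Compl n k e lam mu := by
  have hk := hN.hkn
  have hek := hN.hek
  have zl := compl_zero hN h hS
  have zm := compl_zero hN.symm h.symm hS.symm
  have hle : ∀ i j, i + j + 1 = k - e → lam i + mu j ≤ n - k := by
    intro i j hij
    by_contra hc
    have h1 := hS.hF i (by omega)
    have h2 := hS.hG j (by omega)
    have h3 := hN.wl i
    have h4 := hN.wm j
    have h5 := h.le (a := n - k + (i + 1) - lam i) (b := n - k + (j + 1) - mu j) (by omega) hS.hE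
    rw [hS.dim] at h5
    omega
  refine ⟨?_, zl, zm⟩
  -- equality from the sum
  have hsum := hN.sum
  have hl : ∑ i ∈ Finset.range k, lam i = ∑ i ∈ Finset.range (k - e), lam i := by
    symm
    apply Finset.sum_subset
    · intro i hi
      rw [Finset.mem_range] at hi ⊢
      omega
    · intro i _ hi
      exact zl i (by rw [Finset.mem_range] at hi; omega)
  have hm : ∑ i ∈ Finset.range k, mu i = ∑ i ∈ Finset.range (k - e), mu (k - e - 1 - i) := by
    rw [Finset.sum_range_reflect]
    symm
    apply Finset.sum_subset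
    · intro i hi
      rw [Finset.mem_range] at hi ⊢
      omega
    · intro i _ hi
      exact zm i (by rw [Finset.mem_range] at hi; omega)
  rw [hl, hm, ← Finset.sum_add_distrib] at hsum
  have hconst : ∑ _i ∈ Finset.range (k - e), (n - k) = (k - e) * (n - k) := by simp
  rw [← hconst] at hsum
  have h6 := (Finset.sum_eq_sum_iff_of_le (s := Finset.range (k - e))
    (f := fun i => lam i + mu (k - e - 1 - i)) (g := fun _ => n - k) (fun i hi => by
      rw [Finset.mem_range] at hi
      exact hle i (k - e - 1 - i) (by omega))).1 hsum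
  intro i j hij
  have h7 := h6 i (by rw [Finset.mem_range]; omega)
  have h8 : k - e - 1 - i = j := by omega
  rw [h8] at h7
  exact h7

end

end Pool.CSC
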