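import Pool.Agent.Helper53.CSC.Two

/-! The unique solution for complementary partitions. -/

namespace Pool.CSC

open Module

section

variable {K V : Type*} [Field K] [AddCommGroup V] [Module K V] [FiniteDimensional K V]

/-- index of the `i`-th condition -/
def ix (n k : ℕ) (lam : ℕ → ℕ) (i : ℕ) : ℕ := n - k + (i + 1) - lam i

/-- the lines of the solution -/
def ln (n k e : ℕ) (lam mu : ℕ → ℕ) (F G : ℕ → Submodule K V) (E : Submodule K V) (i : ℕ) :
    Submodule K V :=
  F (ix n k lam i) ⊓ (G (ix n k mu (k - e - 1 - i)) ⊔ E)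

/-- the solution -/
def hs (n k e : ℕ) (lam mu : ℕ → ℕ) (F G : ℕ → Submodule K V) (E : Submodule K V) :
    Submodule K V :=
  E ⊔ (Finset.range (k - e)).sup (ln n k e lam mu F G E)

lemma finrank_sup_fin (X : Submodule K V) (L : ℕ → Submodule K V) (T : Finset ℕ)
    (hL : ∀ i ∈ T, finrank K ↥(L i) ≤ 1) :
    finrank K ↥(X ⊔ T.sup L) ≤ finrank K X + T.card := by
  induction T using Finset.induction_on with
  | empty => rw [Finset.sup_empty, sup_bot_eq, Finset.card_empty, add_zero]
  | insert a T ha ih =>
    rw [Finset.sup_insert, Finset.card_insert_of_notMem ha, sup_left_comm]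
    have h1 := ih fun i hi => hL i (by simp [hi])
    have h2 := hL a (by simp)
    have h3 := Submodule.finrank_add_le_finrank_add_finrank (L a) (X ⊔ T.sup L)
    omega

section compl

variable {n k e : ℕ} {lam mu : ℕ → ℕ} {F G : ℕ → Submodule K V} {E : Submodule K V}

lemma ix_lt (hN : Num n k e lam mu) {i j : ℕ} (hij : i < j) : ix n k lam i < ix n k lam j := by
  have h1 := hN.al hij.le
  have h2 := hN.wl i
  rw [ix, ix]
  omega

lemma ix_le (hN : Num n k e lam mu) {i : ℕ} (hi : i < k) : ix n k lam i ≤ n := by
  have h1 := hN.hkn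
  rw [ix]
  omega

lemma ix_pos (hN : Num n k e lam mu) (i : ℕ) : 1 ≤ ix n k lam i := by
  have h1 := hN.wl i
  rw [ix]
  omega

lemma ix_sum (hN : Num n k e lam mu) (hC : Compl n k e lam mu) {i j : ℕ}
    (hij : i + j + 1 = k - e) : ix n k lam i + ix n k mu j + e = n + 1 := by
  have h1 := hC.eq i j hij
  have h2 := hN.wl i
  have h3 := hN.wm j
  have h4 := hN.hkn
  have h5 := hN.hek
  rw [ix, ix]
  omega

lemma finrank_GE (h : Gen n e F G E) {b : ℕ} (hb : b + e ≤ n) :
    finrank K ↥(G b ⊔ E) = b + e := by
  have h1 := h.ind (a := 0) (b := b) (by omega) (bot_le : ⊥ ≤ F 0) (le_refl (G b))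
  have h2 := Submodule.finrank_add_le_finrank_add_finrank (G b) E
  rw [h.hG.dim b (by omega), h.hE] at h2
  rw [bot_sup_eq, finrank_bot, h.hG.dim b (by omega)] at h1
  omega

lemma finrank_FE (h : Gen n e F G E) {a : ℕ} (ha : a + e ≤ n) :
    finrank K ↥(F a ⊔ E) = a + e := finrank_GE h.symm ha

lemma disj_FE (h : Gen n e F G E) {a : ℕ} (ha : a + e ≤ n) : F a ⊓ E = ⊥ := by
  have h1 := Submodule.finrank_sup_add_finrank_inf_eq (F a) E
  rw [finrank_FE h ha, h.hF.dim a (by omega), h.hE] at h1
  exact Submodule.finrank_eq_zero.1 (by omega)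

lemma top_add_one (h : Gen n e F G E) {a b : ℕ} (hab : a + b + e = n + 1) (ha : 1 ≤ a)
    (han : a ≤ n) : F a ⊔ (G b ⊔ E) = ⊤ := by
  have h1 := h.top (a - 1) b (by omega)
  rw [← sup_assoc]
  refine top_le_iff.1 (h1 ▸ ?_)
  exact sup_le_sup_right (sup_le_sup_right (h.hF.mono _ _ (by omega) han) _) _

/-- intersection of two members of independent triple -/
lemma inter_E (h : Gen n e F G E) {a b : ℕ} (hab : a + b + e = n) :
    (F a ⊔ E) ⊓ (G b ⊔ E) = E := by
  have h1 := Submodule.finrank_sup_add_finrank_inf_eq (F a ⊔ E) (G b ⊔ E)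
  have h2 : (F a ⊔ E) ⊔ (G b ⊔ E) = ⊤ := by
    rw [← h.top a b hab, ← sup_sup_distrib_right]
  rw [h2, finrank_top, h.hV, finrank_FE h (by omega), finrank_GE h (by omega)] at h1
  symm
  apply Submodule.eq_of_le_of_finrank_le (le_inf le_sup_right le_sup_right)
  rw [h.hE]
  omega

lemma finrank_ln (hN : Num n k e lam mu) (hC : Compl n k e lam mu) (h : Gen n e F G E)
    {i : ℕ} (hi : i < k - e) : finrank K ↥(ln n k e lam mu F G E i) = 1 := by
  have h1 := ix_sum hN hC (i := i) (j := k - e - 1 - i) (by omega)
  have h2 := ix_pos hN i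
  have h3 := ix_le hN (i := i) (by omega)
  have h4 := ix_pos hN.symm (k - e - 1 - i)
  have h5 := Submodule.finrank_sup_add_finrank_inf_eq (F (ix n k lam i))
    (G (ix n k mu (k - e - 1 - i)) ⊔ E)
  rw [top_add_one h h1 h2 h3, finrank_top, h.hV, h.hF.dim _ h3, finrank_GE h (by omega)] at h5
  rw [ln]
  omega

lemma finrank_part (hN : Num n k e lam mu) (hC : Compl n k e lam mu) (h : Gen n e F G E)
    (t : ℕ) (ht : t ≤ k - e) :
    finrank K ↥(E ⊔ (Finset.range t).sup (ln n k e lam mu F G E)) = e + t := by
  induction t with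
  | zero => rw [Finset.range_zero, Finset.sup_empty, sup_bot_eq, h.hE, add_zero]
  | succ t ih =>
    have h1 := ih (by omega)
    rw [Finset.range_add_one, Finset.sup_insert, sup_left_comm]
    set X := E ⊔ (Finset.range t).sup (ln n k e lam mu F G E) with hX
    have hs := ix_sum hN hC (i := t) (j := k - e - 1 - t) (by omega)
    have hp := ix_pos hN t
    have hle := ix_le hN (i := t) (by omega)
    have hXle : X ≤ F (ix n k lam t - 1) ⊔ E := by
      refine sup_le le_sup_right (Finset.sup_le fun i hi => ?_)
      rw [Finset.mem_range] at hi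
      have := ix_lt hN hi
      exact (inf_le_left.trans (h.hF.mono _ _ (by omega) (by omega))).trans le_sup_left
    have hdis : ln n k e lam mu F G E t ⊓ X = ⊥ := by
      rw [eq_bot_iff]
      have h2 : ln n k e lam mu F G E t ⊓ X ≤ E := by
        have h3 := inter_E h (a := ix n k lam t - 1) (b := ix n k mu (k - e - 1 - t)) (by omega)
        refine le_trans ?_ h3.le
        exact le_inf (inf_le_right.trans hXle) (inf_le_left.trans inf_le_right)
      have h4 : ln n k e lam mu F G E t ⊓ X ≤ F (ix n k lam t) ⊓ E :=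
        le_inf (inf_le_left.trans inf_le_left) h2
      have h5 := ix_pos hN.symm (k - e - 1 - t)
      rwa [disj_FE h (by omega)] at h4
    have h6 := Submodule.finrank_sup_add_finrank_inf_eq (ln n k e lam mu F G E t) X
    rw [hdis, finrank_bot, finrank_ln hN hC h (by omega), h1] at h6
    omega

lemma finrank_hs (hN : Num n k e lam mu) (hC : Compl n k e lam mu) (h : Gen n e F G E) :
    finrank K ↥(hs n k e lam mu F G E) = k := by
  rw [hs, finrank_part hN hC h _ le_rfl]
  have := hN.hek
  omega

/-- every set of lines is independent modulo `E` -/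
lemma finrank_sub (hN : Num n k e lam mu) (hC : Compl n k e lam mu) (h : Gen n e F G E)
    (T : Finset ℕ) (hT : T ⊆ Finset.range (k - e)) :
    e + T.card ≤ finrank K ↥(E ⊔ T.sup (ln n k e lam mu F G E)) := by
  have h1 := finrank_sup_fin (E ⊔ T.sup (ln n k e lam mu F G E)) (ln n k e lam mu F G E)
    (Finset.range (k - e) \ T) (fun i hi => by
      rw [Finset.mem_sdiff, Finset.mem_range] at hi
      exact (finrank_ln hN hC h hi.1).le)
  rw [sup_assoc, ← Finset.sup_union, Finset.union_sdiff_of_subset hT,
    finrank_part hN hC h _ le_rfl, Finset.card_sdiff_of_subset hT, Finset.card_range] at h1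
  have h2 := Finset.card_le_card hT
  rw [Finset.card_range] at h2
  omega

lemma sol_hs (hN : Num n k e lam mu) (hC : Compl n k e lam mu) (h : Gen n e F G E) :
    Sol n k lam mu F G E (hs n k e lam mu F G E) := by
  have hk := hN.hkn
  have hek := hN.hek
  refine ⟨finrank_hs hN hC h, le_sup_left, ?_, ?_⟩
  · intro i hi
    by_cases hik : i < k - e
    · have h1 := finrank_sub hN hC h (Finset.range (i + 1)) (by
        intro j hj
        rw [Finset.mem_range] at hj ⊢
        omega)
      rw [Finset.card_range] at h1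
      have h2 := Submodule.finrank_add_le_finrank_add_finrank E
        ((Finset.range (i + 1)).sup (ln n k e lam mu F G E))
      rw [h.hE] at h2
      have h3 : (Finset.range (i + 1)).sup (ln n k e lam mu F G E) ≤
          hs n k e lam mu F G E ⊓ F (ix n k lam i) := by
        refine Finset.sup_le fun j hj => ?_
        rw [Finset.mem_range] at hj
        refine le_inf ?_ ?_
        · exact (Finset.le_sup (f := ln n k e lam mu F G E)
            (by rw [Finset.mem_range]; omega)).trans le_sup_right
        · refine inf_le_left.trans ?_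
          rcases Nat.lt_succ_iff_lt_or_eq.1 hj with h4 | h4
          · exact h.hF.mono _ _ (ix_lt hN h4).le (ix_le hN hi)
          · rw [h4]
      have h5 := Submodule.finrank_mono h3
      rw [ix] at h5
      omega
    · have h1 := finrank_inf_ge h.hV (hs n k e lam mu F G E) (F (n - k + (i + 1) - lam i))
      rw [hC.zl i (by omega), Nat.sub_zero] at h1 ⊢
      rw [finrank_hs hN hC h, h.hF.dim _ (by omega)] at h1
      omega
  · intro j hj
    by_cases hjk : j < k - e
    · set T := Finset.Ico (k - e - 1 - j) (k - e) with hT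
      have h1 := finrank_sub hN hC h T (by
        intro i hi
        rw [hT, Finset.mem_Ico] at hi
        rw [Finset.mem_range]
        omega)
      have hTc : T.card = j + 1 := by
        rw [hT, Nat.card_Ico]
        omega
      rw [hTc] at h1
      have h2 : E ⊔ T.sup (ln n k e lam mu F G E) ≤
          (E ⊔ G (ix n k mu j)) ⊓ hs n k e lam mu F G E := by
        refine sup_le (le_inf le_sup_left le_sup_left) (Finset.sup_le fun i hi => ?_)
        rw [hT, Finset.mem_Ico] at hi
        refine le_inf ?_ ?_
        · refine inf_le_right.trans ?_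
          rw [sup_comm]
          refine sup_le_sup_left ?_ _
          rcases Nat.lt_or_eq_of_le (show k - e - 1 - i ≤ j by omega) with h4 | h4
          · exact h.hG.mono _ _ (ix_lt hN.symm h4).le (ix_le hN.symm hj)
          · rw [h4]
        · exact (Finset.le_sup (f := ln n k e lam mu F G E)
            (by rw [Finset.mem_range]; omega)).trans le_sup_right
      have hEle : E ≤ hs n k e lam mu F G E := le_sup_left
      rw [sup_inf_assoc_of_le _ hEle] at h2
      have h3 := Submodule.finrank_mono h2
      have h4 := Submodule.finrank_add_le_finrank_add_finrank E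
        (G (ix n k mu j) ⊓ hs n k e lam mu F G E)
      rw [h.hE, inf_comm] at h4
      rw [inf_comm (G (ix n k mu j))] at h3
      rw [ix] at h3 h4
      omega
    · have h1 := finrank_inf_ge h.hV (hs n k e lam mu F G E) (G (n - k + (j + 1) - mu j))
      rw [hC.zm j (by omega), Nat.sub_zero] at h1 ⊢
      rw [finrank_hs hN hC h, h.hG.dim _ (by omega)] at h1
      omega

lemma sol_unique (hN : Num n k e lam mu) (hC : Compl n k e lam mu) (h : Gen n e F G E)
    {H : Submodule K V} (hS : Sol n k lam mu F G E H) : H = hs n k e lam mu F G E := by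
  have hk := hN.hkn
  have hek := hN.hek
  symm
  apply Submodule.eq_of_le_of_finrank_le
  · refine sup_le hS.hE (Finset.sup_le fun i hi => ?_)
    rw [Finset.mem_range] at hi
    set j := k - e - 1 - i with hj
    have hs := ix_sum hN hC (i := i) (j := j) (by omega)
    have h1 := hS.hF i (by omega)
    have h2 := hS.hG j (by omega)
    have hp := ix_pos hN i
    have h3 := h.ind (a := 0) (b := ix n k mu j) (by omega) (bot_le : ⊥ ≤ F 0)
      (inf_le_right : H ⊓ G (ix n k mu j) ≤ _)
    rw [bot_sup_eq, finrank_bot] at h3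
    have h4 := finrank_inf_ge' (H ⊓ F (ix n k lam i)) ((H ⊓ G (ix n k mu j)) ⊔ E) H inf_le_left
      (sup_le inf_le_left hS.hE)
    rw [hS.dim] at h4
    have h5 : (H ⊓ F (ix n k lam i)) ⊓ ((H ⊓ G (ix n k mu j)) ⊔ E) ≤
        ln n k e lam mu F G E i :=
      le_inf (inf_le_left.trans inf_le_right)
        (inf_le_right.trans (sup_le_sup_right inf_le_right _))
    have h6 := Submodule.eq_of_le_of_finrank_le h5 (by
      rw [finrank_ln hN hC h hi]
      rw [ix] at h3 h4 ⊢
      rw [ix] at h4 ⊢
      omega)
    rw [← h6]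
    exact inf_le_left.trans inf_le_left
  · rw [hS.dim, finrank_hs hN hC h]

end compl

end

end Pool.CSC
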