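import Mathlib

/-! Volume functional on products of polynomials and the three term relation. -/

namespace Pool.CSC

open Polynomial ExteriorAlgebra Matrix

noncomputable section

/-- the first `n` coefficients -/
def cf (n : ℕ) : ℝ[X] →ₗ[ℝ] (Fin n → ℝ) := LinearMap.pi fun j => Polynomial.lcoeff ℝ (j : ℕ)

@[simp] lemma cf_apply (n : ℕ) (f : ℝ[X]) (j : Fin n) : cf n f j = f.coeff j := rfl

def volForm (n : ℕ) : ℝ[X] [⋀^Fin n]→ₗ[ℝ] ℝ :=
  (Matrix.detRowAlternating (R := ℝ) (n := Fin n)).compLinearMap (cf n)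

lemma volForm_apply (n : ℕ) (v : Fin n → ℝ[X]) :
    volForm n v = Matrix.det (Matrix.of fun i j : Fin n => (v i).coeff j) := rfl

def vol (n : ℕ) : ExteriorAlgebra ℝ ℝ[X] →ₗ[ℝ] ℝ :=
  liftAlternating (fun i => if i = n then volForm i else 0)

/-- the product of a list of vectors -/
def W (L : List ℝ[X]) : ExteriorAlgebra ℝ ℝ[X] := (L.map (ι ℝ)).prod

@[simp] lemma W_nil : W [] = 1 := rfl
@[simp] lemma W_cons (f : ℝ[X]) (L : List ℝ[X]) : W (f :: L) = ι ℝ f * W L := by
  simp [W]
lemma W_append (L L' : List ℝ[X]) : W (L ++ L') = W L * W L' := by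
  simp [W]

lemma W_eq_ιMulti (L : List ℝ[X]) : W L = ιMulti ℝ L.length (fun i => L.get i) := by
  rw [ιMulti_apply, W]
  congr 1
  apply List.ext_getElem <;> simp

lemma vol_ιMulti (n : ℕ) (v : Fin n → ℝ[X]) :
    vol n (ιMulti ℝ n v) = Matrix.det (Matrix.of fun i j : Fin n => (v i).coeff j) := by
  rw [vol, liftAlternating_apply_ιMulti]
  simp [volForm_apply]

lemma vol_W (L : List ℝ[X]) :
    vol L.length (W L) =
      Matrix.det (Matrix.of fun i j : Fin L.length => (L.get i).coeff j) := by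
  rw [W_eq_ιMulti, vol_ιMulti]

lemma vol_zero_one : vol 0 1 = 1 := by
  have := vol_W []
  simpa using this

/-- three term relation for determinants -/
theorem det_three {m : ℕ} (R : Fin m → Fin (m + 2) → ℝ) (a b c e : Fin (m + 2) → ℝ) :
    Matrix.det (Matrix.of (vecCons a (vecCons b R))) *
      Matrix.det (Matrix.of (vecCons c (vecCons e R))) =
    Matrix.det (Matrix.of (vecCons a (vecCons c R))) *
      Matrix.det (Matrix.of (vecCons b (vecCons e R))) -
    Matrix.det (Matrix.of (vecCons a (vecCons e R))) *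
      Matrix.det (Matrix.of (vecCons b (vecCons c R))) := by
  set M : Matrix (Fin (m + 2)) (Fin (m + 2)) ℝ := Matrix.of (vecCons a (vecCons b R)) with hM
  -- the linear functional `u ↦ det (u, e, R)`
  let ℓ : (Fin (m + 2) → ℝ) →ₗ[ℝ] ℝ :=
    (Matrix.detRowAlternating (R := ℝ) (n := Fin (m + 2))).toMultilinearMap.toLinearMap
      (vecCons 0 (vecCons e R)) 0
  have hℓ : ∀ u, ℓ u = Matrix.det (Matrix.of (vecCons u (vecCons e R))) := by
    intro u
    show Matrix.det (Function.update (vecCons 0 (vecCons e R)) 0 u) = _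
    congr 1
    ext i j
    refine Fin.cases ?_ (fun i => ?_) i
    · simp
    · simp
  have hcr := Matrix.mulVec_cramer Mᵀ c
  have h1 : M.det • c = ∑ i, (M.updateRow i c).det • M i := by
    rw [← Matrix.det_transpose M, ← hcr]
    ext j
    simp only [Matrix.mulVec, dotProduct, Matrix.transpose_apply, Matrix.cramer_transpose_apply,
      Finset.sum_apply, Pi.smul_apply, smul_eq_mul]
    exact Finset.sum_congr rfl fun i _ => mul_comm _ _
  have h2 := congrArg ℓ h1
  rw [map_smul, map_sum] at h2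
  simp only [map_smul, smul_eq_mul] at h2
  rw [Fin.sum_univ_succ, Fin.sum_univ_succ] at h2
  have hR : ∀ i : Fin m, ℓ (M i.succ.succ) = 0 := by
    intro i
    rw [hℓ]
    apply Matrix.det_zero_of_row_eq (i := 0) (j := i.succ.succ)
    · simp [Fin.ext_iff]
    · ext j
      simp [hM]
  have hM0 : M 0 = a := rfl
  have hM1 : M (Fin.succ 0) = b := rfl
  have hu0 : (M.updateRow 0 c) = Matrix.of (vecCons c (vecCons b R)) := by
    ext i j
    refine Fin.cases ?_ (fun i => ?_) i
    · simp
    · simp [hM, Matrix.updateRow_ne]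
  have hu1 : (M.updateRow (Fin.succ 0) c) = Matrix.of (vecCons a (vecCons c R)) := by
    ext i j
    refine Fin.cases ?_ (fun i => ?_) i
    · rw [Matrix.updateRow_ne (by simp)]
      simp [hM]
    · refine Fin.cases ?_ (fun i => ?_) i
      · simp
      · rw [Matrix.updateRow_ne (by simp [Fin.ext_iff])]
        simp [hM]
  have hz : ∑ i : Fin m, (M.updateRow i.succ.succ c).det * ℓ (M i.succ.succ) = 0 :=
    Finset.sum_eq_zero fun i _ => by rw [hR, mul_zero]
  rw [hz, hM0, hM1, hu0, hu1, hℓ, hℓ, hℓ] at h2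
  have hsw : Matrix.det (Matrix.of (vecCons c (vecCons b R))) =
      - Matrix.det (Matrix.of (vecCons b (vecCons c R))) := by
    have h3 := (Matrix.detRowAlternating (R := ℝ) (n := Fin (m + 2))).map_swap
      (vecCons b (vecCons c R)) (i := 0) (j := 1) (by simp)
    have h4 : (vecCons b (vecCons c R) : Fin (m + 2) → Fin (m + 2) → ℝ) ∘ (Equiv.swap 0 1) =
        vecCons c (vecCons b R) := by
      ext i j
      refine Fin.cases ?_ (fun i => ?_) i
      · simp
      · refine Fin.cases ?_ (fun i => ?_) i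
        · simp
        · rw [Function.comp_apply, Equiv.swap_apply_of_ne_of_ne (by simp) (by simp [Fin.ext_iff])]
          simp
    rw [h4] at h3
    exact h3
  rw [hsw] at h2
  linear_combination h2

/-- brackets: two vectors in front of a product of `m` vectors -/
lemma vol_two (L : List ℝ[X]) (u v : ℝ[X]) :
    vol (L.length + 2) (ι ℝ u * (ι ℝ v * W L)) =
      Matrix.det (Matrix.of (vecCons (cf (L.length + 2) u)
        (vecCons (cf (L.length + 2) v) (fun i => cf (L.length + 2) (L.get i))))) := by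
  have : ι ℝ u * (ι ℝ v * W L) = W (u :: v :: L) := by simp
  rw [this]
  have h := vol_W (u :: v :: L)
  simp only [List.length_cons] at h
  rw [h]
  congr 1
  ext i j
  refine Fin.cases ?_ (fun i => ?_) i
  · simp
  · refine Fin.cases ?_ (fun i => ?_) i
    · simp
    · simp

theorem three_term (L : List ℝ[X]) {n : ℕ} (hn : n = L.length + 2) (a b c e : ℝ[X]) :
    vol n (ι ℝ a * (ι ℝ b * W L)) * vol n (ι ℝ c * (ι ℝ e * W L)) =
    vol n (ι ℝ a * (ι ℝ c * W L)) * vol n (ι ℝ b * (ι ℝ e * W L)) -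
    vol n (ι ℝ a * (ι ℝ e * W L)) * vol n (ι ℝ b * (ι ℝ c * W L)) := by
  subst hn
  simp only [vol_two]
  exact det_three _ _ _ _ _

lemma ι_anti (u v : ℝ[X]) : ι ℝ u * ι ℝ v = - (ι ℝ v * ι ℝ u) :=
  eq_neg_of_add_eq_zero_left (ι_add_mul_swap u v)

/-- moving a vector through a product -/
lemma W_mul_ι (L : List ℝ[X]) (u : ℝ[X]) (T : ExteriorAlgebra ℝ ℝ[X]) :
    W L * (ι ℝ u * T) = ((-1 : ℝ) ^ L.length) • (ι ℝ u * (W L * T)) := by
  induction L with
  | nil => simp
  | cons x L ih =>
    rw [W_cons, mul_assoc, ih, List.length_cons, mul_smul_comm, ← mul_assoc, ι_anti x u, pow_succ,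
      neg_mul, mul_assoc, mul_assoc]
    simp

end

end Pool.CSC
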